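import Pool.Agent.H94.GP.Blk

/-!
# BlkO: the two blocks of the local form outside the disk, region I

The rows of `ξ σ` and `η σ` are multiplied by `1/t`. (Same proof as `blk_id`.)
-/

set_option autoImplicit false

namespace Pool.Agent.H23.GP

open Pool.Agent.H94.GP

/-- products, even block, with `t ξ σ` in the place of `ξ σ` -/
noncomputable def o1 (t a ξ η σ : ℝ) (α p q : ℂ) : List ℝ :=
  [a * σ, a * α.re, a * p.re, a * q.re, t * ξ * σ, ξ * α.re, ξ * p.re, ξ * q.re, η * α.im, η * p.im, η * q.im]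

/-- products, odd block, with `t η σ` in the place of `η σ` -/
noncomputable def o2 (t a ξ η σ : ℝ) (α p q : ℂ) : List ℝ :=
  [a * α.im, a * p.im, a * q.im, ξ * α.im, ξ * p.im, ξ * q.im, t * η * σ, η * α.re, η * p.re, η * q.re]

theorem blkO_id (T R S X R' S' X' : Fin 16 → ℝ) (K' : Fin 33 → ℝ) (t : ℝ)
    (hR : ∀ j : Fin 16, 4 ≤ j.val → R' j = R j)
    (hS : ∀ j : Fin 16, 4 ≤ j.val → S' j = S j) (hX : ∀ j : Fin 16, 4 ≤ j.val → X' j = X j)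
    (hX0 : X 0 = t ^ 2 * X' 0) (hR0 : R 0 = t * R' 0)
    (hX1 : X 1 = t * X' 1) (hX2 : X 2 = t * X' 2) (hX3 : X 3 = t * X' 3)
    (hR1 : (R' 1 - K' 0) + t * (R' 1 + K' 0) = 2 * R 1) (hR2 : (R' 2 - K' 1) + t * (R' 2 + K' 1) = 2 * R 2)
    (hR3 : (R' 3 - K' 2) + t * (R' 3 + K' 2) = 2 * R 3)
    (hS1 : (S' 1 - K' 9) + t * (S' 1 + K' 9) = 2 * S 1) (hS2 : (S' 2 - K' 10) + t * (S' 2 + K' 10) = 2 * S 2)
    (hS3 : (S' 3 - K' 11) + t * (S' 3 + K' 11) = 2 * S 3)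
    (a ξ η σ : ℝ) (α p q : ℂ) :
    2 * floc T R S X a ξ η σ α p q
      = qf (B1 T R' S' X' K') (o1 t a ξ η σ α p q) + qf (B2 T R' S' X' K') (o2 t a ξ η σ α p q) := by
  rcases α with ⟨α1, α2⟩
  rcases p with ⟨p1, p2⟩
  rcases q with ⟨q1, q2⟩
  have e0 : Cj σ ⟨α1, α2⟩ ⟨p1, p2⟩ ⟨q1, q2⟩ 0 = ⟨σ ^ 2, 0⟩ := by
    apply Complex.ext <;> simp [Cj, sq] <;> ring
  have e1 : Cj σ ⟨α1, α2⟩ ⟨p1, p2⟩ ⟨q1, q2⟩ 1 = ⟨σ * α1, σ * α2⟩ := by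
    apply Complex.ext <;> simp [Cj, sq] <;> ring
  have e2 : Cj σ ⟨α1, α2⟩ ⟨p1, p2⟩ ⟨q1, q2⟩ 2 = ⟨σ * p1, σ * p2⟩ := by
    apply Complex.ext <;> simp [Cj, sq] <;> ring
  have e3 : Cj σ ⟨α1, α2⟩ ⟨p1, p2⟩ ⟨q1, q2⟩ 3 = ⟨σ * q1, σ * q2⟩ := by
    apply Complex.ext <;> simp [Cj, sq] <;> ring
  have e4 : Cj σ ⟨α1, α2⟩ ⟨p1, p2⟩ ⟨q1, q2⟩ 4 = ⟨α1 ^ 2 + α2 ^ 2, 0⟩ := by
    apply Complex.ext <;> simp [Cj, sq] <;> ring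
  have e5 : Cj σ ⟨α1, α2⟩ ⟨p1, p2⟩ ⟨q1, q2⟩ 5 = ⟨α1 ^ 2 - α2 ^ 2, 2 * α1 * α2⟩ := by
    apply Complex.ext <;> simp [Cj, sq] <;> ring
  have e6 : Cj σ ⟨α1, α2⟩ ⟨p1, p2⟩ ⟨q1, q2⟩ 6 = ⟨α1 * p1 + α2 * p2, α2 * p1 - α1 * p2⟩ := by
    apply Complex.ext <;> simp [Cj, sq] <;> ring
  have e7 : Cj σ ⟨α1, α2⟩ ⟨p1, p2⟩ ⟨q1, q2⟩ 7 = ⟨α1 * p1 - α2 * p2, α1 * p2 + α2 * p1⟩ := by
    apply Complex.ext <;> simp [Cj, sq] <;> ring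
  have e8 : Cj σ ⟨α1, α2⟩ ⟨p1, p2⟩ ⟨q1, q2⟩ 8 = ⟨α1 * q1 + α2 * q2, α1 * q2 - α2 * q1⟩ := by
    apply Complex.ext <;> simp [Cj, sq] <;> ring
  have e9 : Cj σ ⟨α1, α2⟩ ⟨p1, p2⟩ ⟨q1, q2⟩ 9 = ⟨α1 * q1 - α2 * q2, α1 * q2 + α2 * q1⟩ := by
    apply Complex.ext <;> simp [Cj, sq] <;> ring
  have e10 : Cj σ ⟨α1, α2⟩ ⟨p1, p2⟩ ⟨q1, q2⟩ 10 = ⟨p1 ^ 2 + p2 ^ 2, 0⟩ := by
    apply Complex.ext <;> simp [Cj, sq] <;> ring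
  have e11 : Cj σ ⟨α1, α2⟩ ⟨p1, p2⟩ ⟨q1, q2⟩ 11 = ⟨p1 ^ 2 - p2 ^ 2, 2 * p1 * p2⟩ := by
    apply Complex.ext <;> simp [Cj, sq] <;> ring
  have e12 : Cj σ ⟨α1, α2⟩ ⟨p1, p2⟩ ⟨q1, q2⟩ 12 = ⟨p1 * q1 + p2 * q2, p1 * q2 - p2 * q1⟩ := by
    apply Complex.ext <;> simp [Cj, sq] <;> ring
  have e13 : Cj σ ⟨α1, α2⟩ ⟨p1, p2⟩ ⟨q1, q2⟩ 13 = ⟨p1 * q1 - p2 * q2, p1 * q2 + p2 * q1⟩ := by
    apply Complex.ext <;> simp [Cj, sq] <;> ring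
  have e14 : Cj σ ⟨α1, α2⟩ ⟨p1, p2⟩ ⟨q1, q2⟩ 14 = ⟨q1 ^ 2 + q2 ^ 2, 0⟩ := by
    apply Complex.ext <;> simp [Cj, sq] <;> ring
  have e15 : Cj σ ⟨α1, α2⟩ ⟨p1, p2⟩ ⟨q1, q2⟩ 15 = ⟨q1 ^ 2 - q2 ^ 2, 2 * q1 * q2⟩ := by
    apply Complex.ext <;> simp [Cj, sq] <;> ring
  have hR1' : R 1 = ((R' 1 - K' 0) + t * (R' 1 + K' 0)) / 2 := by rw [hR1]; ring
  have hR2' : R 2 = ((R' 2 - K' 1) + t * (R' 2 + K' 1)) / 2 := by rw [hR2]; ring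
  have hR3' : R 3 = ((R' 3 - K' 2) + t * (R' 3 + K' 2)) / 2 := by rw [hR3]; ring
  have hS1' : S 1 = ((S' 1 - K' 9) + t * (S' 1 + K' 9)) / 2 := by rw [hS1]; ring
  have hS2' : S 2 = ((S' 2 - K' 10) + t * (S' 2 + K' 10)) / 2 := by rw [hS2]; ring
  have hS3' : S 3 = ((S' 3 - K' 11) + t * (S' 3 + K' 11)) / 2 := by rw [hS3]; ring
  rw [floc, sum16, e0, e1, e2, e3, e4, e5, e6, e7, e8, e9, e10, e11, e12, e13, e14, e15]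
  simp only [B1, B2, o1, o2, qf, rowv, dotl]
  rw [hR 4 (by decide), hR 5 (by decide), hR 6 (by decide), hR 7 (by decide), hR 8 (by decide),
    hR 9 (by decide), hR 10 (by decide), hR 11 (by decide), hR 12 (by decide), hR 13 (by decide),
    hR 14 (by decide), hR 15 (by decide),
    hS 5 (by decide), hS 6 (by decide), hS 7 (by decide), hS 8 (by decide),
    hS 9 (by decide), hS 11 (by decide), hS 12 (by decide), hS 13 (by decide),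
    hS 15 (by decide),
    hX 4 (by decide), hX 5 (by decide), hX 6 (by decide), hX 7 (by decide), hX 8 (by decide),
    hX 9 (by decide), hX 10 (by decide), hX 11 (by decide), hX 12 (by decide), hX 13 (by decide),
    hX 14 (by decide), hX 15 (by decide)]
  rw [hR0, hR1', hR2', hR3', hS1', hS2', hS3', hX0, hX1, hX2, hX3]
  ring

end Pool.Agent.H23.GP
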