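import Pool.Agent.H94.GP.RgC

/-!
# RegO: the `σ` components outside the disk, region I

`t = (s - 1) 4/9`, `e = 1 - t`; `X = e^2 t (u + t p(t))`, `A = e (a + t q(t))`, `D = e (z + t w(t))`. Scaling: row of `a` by `r`, rows of
`ξ`, `η` by `1/e`, rows of `ξ σ`, `η σ` in addition by `1/t`.
-/

set_option autoImplicit false

open Pool.Agent.H94.ER Pool.Agent.H94.SP Pool.Agent.H94.GP

namespace Pool.Agent.H23.GP

/-- variable outside -/
noncomputable def tt (s : ℝ) : ℝ := (s - 1) * (4 / 9)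

/-- `X` -/
noncomputable def oX (u : ℝ) (l : List ℤ) (s : ℝ) : ℝ := (1 - tt s) ^ 2 * (tt s * (u + tt s * pf l (tt s)))

/-- its derivative -/
noncomputable def oXd (u : ℝ) (l : List ℤ) (s : ℝ) : ℝ :=
  4 / 9 * (-2 * (1 - tt s) * (tt s * (u + tt s * pf l (tt s)))
    + (1 - tt s) ^ 2 * (u + 2 * tt s * pf l (tt s) + tt s ^ 2 * pf (pder l) (tt s)))

/-- `A` or `D` -/
noncomputable def oA (a : ℝ) (l : List ℤ) (s : ℝ) : ℝ := (1 - tt s) * (a + tt s * pf l (tt s))

/-- its derivative -/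
noncomputable def oAd (a : ℝ) (l : List ℤ) (s : ℝ) : ℝ :=
  4 / 9 * (-(a + tt s * pf l (tt s)) + (1 - tt s) * (pf l (tt s) + tt s * pf (pder l) (tt s)))

theorem tt_hasDerivAt (s : ℝ) : HasDerivAt tt (4 / 9) s := by
  have h := ((hasDerivAt_id' s).sub_const 1).mul_const (4 / 9 : ℝ)
  refine h.congr_deriv ?_
  ring

theorem pft_hasDerivAt (l : List ℤ) (s : ℝ) : HasDerivAt (fun s => pf l (tt s)) (pf (pder l) (tt s) * (4 / 9)) s :=
  (pf_hasDerivAt l (tt s)).comp s (tt_hasDerivAt s)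

theorem oX_hasDerivAt (u : ℝ) (l : List ℤ) (s : ℝ) : HasDerivAt (oX u l) (oXd u l s) s := by
  have ht := tt_hasDerivAt s
  have hp := pft_hasDerivAt l s
  have h := ((ht.const_sub 1).pow 2).mul (ht.mul ((ht.mul hp).const_add u))
  refine h.congr_deriv ?_
  simp only [oXd, Pi.mul_apply, Nat.cast_ofNat, Nat.add_one_sub_one, pow_one, Pi.pow_apply]
  ring

theorem oA_hasDerivAt (a : ℝ) (l : List ℤ) (s : ℝ) : HasDerivAt (oA a l) (oAd a l s) s := by
  have ht := tt_hasDerivAt s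
  have hp := pft_hasDerivAt l s
  have h := (ht.const_sub 1).mul ((ht.mul hp).const_add a)
  refine h.congr_deriv ?_
  simp only [oAd, Pi.mul_apply]
  ring

/-- general `X` outside: value `x` at `s = 1`, `u = 9/4 X'(1) + 2 x` -/
noncomputable def gX (x u : ℝ) (l : List ℤ) (s : ℝ) : ℝ := (1 - tt s) ^ 2 * (x + tt s * (u + tt s * pf l (tt s)))

/-- its derivative -/
noncomputable def gXd (x u : ℝ) (l : List ℤ) (s : ℝ) : ℝ :=
  4 / 9 * (-2 * (1 - tt s) * (x + tt s * (u + tt s * pf l (tt s)))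
    + (1 - tt s) ^ 2 * (u + 2 * tt s * pf l (tt s) + tt s ^ 2 * pf (pder l) (tt s)))

theorem gX_hasDerivAt (x u : ℝ) (l : List ℤ) (s : ℝ) : HasDerivAt (gX x u l) (gXd x u l s) s := by
  have ht := tt_hasDerivAt s
  have hp := pft_hasDerivAt l s
  have h := ((ht.const_sub 1).pow 2).mul ((ht.mul ((ht.mul hp).const_add u)).const_add x)
  refine h.congr_deriv ?_
  simp only [gXd, Pi.mul_apply, Nat.cast_ofNat, Nat.add_one_sub_one, pow_one, Pi.pow_apply]
  ring

theorem tt_one : tt 1 = 0 := by simp [tt]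

theorem tt_S : tt (13 / 4) = 1 := by norm_num [tt]

theorem gX_one (x u : ℝ) (l : List ℤ) : gX x u l 1 = x := by simp [gX, tt_one]

theorem gXd_one (x u : ℝ) (l : List ℤ) : gXd x u l 1 = 4 / 9 * (u - 2 * x) := by
  simp [gXd, tt_one]
  ring

theorem gX_S (x u : ℝ) (l : List ℤ) : gX x u l (13 / 4) = 0 := by simp [gX, tt_S]

theorem gXd_S (x u : ℝ) (l : List ℤ) : gXd x u l (13 / 4) = 0 := by simp [gXd, tt_S]

theorem oA_one (a : ℝ) (l : List ℤ) : oA a l 1 = a := by simp [oA, tt_one]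

theorem oA_S (a : ℝ) (l : List ℤ) : oA a l (13 / 4) = 0 := by simp [oA, tt_S]

theorem contDiff_tt : ContDiff ℝ 1 tt := (contDiff_id.sub contDiff_const).mul contDiff_const

theorem contDiff_pft (l : List ℤ) : ContDiff ℝ 1 (fun s => pf l (tt s)) :=
  ((contDiff_pev l 1).comp contDiff_tt).div_const _

theorem contDiff_gX (x u : ℝ) (l : List ℤ) : ContDiff ℝ 1 (gX x u l) :=
  ((contDiff_const.sub contDiff_tt).pow 2).mul
    (contDiff_const.add (contDiff_tt.mul (contDiff_const.add (contDiff_tt.mul (contDiff_pft l)))))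

theorem contDiff_oA (a : ℝ) (l : List ℤ) : ContDiff ℝ 1 (oA a l) :=
  (contDiff_const.sub contDiff_tt).mul (contDiff_const.add (contDiff_tt.mul (contDiff_pft l)))

end Pool.Agent.H23.GP
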