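import Pool.Agent.H23.GP.RegI

/-!
# RegJ: expressions for the reduced `σ` entries inside the disk, region I

Environment in the variable `r`: `nF`, `N1f`, `Kf`, `GG`, `gc` at `r^2`.
-/

set_option autoImplicit false

open Pool.Agent.H94.ER Pool.Agent.H94.SP Pool.Agent.H94.GP

namespace Pool.Agent.H23.GP

/-- `gc` on `[0,1]` -/
def tmgc : TM := ⟨[1000000000000000], 10000000⟩

theorem ok_gc : tmgc.ok DD gc := by
  intro s h0 h1
  have hg := gc_pos s h0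
  have hg2 := gc_sq s h0
  have hD : (DD : ℝ) = 1000000000000000 := by norm_num [DD]
  have h2 : gc s ^ 2 ≤ 1 := by
    rw [hg2, div_le_one (by positivity)]
    linarith [show 0 ≤ s / 100000000 by positivity]
  have h3 : 1 - 1 / 100000000 ≤ gc s ^ 2 := by
    rw [hg2, le_div_iff₀ (by positivity)]
    nlinarith
  have h4 : gc s ≤ 1 := by nlinarith
  have h5 : 1 - 1 / 100000000 ≤ gc s := by nlinarith
  simp only [tmgc, pev, hD]
  rw [abs_le]
  push_cast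
  constructor <;> linarith

/-- atoms in `r` -/
noncomputable def fI : ℕ → ℝ → ℝ
  | 0 => fun r => nF (r ^ 2)
  | 1 => fun r => N1f (r ^ 2)
  | 2 => fun r => Kf (r ^ 2)
  | 3 => fun r => GG (r ^ 2)
  | _ => fun r => gc (r ^ 2)

/-- their models -/
def envI : ℕ → TM
  | 0 => tmF.sq
  | 1 => tmN.sq
  | 2 => tmK.sq
  | 3 => tmG.sq
  | _ => tmgc.sq

theorem envI_ok (i : ℕ) : (envI i).ok DD (fI i) := by
  rcases i with _ | _ | _ | _ | i
  · exact TM.ok_sq _ _ _ ok_F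
  · exact TM.ok_sq _ _ _ ok_N
  · exact TM.ok_sq _ _ _ ok_K
  · exact TM.ok_sq _ _ _ ok_G
  · exact TM.ok_sq _ _ _ ok_gc

/-- `r^2` -/
def xs : Ex := .mul .var .var

/-- `1 - r^2` -/
def xo : Ex := .add (.int 1) (.smul (-1) xs)

/-- `wyf` -/
def xw (l : List ℤ) : Ex :=
  .add (.smul (-6) (pex xs l)) (.add (.smul 2 (.mul xo (pex xs (pder l)))) (.smul 2 (.mul xo (.mul (.atm 3) (pex xs l)))))

/-- constant `z/10^6` -/
def xz (z : ℤ) : Ex := .cst (z * 1000000000)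

/-- `cH` -/
def xH (lf : List ℤ) (lp ly : Fin 4 → List ℤ) (c2 : ℤ) : Fin 4 → Ex :=
  ![.int 0,
    .add (.add (.smul (-4) (.atm 0)) (.smul 2 (.mul xo (pex xs (ly 1)))))
      (.add (.mul xs (xw (ly 1))) (.smul (-2) (.mul xo (pex xs (lp 1))))),
    .add (.add (.smul (-4) (.mul xs (.mul (.atm 0) (pex xs lf)))) (.mul xo (pex xs (ly 2))))
      (.add (.add (.mul xs (xw (ly 2))) (.mul (xz c2) (.mul xs (.atm 4)))) (.smul (-1) (.mul xo (pex xs (lp 2))))),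
    .add (.add (.smul (-4) (.mul (.atm 0) (pex xs lf))) (.smul 3 (.mul xo (pex xs (ly 3)))))
      (.add (.mul xs (xw (ly 3))) (.smul (-3) (.mul xo (pex xs (lp 3)))))]

/-- `cX` -/
def xX (lp : Fin 4 → List ℤ) : Fin 4 → Ex :=
  ![.mul (.add (.int 1) (.mul xs (.atm 0))) (.atm 2), .smul 2 (.mul (pex xs (lp 1)) xs),
    .smul 2 (.mul (pex xs (lp 2)) .var), .smul 2 (.mul (pex xs (lp 3)) (.mul xs .var))]

/-- `cR` -/
def xR (lf : List ℤ) (lp ly : Fin 4 → List ℤ) : Fin 4 → Ex :=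
  ![.int 0,
    .smul 2 (.mul .var (.add (.add (.smul (-4) (.atm 1)) (.smul 2 (pex xs (ly 1))))
      (.add (.add (.smul (-2) (.mul xs (pex xs (pder (lp 1))))) (.smul (-2) (pex xs (lp 1))))
        (.mul xs (.mul (.atm 3) (pex xs (lp 1))))))),
    .smul 2 (.add (.add (.smul (-4) (.mul (.atm 1) (.mul xs (pex xs lf)))) (pex xs (ly 2)))
      (.add (.add (.smul (-2) (.mul xs (pex xs (pder (lp 2))))) (.smul (-1) (pex xs (lp 2))))
        (.mul xs (.mul (.atm 3) (pex xs (lp 2)))))),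
    .smul 2 (.mul xs (.add (.add (.smul (-4) (.mul (.atm 1) (pex xs lf))) (.smul 3 (pex xs (ly 3))))
      (.add (.add (.smul (-2) (.mul xs (pex xs (pder (lp 3))))) (.smul (-3) (pex xs (lp 3))))
        (.mul xs (.mul (.atm 3) (pex xs (lp 3)))))))]

/-- `cK` -/
def xK (lf : List ℤ) (lp ly lh : Fin 4 → List ℤ) (c2 : ℤ) : Fin 4 → Ex :=
  ![.int 0,
    .add (.smul (-1) (.mul xs (xH lf lp ly c2 1))) (.smul 2 (.mul xo (pex xs (lh 1)))),
    .add (.smul (-1) (.mul .var (xH lf lp ly c2 2))) (.smul 2 (.mul xo (.mul .var (pex xs (lh 2))))),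
    .add (.smul (-1) (.mul (.mul xs .var) (xH lf lp ly c2 3))) (.smul 2 (.mul xo (.mul .var (pex xs (lh 3)))))]

/-- `2 + r^2 GG` -/
def x2g : Ex := .add (.int 2) (.mul xs (.atm 3))

/-- `(1 - r^2) GG - 2` -/
def xg2 : Ex := .add (.mul xo (.atm 3)) (.int (-2))

/-- `cS` -/
def xS (lf : List ℤ) (lp ly lh : Fin 4 → List ℤ) (c2 : ℤ) : Fin 4 → Ex :=
  ![.int 0,
    .add (.mul .var (.mul (xH lf lp ly c2 1) x2g)) (.smul (-2) (.mul .var (.mul xg2 (pex xs (lh 1))))),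
    .add (.mul (xH lf lp ly c2 2) x2g) (.smul (-2) (.mul xs (.mul xg2 (pex xs (lh 2))))),
    .add (.mul xs (.mul (xH lf lp ly c2 3) x2g)) (.smul (-2) (.mul xs (.mul xg2 (pex xs (lh 3)))))]

theorem xs_ev (r : ℝ) : xs.ev DD fI r = r ^ 2 := by
  simp only [xs, Ex.ev]
  ring

theorem xo_ev (r : ℝ) : xo.ev DD fI r = 1 - r ^ 2 := by
  simp only [xo, Ex.ev, xs_ev]
  push_cast
  ring

theorem xz_ev (z : ℤ) (r : ℝ) : (xz z).ev DD fI r = z / 1000000 := by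
  have e : ((DD : ℕ) : ℝ) = 1000000000000000 := by norm_num [DD]
  simp only [xz, Ex.ev, e]
  push_cast
  ring

theorem xw_ev (l : List ℤ) (r : ℝ) : (xw l).ev DD fI r = wyf l (r ^ 2) := by
  simp only [xw, Ex.ev, xo_ev, pex_ev, xs_ev, fI, wyf, wy]
  push_cast
  ring

theorem xH_ev (lf : List ℤ) (lp ly : Fin 4 → List ℤ) (c2 : ℤ) (j : Fin 4) (r : ℝ) :
    (xH lf lp ly c2 j).ev DD fI r = cH lf lp ly (c2 / 1000000) j (r ^ 2) := by
  fin_cases j <;>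
    simp [xH, cH, Ex.ev, xo_ev, pex_ev, xs_ev, xw_ev, xz_ev, fI] <;> ring

theorem xX_ev (lp : Fin 4 → List ℤ) (j : Fin 4) (r : ℝ) : (xX lp j).ev DD fI r = cX lp j r := by
  fin_cases j <;>
    simp [xX, cX, Ex.ev, xo_ev, pex_ev, xs_ev, fI] <;> ring

theorem xR_ev (lf : List ℤ) (lp ly : Fin 4 → List ℤ) (j : Fin 4) (r : ℝ) :
    (xR lf lp ly j).ev DD fI r = cR lf lp ly j r := by
  fin_cases j <;>
    simp [xR, cR, Ex.ev, xo_ev, pex_ev, xs_ev, fI] <;> ring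

theorem xK_ev (lf : List ℤ) (lp ly lh : Fin 4 → List ℤ) (c2 : ℤ) (j : Fin 4) (r : ℝ) :
    (xK lf lp ly lh c2 j).ev DD fI r = cK lf lp ly lh (c2 / 1000000) j r := by
  fin_cases j <;>
    simp [xK, cK, Ex.ev, xo_ev, pex_ev, xs_ev, xH_ev, fI] <;> ring

theorem xS_ev (lf : List ℤ) (lp ly lh : Fin 4 → List ℤ) (c2 : ℤ) (j : Fin 4) (r : ℝ) :
    (xS lf lp ly lh c2 j).ev DD fI r = cS lf lp ly lh (c2 / 1000000) j r := by
  fin_cases j <;>
    simp [xS, cS, Ex.ev, xo_ev, pex_ev, xs_ev, xH_ev, x2g, xg2, fI] <;> ring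

end Pool.Agent.H23.GP
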