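import Pool.Agent.H94.GP.QtA
import Pool.Agent.H23.GP.RegJ

/-!
# ZiI: a zone inside the disk, region I

Components `j < 4`: `eX, eA, eD`; components `j ≥ 4`: polynomials.
-/

set_option autoImplicit false

open Pool.Agent.H94.ER Pool.Agent.H94.SP Pool.Agent.H94.GP

namespace Pool.Agent.H23.GP

/-- radial functions -/
noncomputable def iX (lp : Fin 4 → List ℤ) (X : Fin 16 → List ℤ) (j : Fin 16) (s : ℝ) : ℝ :=
  if h : j.val < 4 then eX lp ⟨j.val, h⟩ s else pf (X j) s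

/-- derivative -/
noncomputable def iXd (lp : Fin 4 → List ℤ) (X : Fin 16 → List ℤ) (j : Fin 16) (s : ℝ) : ℝ :=
  if h : j.val < 4 then eXd lp ⟨j.val, h⟩ s else pf (pder (X j)) s

/-- radial functions -/
noncomputable def iA (ly : Fin 4 → List ℤ) (c2 : ℝ) (A : Fin 16 → List ℤ) (j : Fin 16) (s : ℝ) : ℝ :=
  if h : j.val < 4 then eA lphi ly c2 ⟨j.val, h⟩ s else pf (A j) s

/-- derivative -/
noncomputable def iAd (ly : Fin 4 → List ℤ) (c2 : ℝ) (A : Fin 16 → List ℤ) (j : Fin 16) (s : ℝ) : ℝ :=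
  if h : j.val < 4 then eAd lphi ly c2 ⟨j.val, h⟩ s else pf (pder (A j)) s

/-- radial functions -/
noncomputable def iD (lp ly : Fin 4 → List ℤ) (c2 : ℝ) (Z : Fin 16 → List ℤ) (j : Fin 16) (s : ℝ) : ℝ :=
  if h : j.val < 4 then eD lphi lp ly c2 ⟨j.val, h⟩ s else pf (Z j) s

/-- derivative -/
noncomputable def iDd (lp ly : Fin 4 → List ℤ) (c2 : ℝ) (Z : Fin 16 → List ℤ) (j : Fin 16) (s : ℝ) : ℝ :=
  if h : j.val < 4 then eDd lphi lp ly c2 ⟨j.val, h⟩ s else pf (pder (Z j)) s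

/-- reduced entries as functions of `r` -/
noncomputable def jT (E : Fin 16 → ℝ → ℝ) (X A Z : Fin 16 → List ℤ) (j : Fin 16) (r : ℝ) : ℝ :=
  if j.val < 4 then 0 else r ^ kj j * ziT (fQj j) (E j) (kj j) (X j) (A j) (Z j) (r ^ 2)

/-- reduced entries -/
noncomputable def jR (lp ly : Fin 4 → List ℤ) (X A Z : Fin 16 → List ℤ) (j : Fin 16) (r : ℝ) : ℝ :=
  if h : j.val < 4 then cR lphi lp ly ⟨j.val, h⟩ r else ziR (kj j) (X j) (A j) (Z j) r

/-- reduced entries -/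
noncomputable def jS (lp ly lh : Fin 4 → List ℤ) (c2 : ℝ) (X A : Fin 16 → List ℤ) (j : Fin 16) (r : ℝ) : ℝ :=
  if h : j.val < 4 then cS lphi lp ly lh c2 ⟨j.val, h⟩ r else ziS (kj j) (X j) (A j) r

/-- reduced entries -/
noncomputable def jX (lp : Fin 4 → List ℤ) (X : Fin 16 → List ℤ) (j : Fin 16) (r : ℝ) : ℝ :=
  if h : j.val < 4 then cX lp ⟨j.val, h⟩ r else r ^ kj j * pf (X j) (r ^ 2)

/-- `0` for the entries removed, `1, 2, 3` for the entries `K 21, K 22, K 23`, `4` else -/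
def kty : Fin 33 → ℕ :=
  ![0, 0, 0, 4, 4, 4, 4, 4, 4, 0, 0, 0, 4, 4, 4, 4, 4, 4, 4, 4, 4, 1, 2, 3, 4, 4, 4, 4, 4, 4, 4, 4, 4]

/-- reduced entries -/
noncomputable def jK (lp ly lh : Fin 4 → List ℤ) (c2 : ℝ) (K : Fin 33 → List ℤ) (i : Fin 33) (r : ℝ) : ℝ :=
  if kty i = 0 then 0 else if kty i = 1 then cK lphi lp ly lh c2 1 r
    else if kty i = 2 then cK lphi lp ly lh c2 2 r else if kty i = 3 then cK lphi lp ly lh c2 3 r
    else r ^ kpar i * pf (K i) (r ^ 2)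

/-- models -/
def kT (tE : Fin 16 → TM) (X A Z : Fin 16 → List ℤ) (j : Fin 16) : TM :=
  if j.val < 4 then ⟨[], 0⟩ else lft (kj j) (tiT (tQ j) (tE j) (kj j) (X j) (A j) (Z j))

/-- models -/
def kR (lp ly : Fin 4 → List ℤ) (X A Z : Fin 16 → List ℤ) (j : Fin 16) : TM :=
  if h : j.val < 4 then (xR lphi lp ly ⟨j.val, h⟩).tm DD 36 envI else tiR (kj j) (X j) (A j) (Z j)

/-- models -/
def kS (lp ly lh : Fin 4 → List ℤ) (c2 : ℤ) (X A : Fin 16 → List ℤ) (j : Fin 16) : TM :=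
  if h : j.val < 4 then (xS lphi lp ly lh c2 ⟨j.val, h⟩).tm DD 36 envI else tiS (kj j) (X j) (A j)

/-- models -/
def kX (lp : Fin 4 → List ℤ) (X : Fin 16 → List ℤ) (j : Fin 16) : TM :=
  if h : j.val < 4 then (xX lp ⟨j.val, h⟩).tm DD 36 envI else lft (kj j) (po (X j))

/-- models -/
def kK (lp ly lh : Fin 4 → List ℤ) (c2 : ℤ) (K : Fin 33 → List ℤ) (i : Fin 33) : TM :=
  if kty i = 0 then ⟨[], 0⟩ else if kty i = 1 then (xK lphi lp ly lh c2 1).tm DD 36 envI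
    else if kty i = 2 then (xK lphi lp ly lh c2 2).tm DD 36 envI
    else if kty i = 3 then (xK lphi lp ly lh c2 3).tm DD 36 envI
    else lft (kpar i) (po (K i))

theorem ok_kT (tE : Fin 16 → TM) (E : Fin 16 → ℝ → ℝ) (hE : ∀ j, (tE j).ok DD (E j))
    (X A Z : Fin 16 → List ℤ) (j : Fin 16) : (kT tE X A Z j).ok DD (jT E X A Z j) := by
  unfold kT jT
  by_cases h : j.val < 4
  · simp only [h, if_true]
    exact ok_zero DD
  · simp only [h, if_false]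
    exact ok_lft DD (kj j) _ _ (ok_tiT (tQ j) (tE j) (fQj j) (E j) (ok_tQ j) (hE j) (kj j) (X j) (A j) (Z j))

theorem ok_kR (lp ly : Fin 4 → List ℤ) (X A Z : Fin 16 → List ℤ) (j : Fin 16) :
    (kR lp ly X A Z j).ok DD (jR lp ly X A Z j) := by
  unfold kR jR
  by_cases h : j.val < 4
  · simp only [h, dite_true]
    exact TM.ok_congr _ _ _ _ (Ex.ok DD 36 DD_pos envI fI envI_ok _) fun r _ _ => xR_ev lphi lp ly _ r
  · simp only [h, dite_false]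
    exact ok_tiR _ _ _ _

theorem ok_kS (lp ly lh : Fin 4 → List ℤ) (c2 : ℤ) (X A : Fin 16 → List ℤ) (j : Fin 16) :
    (kS lp ly lh c2 X A j).ok DD (jS lp ly lh (c2 / 1000000) X A j) := by
  unfold kS jS
  by_cases h : j.val < 4
  · simp only [h, dite_true]
    exact TM.ok_congr _ _ _ _ (Ex.ok DD 36 DD_pos envI fI envI_ok _) fun r _ _ => xS_ev lphi lp ly lh c2 _ r
  · simp only [h, dite_false]
    exact ok_tiS _ _ _

theorem ok_kX (lp : Fin 4 → List ℤ) (X : Fin 16 → List ℤ) (j : Fin 16) : (kX lp X j).ok DD (jX lp X j) := by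
  unfold kX jX
  by_cases h : j.val < 4
  · simp only [h, dite_true]
    exact TM.ok_congr _ _ _ _ (Ex.ok DD 36 DD_pos envI fI envI_ok _) fun r _ _ => xX_ev lp _ r
  · simp only [h, dite_false]
    exact ok_lft DD (kj j) _ _ (ok_po (X j))

theorem ok_kK (lp ly lh : Fin 4 → List ℤ) (c2 : ℤ) (K : Fin 33 → List ℤ) (i : Fin 33) :
    (kK lp ly lh c2 K i).ok DD (jK lp ly lh (c2 / 1000000) K i) := by
  unfold kK jK
  by_cases h0 : kty i = 0
  · rw [if_pos h0]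
    simp only [if_pos h0]
    exact ok_zero DD
  · rw [if_neg h0]
    simp only [if_neg h0]
    by_cases h1 : kty i = 1
    · rw [if_pos h1]
      simp only [if_pos h1]
      exact TM.ok_congr _ _ _ _ (Ex.ok DD 36 DD_pos envI fI envI_ok _) fun r _ _ => xK_ev lphi lp ly lh c2 1 r
    · rw [if_neg h1]
      simp only [if_neg h1]
      by_cases h2 : kty i = 2
      · rw [if_pos h2]
        simp only [if_pos h2]
        exact TM.ok_congr _ _ _ _ (Ex.ok DD 36 DD_pos envI fI envI_ok _) fun r _ _ => xK_ev lphi lp ly lh c2 2 r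
      · rw [if_neg h2]
        simp only [if_neg h2]
        by_cases h3 : kty i = 3
        · rw [if_pos h3]
          simp only [if_pos h3]
          exact TM.ok_congr _ _ _ _ (Ex.ok DD 36 DD_pos envI fI envI_ok _) fun r _ _ => xK_ev lphi lp ly lh c2 3 r
        · rw [if_neg h3]
          simp only [if_neg h3]
          exact ok_lft DD (kpar i) _ _ (ok_po (K i))

/-- check, even block -/
def zii1 (tE : Fin 16 → TM) (lp ly lh : Fin 4 → List ℤ) (c2 : ℤ) (X A Z : Fin 16 → List ℤ) (K : Fin 33 → List ℤ)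
    (n : ℕ) (a b c : ℤ) : Bool :=
  mchk D9 n n 1 (envL (fun j => (kT tE X A Z j).loc 1000000 n a b c) (fun j => (kR lp ly X A Z j).loc 1000000 n a b c)
    (fun j => (kS lp ly lh c2 X A j).loc 1000000 n a b c) (fun j => (kX lp X j).loc 1000000 n a b c)
    (fun i => (kK lp ly lh c2 K i).loc 1000000 n a b c)) (X1 aT aR aS aX aK).tail

/-- check, odd block -/
def zii2 (tE : Fin 16 → TM) (lp ly lh : Fin 4 → List ℤ) (c2 : ℤ) (X A Z : Fin 16 → List ℤ) (K : Fin 33 → List ℤ)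
    (n : ℕ) (a b c : ℤ) : Bool :=
  mchk D9 n n 1 (envL (fun j => (kT tE X A Z j).loc 1000000 n a b c) (fun j => (kR lp ly X A Z j).loc 1000000 n a b c)
    (fun j => (kS lp ly lh c2 X A j).loc 1000000 n a b c) (fun j => (kX lp X j).loc 1000000 n a b c)
    (fun i => (kK lp ly lh c2 K i).loc 1000000 n a b c)) (X2 aT aR aS aX aK)

theorem iX_lt (lp : Fin 4 → List ℤ) (X : Fin 16 → List ℤ) (s : ℝ) :
    iX lp X 0 s = eX lp 0 s ∧ iX lp X 1 s = eX lp 1 s ∧ iX lp X 2 s = eX lp 2 s ∧ iX lp X 3 s = eX lp 3 s :=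
  ⟨dif_pos (by decide), dif_pos (by decide), dif_pos (by decide), dif_pos (by decide)⟩

theorem iXd_lt (lp : Fin 4 → List ℤ) (X : Fin 16 → List ℤ) (s : ℝ) :
    iXd lp X 0 s = eXd lp 0 s ∧ iXd lp X 1 s = eXd lp 1 s ∧ iXd lp X 2 s = eXd lp 2 s ∧ iXd lp X 3 s = eXd lp 3 s :=
  ⟨dif_pos (by decide), dif_pos (by decide), dif_pos (by decide), dif_pos (by decide)⟩

theorem iA_lt (ly : Fin 4 → List ℤ) (c2 : ℝ) (A : Fin 16 → List ℤ) (s : ℝ) :
    iA ly c2 A 0 s = eA lphi ly c2 0 s ∧ iA ly c2 A 1 s = eA lphi ly c2 1 s ∧ iA ly c2 A 2 s = eA lphi ly c2 2 s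
      ∧ iA ly c2 A 3 s = eA lphi ly c2 3 s :=
  ⟨dif_pos (by decide), dif_pos (by decide), dif_pos (by decide), dif_pos (by decide)⟩

theorem iAd_lt (ly : Fin 4 → List ℤ) (c2 : ℝ) (A : Fin 16 → List ℤ) (s : ℝ) :
    iAd ly c2 A 0 s = eAd lphi ly c2 0 s ∧ iAd ly c2 A 1 s = eAd lphi ly c2 1 s
      ∧ iAd ly c2 A 2 s = eAd lphi ly c2 2 s ∧ iAd ly c2 A 3 s = eAd lphi ly c2 3 s :=
  ⟨dif_pos (by decide), dif_pos (by decide), dif_pos (by decide), dif_pos (by decide)⟩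

theorem iD_lt (lp ly : Fin 4 → List ℤ) (c2 : ℝ) (Z : Fin 16 → List ℤ) (s : ℝ) :
    iD lp ly c2 Z 0 s = eD lphi lp ly c2 0 s ∧ iD lp ly c2 Z 1 s = eD lphi lp ly c2 1 s
      ∧ iD lp ly c2 Z 2 s = eD lphi lp ly c2 2 s ∧ iD lp ly c2 Z 3 s = eD lphi lp ly c2 3 s :=
  ⟨dif_pos (by decide), dif_pos (by decide), dif_pos (by decide), dif_pos (by decide)⟩

theorem iDd_lt (lp ly : Fin 4 → List ℤ) (c2 : ℝ) (Z : Fin 16 → List ℤ) (s : ℝ) :
    iDd lp ly c2 Z 0 s = eDd lphi lp ly c2 0 s ∧ iDd lp ly c2 Z 1 s = eDd lphi lp ly c2 1 s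
      ∧ iDd lp ly c2 Z 2 s = eDd lphi lp ly c2 2 s ∧ iDd lp ly c2 Z 3 s = eDd lphi lp ly c2 3 s :=
  ⟨dif_pos (by decide), dif_pos (by decide), dif_pos (by decide), dif_pos (by decide)⟩

theorem jX_lt (lp : Fin 4 → List ℤ) (X : Fin 16 → List ℤ) (s : ℝ) :
    jX lp X 0 s = cX lp 0 s ∧ jX lp X 1 s = cX lp 1 s ∧ jX lp X 2 s = cX lp 2 s ∧ jX lp X 3 s = cX lp 3 s :=
  ⟨dif_pos (by decide), dif_pos (by decide), dif_pos (by decide), dif_pos (by decide)⟩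

theorem jR_lt (lp ly : Fin 4 → List ℤ) (X A Z : Fin 16 → List ℤ) (s : ℝ) :
    jR lp ly X A Z 1 s = cR lphi lp ly 1 s ∧ jR lp ly X A Z 2 s = cR lphi lp ly 2 s
      ∧ jR lp ly X A Z 3 s = cR lphi lp ly 3 s :=
  ⟨dif_pos (by decide), dif_pos (by decide), dif_pos (by decide)⟩

theorem jS_lt (lp ly lh : Fin 4 → List ℤ) (c2 : ℝ) (X A : Fin 16 → List ℤ) (s : ℝ) :
    jS lp ly lh c2 X A 1 s = cS lphi lp ly lh c2 1 s ∧ jS lp ly lh c2 X A 2 s = cS lphi lp ly lh c2 2 s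
      ∧ jS lp ly lh c2 X A 3 s = cS lphi lp ly lh c2 3 s :=
  ⟨dif_pos (by decide), dif_pos (by decide), dif_pos (by decide)⟩

theorem jK_lt (lp ly lh : Fin 4 → List ℤ) (c2 : ℝ) (K : Fin 33 → List ℤ) (s : ℝ) :
    jK lp ly lh c2 K 21 s = cK lphi lp ly lh c2 1 s ∧ jK lp ly lh c2 K 22 s = cK lphi lp ly lh c2 2 s
      ∧ jK lp ly lh c2 K 23 s = cK lphi lp ly lh c2 3 s := by
  refine ⟨?_, ?_, ?_⟩
  · unfold jK
    rw [if_neg (by decide), if_pos (by decide)]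
  · unfold jK
    rw [if_neg (by decide), if_neg (by decide), if_pos (by decide)]
  · unfold jK
    rw [if_neg (by decide), if_neg (by decide), if_neg (by decide), if_pos (by decide)]

theorem jK_zero (lp ly lh : Fin 4 → List ℤ) (c2 : ℝ) (K : Fin 33 → List ℤ) (i : Fin 33) (hi : kty i = 0) (s : ℝ) :
    jK lp ly lh c2 K i s = 0 := by
  unfold jK
  rw [if_pos hi]

theorem zii_pos (tE : Fin 16 → TM) (E : Fin 16 → ℝ → ℝ) (hE : ∀ j, (tE j).ok DD (E j))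
    (lp ly lh : Fin 4 → List ℤ) (c2 : ℤ)
    (hE0 : ∀ (j : Fin 4) (s : ℝ), E (Fin.castLE (by norm_num) j) s = ![0, 0, -(gc s * (c2 / 1000000)), 0] j)
    (X A Z : Fin 16 → List ℤ) (K : Fin 33 → List ℤ) (n : ℕ) (hn : 0 < n)
    (a b c : ℤ) (ha : 0 ≤ a) (hb : 0 < b) (hc : 0 < c) (habc : a + b ≤ c)
    (h1 : zii1 tE lp ly lh c2 X A Z K n a b c = true) (h2 : zii2 tE lp ly lh c2 X A Z K n a b c = true)
    (r : ℝ) (hr0 : 0 < r) (hr3 : r < 1) (hr1 : (a : ℝ) ≤ c * r) (hr2 : c * r ≤ (a : ℝ) + b)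
    (a' ξ η σ : ℝ) (α p q : ℂ) :
    0 ≤ floc (fun j => (fQj j (r ^ 2) + E j (r ^ 2) - bz 2 * iX lp X j (r ^ 2)
            - (2 * kj j * iAd ly (c2 / 1000000) A j (r ^ 2) + 2 * r ^ 2 * iDd lp ly (c2 / 1000000) Z j (r ^ 2)
              + (kj j + 2) * iD lp ly (c2 / 1000000) Z j (r ^ 2))) * r ^ kj j)
          (fun j => (kj j * iA ly (c2 / 1000000) A j (r ^ 2) + r ^ 2 * iD lp ly (c2 / 1000000) Z j (r ^ 2)
            - r ^ 2 * iXd lp X j (r ^ 2) - 1 / 2 * kj j * iX lp X j (r ^ 2)) * r ^ kj j / r)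
          (fun j => kj j * (iA ly (c2 / 1000000) A j (r ^ 2) - 1 / 2 * iX lp X j (r ^ 2)) * r ^ kj j / r)
          (fun j => iX lp X j (r ^ 2) * r ^ kj j) a' ξ η σ α p q := by
  have hbr : (0 : ℝ) < b := by exact_mod_cast hb
  have hcr : (0 : ℝ) < c := by exact_mod_cast hc
  have hDq : DD = D9 * 1000000 := by norm_num [DD, D9]
  have hD9 : 0 < D9 := by norm_num [D9]
  have hrs : (1 - r ^ 2 : ℝ) ≠ 0 := by nlinarith
  have hw : (1 / (1 - r ^ 2) : ℝ) ≠ 0 := one_div_ne_zero hrs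
  obtain ⟨c', hc'⟩ : ∃ c' : ℝ, c' = (c2 : ℝ) / 1000000 := ⟨_, rfl⟩
  have hT := fun j => eT_rel lphi lp ly c' j r hr0 hr3
  have hR := fun j hj => cR_rel lphi lp ly c' r hr0 hr3 j hj
  have hR0 := cR0_rel lphi lp ly c' r hr0
  have hS := fun j hj => cS_rel lphi lp ly lh c' r hr0 hr3 j hj
  obtain ⟨hX0, hX1, hX2, hX3⟩ := cX_rel lp r hr0 hr3
  have e : ((a : ℝ) + b * ((c * r - a) / b)) / c = r := by
    field_simp
    ring
  have okT := fun j => TM.ok_loc DD D9 1000000 n hDq (by norm_num) a b c hc ha hb.le habc _ _ (ok_kT tE E hE X A Z j)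
  have okR := fun j => TM.ok_loc DD D9 1000000 n hDq (by norm_num) a b c hc ha hb.le habc _ _ (ok_kR lp ly X A Z j)
  have okS := fun j => TM.ok_loc DD D9 1000000 n hDq (by norm_num) a b c hc ha hb.le habc _ _ (ok_kS lp ly lh c2 X A j)
  have okX := fun j => TM.ok_loc DD D9 1000000 n hDq (by norm_num) a b c hc ha hb.le habc _ _ (ok_kX lp X j)
  have okK := fun i => TM.ok_loc DD D9 1000000 n hDq (by norm_num) a b c hc ha hb.le habc _ _ (ok_kK lp ly lh c2 K i)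
  have t0 : 0 ≤ (c * r - a) / (b : ℝ) := div_nonneg (by linarith) hbr.le
  have t1 : (c * r - a) / (b : ℝ) ≤ 1 := by rw [div_le_one hbr]; linarith
  rw [zii1] at h1
  rw [zii2] at h2
  refine rg_pos_red D9 n n 1 hD9 hn Nat.one_pos
    (fun j τ => jT E X A Z j (((a : ℝ) + b * τ) / c))
    (fun j τ => jR lp ly X A Z j (((a : ℝ) + b * τ) / c))
    (fun j τ => jS lp ly lh (c2 / 1000000) X A j (((a : ℝ) + b * τ) / c))
    (fun j τ => jX lp X j (((a : ℝ) + b * τ) / c))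
    (fun i τ => jK lp ly lh (c2 / 1000000) K i (((a : ℝ) + b * τ) / c))
    _ _ _ _ _ okT okR okS okX okK h1 h2 ((c * r - a) / b) t0 t1 _ _ _ _ (2 * r * g1 (r ^ 2)) (1 / (1 - r ^ 2))
    a' ξ η σ α p q hw ?_ ?_ ?_ ?_ ?_ ?_ ?_ ?_ ?_ ?_ ?_ ?_ ?_ ?_ ?_ ?_ ?_ ?_ ?_ ?_
  all_goals try simp only [e]
  all_goals try simp only [(iX_lt lp X (r ^ 2)).1, (iX_lt lp X (r ^ 2)).2.1, (iX_lt lp X (r ^ 2)).2.2.1,
    (iX_lt lp X (r ^ 2)).2.2.2, (iXd_lt lp X (r ^ 2)).1, (iXd_lt lp X (r ^ 2)).2.1, (iXd_lt lp X (r ^ 2)).2.2.1,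
    (iXd_lt lp X (r ^ 2)).2.2.2, (iA_lt ly (c2 / 1000000) A (r ^ 2)).1, (iA_lt ly (c2 / 1000000) A (r ^ 2)).2.1,
    (iA_lt ly (c2 / 1000000) A (r ^ 2)).2.2.1, (iA_lt ly (c2 / 1000000) A (r ^ 2)).2.2.2,
    (iAd_lt ly (c2 / 1000000) A (r ^ 2)).1, (iAd_lt ly (c2 / 1000000) A (r ^ 2)).2.1,
    (iAd_lt ly (c2 / 1000000) A (r ^ 2)).2.2.1, (iAd_lt ly (c2 / 1000000) A (r ^ 2)).2.2.2,
    (iD_lt lp ly (c2 / 1000000) Z (r ^ 2)).1, (iD_lt lp ly (c2 / 1000000) Z (r ^ 2)).2.1,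
    (iD_lt lp ly (c2 / 1000000) Z (r ^ 2)).2.2.1, (iD_lt lp ly (c2 / 1000000) Z (r ^ 2)).2.2.2,
    (iDd_lt lp ly (c2 / 1000000) Z (r ^ 2)).1, (iDd_lt lp ly (c2 / 1000000) Z (r ^ 2)).2.1,
    (iDd_lt lp ly (c2 / 1000000) Z (r ^ 2)).2.2.1, (iDd_lt lp ly (c2 / 1000000) Z (r ^ 2)).2.2.2,
    (jX_lt lp X r).1, (jX_lt lp X r).2.1, (jX_lt lp X r).2.2.1, (jX_lt lp X r).2.2.2,
    (jR_lt lp ly X A Z r).1, (jR_lt lp ly X A Z r).2.1, (jR_lt lp ly X A Z r).2.2,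
    (jS_lt lp ly lh (c2 / 1000000) X A r).1, (jS_lt lp ly lh (c2 / 1000000) X A r).2.1,
    (jS_lt lp ly lh (c2 / 1000000) X A r).2.2,
    (jK_lt lp ly lh (c2 / 1000000) K r).1, (jK_lt lp ly lh (c2 / 1000000) K r).2.1,
    (jK_lt lp ly lh (c2 / 1000000) K r).2.2]
  · have h := hT 0
    rw [← hc', show E 0 (r ^ 2) = ![0, 0, -(gc (r ^ 2) * c'), 0] 0 from by rw [hc']; exact hE0 0 (r ^ 2)]
    exact h
  · rw [← hc']
    exact hR0
  · have h := hT 1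
    rw [← hc', show E 1 (r ^ 2) = ![0, 0, -(gc (r ^ 2) * c'), 0] 1 from by rw [hc']; exact hE0 1 (r ^ 2)]
    exact h
  · have h := hT 2
    rw [← hc', show E 2 (r ^ 2) = ![0, 0, -(gc (r ^ 2) * c'), 0] 2 from by rw [hc']; exact hE0 2 (r ^ 2)]
    exact h
  · have h := hT 3
    rw [← hc', show E 3 (r ^ 2) = ![0, 0, -(gc (r ^ 2) * c'), 0] 3 from by rw [hc']; exact hE0 3 (r ^ 2)]
    exact h
  · exact hX0
  · exact hX1
  · exact hX2
  · exact hX3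
  · rw [← hc']
    exact hR 1 (by decide)
  · rw [← hc']
    exact hR 2 (by decide)
  · rw [← hc']
    exact hR 3 (by decide)
  · rw [← hc']
    exact hS 1 (by decide)
  · rw [← hc']
    exact hS 2 (by decide)
  · rw [← hc']
    exact hS 3 (by decide)
  · exact ⟨jK_zero _ _ _ _ _ 0 (by decide) _, jK_zero _ _ _ _ _ 1 (by decide) _, jK_zero _ _ _ _ _ 2 (by decide) _,
      jK_zero _ _ _ _ _ 9 (by decide) _, jK_zero _ _ _ _ _ 10 (by decide) _, jK_zero _ _ _ _ _ 11 (by decide) _⟩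
  · intro j hj
    have hj' : ¬ j.val < 4 := by
      have : (4 : Fin 16).val ≤ j.val := hj
      simpa using this
    simp only [jT, iX, iXd, iA, iAd, iD, iDd, hj', if_false, dite_false]
    exact ziT_eq _ _ _ _ _ _ _
  · intro j hj
    have hj' : ¬ j.val < 4 := by
      have : (4 : Fin 16).val ≤ j.val := hj
      simpa using this
    simp only [jR, iX, iXd, iA, iAd, iD, iDd, hj', dite_false]
    exact ziR_eq _ _ _ _ _ hr0
  · intro j hj
    have hj' : ¬ j.val < 4 := by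
      have : (4 : Fin 16).val ≤ j.val := hj
      simpa using this
    simp only [jS, iX, iXd, iA, iAd, iD, iDd, hj', dite_false]
    exact ziS_eq _ _ _ _ hr0
  · intro j hj
    have hj' : ¬ j.val < 4 := by
      have : (4 : Fin 16).val ≤ j.val := hj
      simpa using this
    simp only [jX, iX, hj', dite_false]
    exact mul_comm _ _

end Pool.Agent.H23.GP
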