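import Pool.Agent.H23.GP.LipI
import Pool.Agent.H23.GP.RegO
import Pool.Agent.H23.GP.ZiI
import Pool.Agent.H94.GP.LpB

/-!
# RgX: regularity of the glued radial functions
-/

set_option autoImplicit false

open Pool.Agent.H94.ER Pool.Agent.H94.SP Pool.Agent.H94.GP

namespace Pool.Agent.H23.GP

theorem reg_X (f : ℝ → ℝ) (f1 : ℝ) (hf : ∀ s, s ≤ 1 → ContDiffAt ℝ 1 f s) (hd : HasDerivAt f f1 1) (l : List ℤ) :
    ContDiff ℝ 1 (pw f (gX (f 1) (9 / 4 * f1 + 2 * f 1) l) (13 / 4)) := by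
  refine pw_contDiff _ _ _ (by norm_num) hf (fun s _ _ => (contDiff_gX _ _ l).contDiffAt) (gX_one _ _ l).symm ?_
    (gX_S _ _ l) ?_
  · rw [hd.deriv, (gX_hasDerivAt _ _ l 1).deriv, gXd_one]
    ring
  · rw [(gX_hasDerivAt _ _ l (13 / 4)).deriv, gXd_S]

theorem reg_A (f : ℝ → ℝ) (hf : ∀ s, 0 ≤ s → s ≤ 1 → ContDiffAt ℝ 1 f s) (l : List ℤ) :
    LipR (pw f (oA (f 1) l) (13 / 4)) :=
  pw_lip _ _ _ (by norm_num) hf (fun s _ _ => (contDiff_oA _ l).contDiffAt) (oA_one _ l).symm (oA_S _ l)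

theorem reg_A2 (f : ℝ → ℝ)
    (hf : ∃ K : ℝ, 0 ≤ K ∧ ∀ s t, 0 ≤ s → s ≤ 1 → 0 ≤ t → t ≤ 1 → |f s - f t| ≤ K * |s - t|) (l : List ℤ) :
    LipR (pw f (oA (f 1) l) (13 / 4)) :=
  pw_lip2 _ _ _ (by norm_num) hf (fun s _ _ => (contDiff_oA _ l).contDiffAt) (oA_one _ l).symm (oA_S _ l)

theorem reg_pX (X l : List ℤ) : ContDiff ℝ 1 (pw (pf X) (gX (pf X 1) (9 / 4 * pf (pder X) 1 + 2 * pf X 1) l) (13 / 4)) :=
  reg_X (pf X) (pf (pder X) 1) (fun s _ => pf_ctd X s) (pf_hasDerivAt X 1) l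

theorem reg_pA (A l : List ℤ) : LipR (pw (pf A) (oA (pf A 1) l) (13 / 4)) := reg_A (pf A) (fun s _ _ => pf_ctd A s) l

theorem reg_iX (lp : Fin 4 → List ℤ) (X oX : Fin 16 → List ℤ) (j : Fin 16) :
    ContDiff ℝ 1 (pw (iX lp X j) (gX (iX lp X j 1) (9 / 4 * iXd lp X j 1 + 2 * iX lp X j 1) (oX j)) (13 / 4)) := by
  refine reg_X (iX lp X j) (iXd lp X j 1) (fun s hs => ?_) ?_ (oX j)
  · by_cases h : j.val < 4
    · have e : iX lp X j = eX lp ⟨j.val, h⟩ := by
        funext t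
        simp only [iX, h, dite_true]
      rw [e]
      exact eX_ctd lp _ s hs
    · have e : iX lp X j = pf (X j) := by
        funext t
        simp only [iX, h, dite_false]
      rw [e]
      exact pf_ctd _ s
  · by_cases h : j.val < 4
    · have e : iX lp X j = eX lp ⟨j.val, h⟩ := by
        funext t
        simp only [iX, h, dite_true]
      rw [e]
      simp only [iXd, h, dite_true]
      exact eX_hasDerivAt lp _ 1 le_rfl
    · have e : iX lp X j = pf (X j) := by
        funext t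
        simp only [iX, h, dite_false]
      rw [e]
      simp only [iXd, h, dite_false]
      exact pf_hasDerivAt _ 1

theorem reg_iA (ly : Fin 4 → List ℤ) (c2 : ℝ) (A oA' : Fin 16 → List ℤ) (j : Fin 16) :
    LipR (pw (iA ly c2 A j) (oA (iA ly c2 A j 1) (oA' j)) (13 / 4)) := by
  refine reg_A (iA ly c2 A j) (fun s h0 h1 => ?_) (oA' j)
  by_cases h : j.val < 4
  · have e : iA ly c2 A j = eA lphi ly c2 ⟨j.val, h⟩ := by
      funext t
      simp only [iA, h, dite_true]
    rw [e]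
    exact eA_ctd lphi ly c2 _ s h0 h1
  · have e : iA ly c2 A j = pf (A j) := by
      funext t
      simp only [iA, h, dite_false]
    rw [e]
    exact pf_ctd _ s

theorem reg_iD (lp ly : Fin 4 → List ℤ) (c2 : ℝ) (Z oZ : Fin 16 → List ℤ) (j : Fin 16) :
    LipR (pw (iD lp ly c2 Z j) (oA (iD lp ly c2 Z j 1) (oZ j)) (13 / 4)) := by
  by_cases h : j.val < 4
  · have e : iD lp ly c2 Z j = eD lphi lp ly c2 ⟨j.val, h⟩ := by
      funext t
      simp only [iD, h, dite_true]
    by_cases hj : (⟨j.val, h⟩ : Fin 4) = 0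
    · refine reg_A2 _ ?_ (oZ j)
      rw [e, hj]
      obtain ⟨K, hK0, hK⟩ := D0_lip
      exact ⟨K, hK0, fun s t a b c d => hK s t a b c d⟩
    · refine reg_A _ (fun s h0 h1 => ?_) (oZ j)
      rw [e]
      exact eD_ctd lphi lp ly c2 _ hj s h0 h1
  · refine reg_A _ (fun s h0 h1 => ?_) (oZ j)
    have e : iD lp ly c2 Z j = pf (Z j) := by
      funext t
      simp only [iD, h, dite_false]
    rw [e]
    exact pf_ctd _ s

/-- derivatives inside, region I -/
theorem der_iX (lp : Fin 4 → List ℤ) (X : Fin 16 → List ℤ) (j : Fin 16) (s : ℝ) (h1 : s < 1) :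
    HasDerivAt (iX lp X j) (iXd lp X j s) s := by
  by_cases h : j.val < 4
  · have e : iX lp X j = eX lp ⟨j.val, h⟩ := by
      funext t
      simp only [iX, h, dite_true]
    rw [e]
    simp only [iXd, h, dite_true]
    exact eX_hasDerivAt lp _ s h1.le
  · have e : iX lp X j = pf (X j) := by
      funext t
      simp only [iX, h, dite_false]
    rw [e]
    simp only [iXd, h, dite_false]
    exact pf_hasDerivAt _ s

theorem der_iA (ly : Fin 4 → List ℤ) (c2 : ℝ) (A : Fin 16 → List ℤ) (j : Fin 16) (s : ℝ) (h0 : 0 < s) (h1 : s < 1) :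
    HasDerivAt (iA ly c2 A j) (iAd ly c2 A j s) s := by
  by_cases h : j.val < 4
  · have e : iA ly c2 A j = eA lphi ly c2 ⟨j.val, h⟩ := by
      funext t
      simp only [iA, h, dite_true]
    rw [e]
    simp only [iAd, h, dite_true]
    exact eA_hasDerivAt lphi ly c2 _ s h0 h1
  · have e : iA ly c2 A j = pf (A j) := by
      funext t
      simp only [iA, h, dite_false]
    rw [e]
    simp only [iAd, h, dite_false]
    exact pf_hasDerivAt _ s

theorem der_iD (lp ly : Fin 4 → List ℤ) (c2 : ℝ) (Z : Fin 16 → List ℤ) (j : Fin 16) (s : ℝ) (h0 : 0 < s)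
    (h1 : s < 1) : HasDerivAt (iD lp ly c2 Z j) (iDd lp ly c2 Z j s) s := by
  by_cases h : j.val < 4
  · have e : iD lp ly c2 Z j = eD lphi lp ly c2 ⟨j.val, h⟩ := by
      funext t
      simp only [iD, h, dite_true]
    rw [e]
    simp only [iDd, h, dite_true]
    exact eD_hasDerivAt lphi lp ly c2 _ s h0 h1
  · have e : iD lp ly c2 Z j = pf (Z j) := by
      funext t
      simp only [iD, h, dite_false]
    rw [e]
    simp only [iDd, h, dite_false]
    exact pf_hasDerivAt _ s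

/-- values at `s = 1` -/
theorem iX_one (lp : Fin 4 → List ℤ) (X : Fin 16 → List ℤ) (j : Fin 16) :
    iX lp X j 1 = if j.val < 4 then 0 else pf (X j) 1 := by
  by_cases h : j.val < 4
  · simp only [iX, h, dite_true, if_true, eX_one]
  · simp only [iX, h, dite_false, if_false]

end Pool.Agent.H23.GP
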