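import Pool.Agent.H23.GP.DatI

/-!
# RunD: models of the terms E, region I
-/

set_option autoImplicit false

open Pool.Agent.H94.ER Pool.Agent.H94.SP Pool.Agent.H94.GP

namespace Pool.Agent.H23.GP

/-- models of the terms `E` -/
def tEI : Fin 16 → TM := tE 100 4705752 7897026 4935704 3846704 67999 1607 (-2442) 0 0

/-- the terms `E` -/
noncomputable def fEI : Fin 16 → ℝ → ℝ := fE 100 4705752 7897026 4935704 3846704 67999 1607 (-2442) 0 0

theorem ok_tEI (j : Fin 16) : (tEI j).ok DD (fEI j) := ok_tE _ _ _ _ _ _ _ _ _ _ j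

end Pool.Agent.H23.GP
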