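import Pool.Agent.H23.GP.ZoJ
import Pool.Agent.H23.GP.RunD
import Pool.Agent.H23.GP.RgX

/-!
# DatO: data of region I outside the disk, models of the boundary constants
-/

set_option autoImplicit false

open Pool.Agent.H94.ER Pool.Agent.H94.SP Pool.Agent.H94.GP

namespace Pool.Agent.H23.GP

/-- data -/
def dOX : Fin 16 → List ℤ :=
  ![[3694783, 545633, -1039245],
    [9348942, -11082587, 2687559],
    [124445, 1290748, -1866399],
    [-2339128, 1324346, -586748],
    [22033742, -24595919, 21038290],
    [440929, -3561134, 1563945],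
    [145795, 718712, -2557529],
    [-67971, -14022, -481799],
    [-653936, -5584911, 2092333],
    [844512, -535405, -194888],
    [23466, -21590, 472405],
    [-89355, 316060, -237242],
    [-896229, 1160884, -548727],
    [-438639, 816185, -473705],
    [1111469, -384402, 1487690],
    [355758, -411391, 236784]]

/-- data -/
def dOA : Fin 16 → List ℤ :=
  ![[],
    [4106767, -12815091, 12009295],
    [1681388, -692055, -2852777],
    [1621872, -891109, -368698],
    [],
    [-678084, -2080131, 2286014],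
    [-1664614, 1096590, 2228982],
    [194963, -806659, 292704],
    [6831882, 9507181, -15915672],
    [-210494, 87992, -110198],
    [],
    [31420, 38082, -86328],
    [3140, 1012771, -979436],
    [74788, -314654, 197075],
    [],
    [371, -49925, 16879]]

/-- data -/
def dOZ : Fin 16 → List ℤ :=
  ![[6580776, -10800851, 2965855],
    [6488472, -21382951, 7259646],
    [181608, -2600925, 3453778],
    [-9358610, 9839527, -2420130],
    [5809940, -17346417, -1283800],
    [5228088, -3769345, -555634],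
    [-269052, -1299418, 1130686],
    [1294206, -3571313, 2928418],
    [-10064084, 8347729, 1563251],
    [137141, -2257205, 2557077],
    [247303, -457712, 162166],
    [-163283, 177075, -60660],
    [-2614994, 1362233, 465680],
    [-291047, 1452885, -1057713],
    [3252660, -7783306, 4595426],
    [-359001, 1466531, -957037]]

/-- data -/
def dOK : Fin 33 → List ℤ :=
  ![[-12660991, 2951528, -9322822],
    [358919, 3695271, -3793731],
    [639695, 4902032, -4893670],
    [87944, -2531609, 1422672],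
    [-2383571, -2460882, 2394358],
    [198784, 1194946, -1011199],
    [-198712, 424230, 128389],
    [-211113, -766008, -708028],
    [130720, 99822, 176390],
    [-2697492, 23377877, -39575084],
    [-1909152, -2067950, 4485897],
    [705171, -16231537, 11968989],
    [3661276, 6391893, 14342563],
    [-336197, 3254187, -1899535],
    [847067, 4526281, 2257471],
    [546986, 1381025, -3165371],
    [-86003, 188215, 188199],
    [-176527, -838524, 1443082],
    [397493, 2685391, -98470],
    [26615, -994326, 1981255],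
    [445312, -747582, -2351270],
    [-333897, 4822378, -8218969],
    [488684, -890844, -156419],
    [-410463, 3228280, -4504334],
    [-609060, 10556471, -14077551],
    [69427, 866874, -2914607],
    [-185108, 1705080, -4832362],
    [42884, -367178, -480200],
    [19553, 242260, -426202],
    [-42121, 116607, 653254],
    [-108550, 1960408, -5707665],
    [99081, 57565, -307245],
    [-60814, 199079, 988651]]

/-- value of `X` at `s = 1` -/
noncomputable def bx (j : Fin 16) : ℝ := iX dlp dIX j 1
/-- `9/4 X' + 2 X` at `s = 1` -/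
noncomputable def bu (j : Fin 16) : ℝ := 9 / 4 * iXd dlp dIX j 1 + 2 * iX dlp dIX j 1
/-- value of `A` at `s = 1` -/
noncomputable def ba (j : Fin 16) : ℝ := iA dly (dc2 / 1000000) dIA j 1
/-- value of `D` at `s = 1` -/
noncomputable def bz' (j : Fin 16) : ℝ := iD dlp dly (dc2 / 1000000) dIZ j 1

/-- index in `Fin 4` -/
def j4 (j : Fin 16) : Fin 4 := if j = 1 then 1 else if j = 2 then 2 else 3

/-- model of `gc 1` -/
def tg1 : TM := ⟨[1000000000000000], 10000000⟩

/-- model -/
def mbx (j : Fin 16) : TM := if j.val < 4 then ⟨[], 0⟩ else kx0 (dIX j)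

/-- model -/
def mbu (j : Fin 16) : TM :=
  if j = 0 then ⟨[], 0⟩ else if j.val < 4 then ⟨[-4500000000 * (dlp (j4 j)).sum], 0⟩ else ku (dIX j)

/-- model -/
def mba (j : Fin 16) : TM :=
  if j = 0 then ⟨[], 0⟩ else if j = 1 then ⟨[-2000000000000000 - 3000000000 * (dly 1).sum], 0⟩
  else if j = 2 then (⟨[-720000000000000 - 6000000000 * (dly 2).sum], 0⟩ : TM).add (tg1.mul DD (cc dc2))
  else if j = 3 then ⟨[-240000000000000 - 2000000000 * (dly 3).sum], 0⟩ else kx0 (dIA j)

/-- model -/
def mbz (j : Fin 16) : TM :=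
  if j = 0 then ⟨[], 0⟩
  else if j = 1 then ⟨[4000000000000000 + 6000000000 * (dly 1).sum - 4000000000 * (dlp 1).sum], 0⟩
  else if j = 2 then (⟨[720000000000000 + 6000000000 * (dly 2).sum - 4000000000 * (dlp 2).sum], 0⟩ : TM).add
    ((tg1.mul DD (cc dc2)).smul (-1))
  else if j = 3 then ⟨[720000000000000 + 6000000000 * (dly 3).sum - 4000000000 * (dlp 3).sum], 0⟩
  else kx0 (dIZ j)

theorem ok_tg1 : tg1.ok DD (fun _ => gc 1) := by
  intro s _ _
  have h := H94.GP.ok_gc 1 (by norm_num) le_rfl
  simpa [tg1, H94.GP.tmgc, pev] using h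

theorem DatO_ge (j : Fin 16) (h : ¬ j.val < 4) : iX dlp dIX j 1 = pf (dIX j) 1 ∧ iXd dlp dIX j 1 = pf (pder (dIX j)) 1
    ∧ iA dly (dc2 / 1000000) dIA j 1 = pf (dIA j) 1 ∧ iD dlp dly (dc2 / 1000000) dIZ j 1 = pf (dIZ j) 1 := by
  simp only [iX, iXd, iA, iD, h, dite_false, and_self]

theorem DatO_ne (j : Fin 16) (h : ¬ j.val < 4) : j ≠ 0 ∧ j ≠ 1 ∧ j ≠ 2 ∧ j ≠ 3 := by
  refine ⟨?_, ?_, ?_, ?_⟩ <;> rintro rfl <;> exact h (by decide)

theorem DatO_f : pf lphi 1 = 9 / 50 := by
  simp [pf, lphi, pev]
  norm_num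

theorem ok_mbx (j : Fin 16) : (mbx j).ok DD (fun _ => bx j) := by
  unfold mbx bx
  by_cases h : j.val < 4
  · rw [if_pos h, iX_one, if_pos h]
    exact ok_zero DD
  · rw [if_neg h, (DatO_ge j h).1]
    exact ok_kx0 _

theorem ok_mbu (j : Fin 16) : (mbu j).ok DD (fun _ => bu j) := by
  unfold mbu bu
  by_cases h : j.val < 4
  · have h2 : j = 0 ∨ j = 1 ∨ j = 2 ∨ j = 3 := by omega
    rcases h2 with rfl | rfl | rfl | rfl
    · rw [if_pos rfl, (iX_lt dlp dIX 1).1, (iXd_lt dlp dIX 1).1, eX_one, eXd_one]
      exact TM.ok_congr _ _ _ _ (ok_zero DD) fun _ _ _ => by simp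
    · rw [if_neg (by decide), if_pos h, (iX_lt dlp dIX 1).2.1, (iXd_lt dlp dIX 1).2.1, eX_one, eXd_one]
      refine ok_const _ _ ?_
      simp only [pf, pev_one, j4, Matrix.cons_val_one, Matrix.cons_val_zero, if_true]
      push_cast
      ring
    · rw [if_neg (by decide), if_pos h, (iX_lt dlp dIX 1).2.2.1, (iXd_lt dlp dIX 1).2.2.1, eX_one, eXd_one]
      refine ok_const _ _ ?_
      have e : j4 2 = 2 := rfl
      rw [e]
      simp only [pf, pev_one, Matrix.cons_val]
      push_cast
      ring
    · rw [if_neg (by decide), if_pos h, (iX_lt dlp dIX 1).2.2.2, (iXd_lt dlp dIX 1).2.2.2, eX_one, eXd_one]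
      refine ok_const _ _ ?_
      have e : j4 3 = 3 := rfl
      rw [e]
      simp only [pf, pev_one, Matrix.cons_val]
      push_cast
      ring
  · rw [if_neg (DatO_ne j h).1, if_neg h, (DatO_ge j h).1, (DatO_ge j h).2.1]
    exact ok_ku _

theorem ok_mba (j : Fin 16) : (mba j).ok DD (fun _ => ba j) := by
  unfold mba ba
  by_cases h : j.val < 4
  · have h2 : j = 0 ∨ j = 1 ∨ j = 2 ∨ j = 3 := by omega
    rcases h2 with rfl | rfl | rfl | rfl
    · rw [if_pos rfl, (iA_lt dly (dc2 / 1000000) dIA 1).1, eA_one]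
      exact TM.ok_congr _ _ _ _ (ok_zero DD) fun _ _ _ => by simp
    · rw [if_neg (by decide), if_pos rfl, (iA_lt dly (dc2 / 1000000) dIA 1).2.1, eA_one]
      refine ok_const _ _ ?_
      simp only [pf, pev_one, Matrix.cons_val_one, Matrix.cons_val_zero]
      push_cast
      ring
    · rw [if_neg (by decide), if_neg (by decide), if_pos rfl, (iA_lt dly (dc2 / 1000000) dIA 1).2.2.1, eA_one]
      refine TM.ok_congr _ _ _ _ (TM.ok_add _ _ _ _ _ (ok_const (-720000000000000 - 6000000000 * (dly 2).sum)
        (-4 * pf lphi 1 - 6 * pf (dly 2) 1) ?_) (TM.ok_mul DD DD_pos _ _ _ _ ok_tg1 (ok_cc dc2))) fun _ _ _ => ?_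
      · rw [DatO_f]
        simp only [pf, pev_one]
        push_cast
        ring
      · simp only [Matrix.cons_val]
        ring
    · rw [if_neg (by decide), if_neg (by decide), if_neg (by decide), if_pos rfl,
        (iA_lt dly (dc2 / 1000000) dIA 1).2.2.2, eA_one]
      refine ok_const _ _ ?_
      simp only [Matrix.cons_val, DatO_f]
      simp only [pf, pev_one]
      push_cast
      ring
  · obtain ⟨n0, n1, n2, n3⟩ := DatO_ne j h
    rw [if_neg n0, if_neg n1, if_neg n2, if_neg n3, (DatO_ge j h).2.2.1]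
    exact ok_kx0 _

theorem ok_mbz (j : Fin 16) : (mbz j).ok DD (fun _ => bz' j) := by
  unfold mbz bz'
  by_cases h : j.val < 4
  · have h2 : j = 0 ∨ j = 1 ∨ j = 2 ∨ j = 3 := by omega
    rcases h2 with rfl | rfl | rfl | rfl
    · rw [if_pos rfl, (iD_lt dlp dly (dc2 / 1000000) dIZ 1).1, eD_one]
      exact TM.ok_congr _ _ _ _ (ok_zero DD) fun _ _ _ => by simp
    · rw [if_neg (by decide), if_pos rfl, (iD_lt dlp dly (dc2 / 1000000) dIZ 1).2.1, eD_one]
      refine ok_const _ _ ?_
      simp only [pf, pev_one, Matrix.cons_val_one, Matrix.cons_val_zero]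
      push_cast
      ring
    · rw [if_neg (by decide), if_neg (by decide), if_pos rfl, (iD_lt dlp dly (dc2 / 1000000) dIZ 1).2.2.1, eD_one]
      refine TM.ok_congr _ _ _ _ (TM.ok_add _ _ _ _ _ (ok_const
        (720000000000000 + 6000000000 * (dly 2).sum - 4000000000 * (dlp 2).sum)
        (4 * pf lphi 1 + 6 * pf (dly 2) 1 - 4 * pf (dlp 2) 1) ?_)
        (TM.ok_smul _ (-1) _ _ (TM.ok_mul DD DD_pos _ _ _ _ ok_tg1 (ok_cc dc2)))) fun _ _ _ => ?_
      · rw [DatO_f]
        simp only [pf, pev_one]
        push_cast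
        ring
      · simp only [Matrix.cons_val]
        push_cast
        ring
    · rw [if_neg (by decide), if_neg (by decide), if_neg (by decide), if_pos rfl,
        (iD_lt dlp dly (dc2 / 1000000) dIZ 1).2.2.2, eD_one]
      refine ok_const _ _ ?_
      simp only [Matrix.cons_val, DatO_f]
      simp only [pf, pev_one]
      push_cast
      ring
  · obtain ⟨n0, n1, n2, n3⟩ := DatO_ne j h
    rw [if_neg n0, if_neg n1, if_neg n2, if_neg n3, (DatO_ge j h).2.2.2]
    exact ok_kx0 _

theorem bx_zero (j : Fin 16) (h : j.val < 4) : bx j = 0 := by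
  unfold bx
  rw [iX_one, if_pos h]

theorem bu_zero : bu 0 = 0 := by
  unfold bu
  rw [(iX_lt dlp dIX 1).1, (iXd_lt dlp dIX 1).1, eX_one, eXd_one]
  simp

theorem bz_zero : bz' 0 = 0 := by
  unfold bz'
  rw [(iD_lt dlp dly (dc2 / 1000000) dIZ 1).1, eD_one]
  simp

/-- the check, even block -/
def zI1 (n : ℕ) (i : ℤ) : Bool :=
  zoi1 100 4705752 7897026 4935704 3846704 67999 1607 (-2442) (-5870188) 5870188 180000 mbx mbu mba mbz dOX dOA dOZ
    dOK n (40000 + 2007 * i) 2007 80000

/-- the check, odd block -/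
def zI2 (n : ℕ) (i : ℤ) : Bool :=
  zoi2 100 4705752 7897026 4935704 3846704 67999 1607 (-2442) (-5870188) 5870188 180000 mbx mbu mba mbz dOX dOA dOZ
    dOK n (40000 + 2007 * i) 2007 80000

end Pool.Agent.H23.GP
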