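import Pool.Agent.H94.GP.RgC

/-!
# FarA: the zone `r^2 ≥ 13/4`

No fields. In the variables `σ, α/x, p/x, q/x` with `x = 1/(r g)`, `g = gc (r^2)`, and `z = 1/r^2 ∈ [0, x^2]` the matrix is affine in `z`.
-/

set_option autoImplicit false

open Pool.Agent.H94.ER Pool.Agent.H94.SP Pool.Agent.H94.GP

namespace Pool.Agent.H23.GP

/-- twice the matrix of the far form -/
noncomputable def Mf (m c2 c6 c8 μ0 μ1 μ2 μ3 w0 w1 f x z : ℝ) : List (List ℝ) :=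
  [[2 * gam - 8 * z + 2 * w0, 2 * gam * x, x * (2 * gam * f - 4 * f * z) - c2, x * (2 * gam * f + 4 * f * z)],
   [2 * ((gam - m) * x ^ 2 - μ0 * (2 * x ^ 2 - kap)), 2 * gam * f * x ^ 2 - c6 * x, 2 * gam * f * x ^ 2 - c8 * x],
   [2 * ((f ^ 2 * (gam - z) - m) * x ^ 2 - μ1 * (2 * x ^ 2 - kap)), 2 * f ^ 2 * (gam + z) * x ^ 2 + 2 * μ3 * kap],
   [2 * ((f ^ 2 * (gam - z) - m + w1) * x ^ 2 - μ2 * (2 * x ^ 2 - kap))]]

/-- terms of the bound on `|q|/σ` -/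
noncomputable def Sp (w0 w1 : ℝ) : Fin 16 → ℝ :=
  ![w0, 0, 0, 0, 0, 0, 0, 0, 0, 0, 0, 0, 0, 0, w1, 0]

/-- coefficients in the far zone -/
noncomputable def Tf (m c2 c6 c8 μ0 μ1 μ2 μ3 w0 w1 f g r : ℝ) (j : Fin 16) : ℝ :=
  (Qj gam (r ^ 2) (1 / r ^ 2) (-(1 / (r ^ 2) ^ 2)) (f / r) (-(f / (2 * r ^ 3))) j
    + Ec m c2 c6 c8 μ0 μ1 μ2 μ3 g (r ^ 2) j + Sp w0 w1 j) * r ^ kj j

theorem far_id (m c2 c6 c8 μ0 μ1 μ2 μ3 w0 w1 f g r : ℝ) (hr : 0 < r) (hg : 0 < g) (a ξ η σ : ℝ) (α p q : ℂ) :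
    2 * floc (Tf m c2 c6 c8 μ0 μ1 μ2 μ3 w0 w1 f g r) (fun _ => 0) (fun _ => 0) (fun _ => 0) a ξ η σ α p q
      = qf (Mf m c2 c6 c8 μ0 μ1 μ2 μ3 w0 w1 f (1 / (r * g)) (1 / r ^ 2))
          [a * σ, r * g * (a * α.re), r * g * (a * p.re), r * g * (a * q.re)]
        + qf (Mf m c2 c6 c8 μ0 μ1 μ2 μ3 w0 w1 f (1 / (r * g)) (1 / r ^ 2))
          [0, r * g * (a * α.im), r * g * (a * p.im), r * g * (a * q.im)] := by
  have e := blk_id (Tf m c2 c6 c8 μ0 μ1 μ2 μ3 w0 w1 f g r) (fun _ => 0) (fun _ => 0) (fun _ => 0) (fun _ => 0)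
    a ξ η σ α p q
  rw [e]
  have t0 : Tf m c2 c6 c8 μ0 μ1 μ2 μ3 w0 w1 f g r 0 = gam - 4 / r ^ 2 + w0 := by
    simp [Tf, Qj, Ec, Sp, kj]; field_simp; ring
  have t1 : Tf m c2 c6 c8 μ0 μ1 μ2 μ3 w0 w1 f g r 1 = 2 * gam := by
    simp [Tf, Qj, Ec, Sp, kj]; field_simp
  have t2 : Tf m c2 c6 c8 μ0 μ1 μ2 μ3 w0 w1 f g r 2 = 2 * gam * f - 4 * f / r ^ 2 - c2 * (r * g) := by
    simp [Tf, Qj, Ec, Sp, kj]; field_simp; ring
  have t3 : Tf m c2 c6 c8 μ0 μ1 μ2 μ3 w0 w1 f g r 3 = 2 * gam * f + 4 * f / r ^ 2 := by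
    simp [Tf, Qj, Ec, Sp, kj]; field_simp; ring
  have t4 : Tf m c2 c6 c8 μ0 μ1 μ2 μ3 w0 w1 f g r 4 = gam - m - (2 - kap * (r * g) ^ 2) * μ0 := by
    simp [Tf, Qj, Ec, Sp, kj]; ring
  have t5 : Tf m c2 c6 c8 μ0 μ1 μ2 μ3 w0 w1 f g r 5 = 0 := by
    simp [Tf, Qj, Ec, Sp, kj]
  have t6 : Tf m c2 c6 c8 μ0 μ1 μ2 μ3 w0 w1 f g r 6 = 2 * gam * f - c6 * (r * g) := by
    simp [Tf, Qj, Ec, Sp, kj]; field_simp; ring
  have t7 : Tf m c2 c6 c8 μ0 μ1 μ2 μ3 w0 w1 f g r 7 = 0 := by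
    simp [Tf, Qj, Ec, Sp, kj]
  have t8 : Tf m c2 c6 c8 μ0 μ1 μ2 μ3 w0 w1 f g r 8 = 2 * gam * f - c8 * (r * g) := by
    simp [Tf, Qj, Ec, Sp, kj]; field_simp; ring
  have t9 : Tf m c2 c6 c8 μ0 μ1 μ2 μ3 w0 w1 f g r 9 = 0 := by
    simp [Tf, Qj, Ec, Sp, kj]
  have t10 : Tf m c2 c6 c8 μ0 μ1 μ2 μ3 w0 w1 f g r 10
      = f ^ 2 * (gam - 1 / r ^ 2) - m - (2 - kap * (r * g) ^ 2) * μ1 := by
    simp [Tf, Qj, Ec, Sp, kj]; field_simp; ring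
  have t11 : Tf m c2 c6 c8 μ0 μ1 μ2 μ3 w0 w1 f g r 11 = 0 := by
    simp [Tf, Qj, Ec, Sp, kj]
  have t12 : Tf m c2 c6 c8 μ0 μ1 μ2 μ3 w0 w1 f g r 12
      = 2 * f ^ 2 * (gam + 1 / r ^ 2) + 2 * μ3 * kap * (r * g) ^ 2 := by
    simp [Tf, Qj, Ec, Sp, kj]; field_simp; ring
  have t13 : Tf m c2 c6 c8 μ0 μ1 μ2 μ3 w0 w1 f g r 13 = 0 := by
    simp [Tf, Qj, Ec, Sp, kj]
  have t14 : Tf m c2 c6 c8 μ0 μ1 μ2 μ3 w0 w1 f g r 14
      = f ^ 2 * (gam - 1 / r ^ 2) - m - (2 - kap * (r * g) ^ 2) * μ2 + w1 := by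
    simp [Tf, Qj, Ec, Sp, kj]; field_simp; ring
  have t15 : Tf m c2 c6 c8 μ0 μ1 μ2 μ3 w0 w1 f g r 15 = 0 := by
    simp [Tf, Qj, Ec, Sp, kj]
  simp only [B1, B2, v1, v2, qf, rowv, dotl, Mf]
  rw [t0, t1, t2, t3, t4, t5, t6, t7, t8, t9, t10, t11, t12, t13, t14, t15]
  field_simp
  ring

theorem Mf_aff (m c2 c6 c8 μ0 μ1 μ2 μ3 w0 w1 f x z v0 v1 v2 v3 : ℝ) (hx : 0 < x) :
    qf (Mf m c2 c6 c8 μ0 μ1 μ2 μ3 w0 w1 f x z) [v0, v1, v2, v3]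
      = (1 - z / x ^ 2) * qf (Mf m c2 c6 c8 μ0 μ1 μ2 μ3 w0 w1 f x 0) [v0, v1, v2, v3]
        + z / x ^ 2 * qf (Mf m c2 c6 c8 μ0 μ1 μ2 μ3 w0 w1 f x (x ^ 2)) [v0, v1, v2, v3] := by
  simp only [qf, rowv, dotl, Mf]
  field_simp
  ring

/-- positivity in the far zone from the two matrices -/
theorem far_pos (m c2 c6 c8 μ0 μ1 μ2 μ3 w0 w1 f c : ℝ) (hc0 : 0 ≤ c) (hc : 4 / 13 + 1 / 100000000 ≤ c ^ 2)
    (h0 : ∀ x, 0 ≤ x → x ≤ c → ∀ v : List ℝ, v.length = 4 →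
      0 ≤ qf (Mf m c2 c6 c8 μ0 μ1 μ2 μ3 w0 w1 f x 0) v)
    (h1 : ∀ x, 0 ≤ x → x ≤ c → ∀ v : List ℝ, v.length = 4 →
      0 ≤ qf (Mf m c2 c6 c8 μ0 μ1 μ2 μ3 w0 w1 f x (x ^ 2)) v)
    (r : ℝ) (hr : 0 < r) (hr2 : 13 / 4 ≤ r ^ 2) (a ξ η σ : ℝ) (α p q : ℂ) :
    0 ≤ floc (Tf m c2 c6 c8 μ0 μ1 μ2 μ3 w0 w1 f (gc (r ^ 2)) r) (fun _ => 0) (fun _ => 0) (fun _ => 0)
      a ξ η σ α p q := by
  have hs : 0 ≤ r ^ 2 := sq_nonneg r
  have hs0 : 0 < r ^ 2 := by positivity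
  have hg := gc_pos (r ^ 2) hs
  have hg2 := gc_sq (r ^ 2) hs
  obtain ⟨g, hgd⟩ : ∃ g, g = gc (r ^ 2) := ⟨_, rfl⟩
  rw [← hgd] at hg hg2 ⊢
  have hx : 0 < 1 / (r * g) := by positivity
  have hx2 : (1 / (r * g)) ^ 2 = 1 / r ^ 2 + 1 / 100000000 := by
    rw [div_pow, mul_pow, hg2]
    field_simp
  have hxc : 1 / (r * g) ≤ c := by
    refine le_of_sq_le_sq ?_ hc0
    rw [hx2]
    have : 1 / r ^ 2 ≤ 4 / 13 := by
      rw [div_le_div_iff₀ hs0 (by norm_num)]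
      linarith
    linarith
  have hz0 : 0 ≤ 1 / r ^ 2 / (1 / (r * g)) ^ 2 := by positivity
  have hz1 : 1 / r ^ 2 / (1 / (r * g)) ^ 2 ≤ 1 := by
    rw [div_le_one (by positivity), hx2]
    linarith [show (0 : ℝ) ≤ 1 / 100000000 by norm_num]
  have key : ∀ v0 v1 v2 v3 : ℝ,
      0 ≤ qf (Mf m c2 c6 c8 μ0 μ1 μ2 μ3 w0 w1 f (1 / (r * g)) (1 / r ^ 2)) [v0, v1, v2, v3] := by
    intro v0 v1 v2 v3
    rw [Mf_aff _ _ _ _ _ _ _ _ _ _ _ _ _ _ _ _ _ hx]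
    have k0 := h0 (1 / (r * g)) hx.le hxc [v0, v1, v2, v3] rfl
    have k1 := h1 (1 / (r * g)) hx.le hxc [v0, v1, v2, v3] rfl
    exact add_nonneg (mul_nonneg (by linarith) k0) (mul_nonneg hz0 k1)
  have e := far_id m c2 c6 c8 μ0 μ1 μ2 μ3 w0 w1 f g r hr hg a ξ η σ α p q
  have k1 := key (a * σ) (r * g * (a * α.re)) (r * g * (a * p.re)) (r * g * (a * q.re))
  have k2 := key 0 (r * g * (a * α.im)) (r * g * (a * p.im)) (r * g * (a * q.im))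
  linarith

/-- the variable `x` -/
def cx : Ex := .mul (.cst 554700300000000) .var

/-- constant with scale `10^6` -/
def cz (z : ℤ) : Ex := .cst (z * 1000000000)

/-- expressions for `Mf`, integers stand for multiples of `10^(-6)` -/
def exf (m c2 c6 c8 μ0 μ1 μ2 μ3 w0 w1 f : ℤ) (Z : Ex) : List (List Ex) :=
  [[.add (.smul 2 (.atm 0)) (.add (.smul (-8) Z) (.smul 2 (cz w0))), .smul 2 (.mul (.atm 0) cx),
    .add (.mul cx (.add (.smul 2 (.mul (.atm 0) (cz f))) (.smul (-4) (.mul (cz f) Z)))) (.smul (-1) (cz c2)),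
    .mul cx (.add (.smul 2 (.mul (.atm 0) (cz f))) (.smul 4 (.mul (cz f) Z)))],
   [.smul 2 (.add (.mul (.add (.atm 0) (.smul (-1) (cz m))) (.mul cx cx))
      (.smul (-1) (.mul (cz μ0) (.add (.smul 2 (.mul cx cx)) (.smul (-1) (.atm 1)))))),
    .add (.smul 2 (.mul (.mul (.atm 0) (cz f)) (.mul cx cx))) (.smul (-1) (.mul (cz c6) cx)),
    .add (.smul 2 (.mul (.mul (.atm 0) (cz f)) (.mul cx cx))) (.smul (-1) (.mul (cz c8) cx))],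
   [.smul 2 (.add (.mul (.add (.mul (.mul (cz f) (cz f)) (.add (.atm 0) (.smul (-1) Z))) (.smul (-1) (cz m))) (.mul cx cx))
      (.smul (-1) (.mul (cz μ1) (.add (.smul 2 (.mul cx cx)) (.smul (-1) (.atm 1)))))),
    .add (.smul 2 (.mul (.mul (.mul (cz f) (cz f)) (.add (.atm 0) Z)) (.mul cx cx))) (.smul 2 (.mul (cz μ3) (.atm 1)))],
   [.smul 2 (.add (.mul (.add (.mul (.mul (cz f) (cz f)) (.add (.atm 0) (.smul (-1) Z)))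
        (.add (.smul (-1) (cz m)) (cz w1))) (.mul cx cx))
      (.smul (-1) (.mul (cz μ2) (.add (.smul 2 (.mul cx cx)) (.smul (-1) (.atm 1))))))]]

/-- environment of constants -/
def envC : ℕ → TM
  | 0 => tmgam
  | _ => tmkap

/-- the constants -/
noncomputable def fC : ℕ → ℝ → ℝ
  | 0 => fun _ => gam
  | _ => fun _ => kap

theorem envC_ok (i : ℕ) : (envC i).ok DD (fC i) := by
  rcases i with _ | i
  · exact ok_gam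
  · exact ok_kap

theorem cz_ev (f : ℕ → ℝ → ℝ) (z : ℤ) (s : ℝ) : (cz z).ev DD f s = z / 1000000 := by
  have e : ((DD : ℕ) : ℝ) = 1000000000000000 := by norm_num [DD]
  simp only [cz, Ex.ev, e]
  push_cast
  ring

theorem cx_ev (f : ℕ → ℝ → ℝ) (s : ℝ) : cx.ev DD f s = 5547003 / 10000000 * s := by
  have e : ((DD : ℕ) : ℝ) = 1000000000000000 := by norm_num [DD]
  simp only [cx, Ex.ev, e]
  push_cast
  ring

theorem exf_ev (m c2 c6 c8 μ0 μ1 μ2 μ3 w0 w1 f : ℤ) (Z : Ex) (s : ℝ) :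
    (exf m c2 c6 c8 μ0 μ1 μ2 μ3 w0 w1 f Z).map (List.map (fun x => x.ev DD fC s))
      = Mf (m / 1000000) (c2 / 1000000) (c6 / 1000000) (c8 / 1000000) (μ0 / 1000000) (μ1 / 1000000) (μ2 / 1000000)
        (μ3 / 1000000) (w0 / 1000000) (w1 / 1000000) (f / 1000000) (5547003 / 10000000 * s) (Z.ev DD fC s) := by
  simp only [exf, Mf, List.map_cons, List.map_nil, Ex.ev, cz_ev, cx_ev, fC]
  simp only [List.cons.injEq, and_true, true_and]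
  push_cast
  refine ⟨⟨?_, ?_, ?_, ?_⟩, ⟨?_, ?_, ?_⟩, ⟨?_, ?_⟩, ?_⟩ <;> ring

/-- positivity in the far zone by the kernel -/
theorem far_kern (n N k : ℕ) (hN : 0 < N) (hk : 0 < k) (m c2 c6 c8 μ0 μ1 μ2 μ3 w0 w1 f : ℤ)
    (h0 : mchk DD n N k envC (exf m c2 c6 c8 μ0 μ1 μ2 μ3 w0 w1 f (.int 0)) = true)
    (h1 : mchk DD n N k envC (exf m c2 c6 c8 μ0 μ1 μ2 μ3 w0 w1 f (.mul cx cx)) = true)
    (r : ℝ) (hr : 0 < r) (hr2 : 13 / 4 ≤ r ^ 2) (a ξ η σ : ℝ) (α p q : ℂ) :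
    0 ≤ floc (Tf (m / 1000000) (c2 / 1000000) (c6 / 1000000) (c8 / 1000000) (μ0 / 1000000) (μ1 / 1000000)
        (μ2 / 1000000) (μ3 / 1000000) (w0 / 1000000) (w1 / 1000000) (f / 1000000) (gc (r ^ 2)) r)
      (fun _ => 0) (fun _ => 0) (fun _ => 0) a ξ η σ α p q := by
  have hD : 0 < DD := by norm_num [DD]
  refine far_pos _ _ _ _ _ _ _ _ _ _ _ (5547003 / 10000000) (by norm_num) (by norm_num) ?_ ?_ r hr hr2 a ξ η σ α p q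
  · intro x hx0 hxc v hv
    have h := mat_pos DD n N k hD hN hk envC fC envC_ok _ h0 (x / (5547003 / 10000000)) (by positivity)
      (by rw [div_le_one (by norm_num)]; exact hxc) v (by rw [hv]; rfl)
    rw [exf_ev] at h
    have e : (5547003 : ℝ) / 10000000 * (x / (5547003 / 10000000)) = x := by field_simp
    rw [e] at h
    simpa [Ex.ev] using h
  · intro x hx0 hxc v hv
    have h := mat_pos DD n N k hD hN hk envC fC envC_ok _ h1 (x / (5547003 / 10000000)) (by positivity)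
      (by rw [div_le_one (by norm_num)]; exact hxc) v (by rw [hv]; rfl)
    rw [exf_ev] at h
    have e : (5547003 : ℝ) / 10000000 * (x / (5547003 / 10000000)) = x := by field_simp
    simp only [Ex.ev, cx_ev] at h
    rw [e] at h
    rw [sq]
    exact h

end Pool.Agent.H23.GP
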