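import Pool.Agent.H23.GP.FarA

/-!
# FarB: the far zone of the three regions (kernel check)
-/

set_option autoImplicit false

open Pool.Agent.H94.ER Pool.Agent.H94.SP Pool.Agent.H94.GP

namespace Pool.Agent.H23.GP

theorem farI0 : mchk DD 6 6 8 envC (exf 100 4705752 7897026 4935704 3846704 67999 1607 (-2442) (-928009) 928009 180000 (.int 0)) = true := by
  decide +kernel

theorem farI1 : mchk DD 6 6 8 envC (exf 100 4705752 7897026 4935704 3846704 67999 1607 (-2442) (-928009) 928009 180000 (.mul cx cx)) = true := by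
  decide +kernel

theorem farII0 : mchk DD 6 6 8 envC (exf 100 4485088 7828978 4145505 3893639 140804 25671 (-46623) (-295571) 150182 180000 (.int 0)) = true := by
  decide +kernel

theorem farII1 : mchk DD 6 6 8 envC (exf 100 4485088 7828978 4145505 3893639 140804 25671 (-46623) (-295571) 150182 180000 (.mul cx cx)) = true := by
  decide +kernel

theorem farIII0 : mchk DD 6 6 8 envC (exf 100 4864478 6141834 3320291 2304688 288556 111611 (-159138) 749372 (-382333) 180000 (.int 0)) = true := by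
  decide +kernel

theorem farIII1 : mchk DD 6 6 8 envC (exf 100 4864478 6141834 3320291 2304688 288556 111611 (-159138) 749372 (-382333) 180000 (.mul cx cx)) = true := by
  decide +kernel

theorem far_I (r : ℝ) (hr : 0 < r) (hr2 : 13 / 4 ≤ r ^ 2) (a ξ η σ : ℝ) (α p q : ℂ) :
    0 ≤ floc (Tf (((100 : ℤ) : ℝ) / 1000000) (((4705752 : ℤ) : ℝ) / 1000000) (((7897026 : ℤ) : ℝ) / 1000000) (((4935704 : ℤ) : ℝ) / 1000000) (((3846704 : ℤ) : ℝ) / 1000000) (((67999 : ℤ) : ℝ) / 1000000) (((1607 : ℤ) : ℝ) / 1000000) (((-2442 : ℤ) : ℝ) / 1000000) (((-928009 : ℤ) : ℝ) / 1000000) (((928009 : ℤ) : ℝ) / 1000000) (((180000 : ℤ) : ℝ) / 1000000)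
        (gc (r ^ 2)) r)
      (fun _ => 0) (fun _ => 0) (fun _ => 0) a ξ η σ α p q :=
  far_kern 6 6 8 (by norm_num) (by norm_num) 100 4705752 7897026 4935704 3846704 67999 1607 (-2442) (-928009) 928009 180000 farI0 farI1
    r hr hr2 a ξ η σ α p q

theorem far_II (r : ℝ) (hr : 0 < r) (hr2 : 13 / 4 ≤ r ^ 2) (a ξ η σ : ℝ) (α p q : ℂ) :
    0 ≤ floc (Tf (((100 : ℤ) : ℝ) / 1000000) (((4485088 : ℤ) : ℝ) / 1000000) (((7828978 : ℤ) : ℝ) / 1000000) (((4145505 : ℤ) : ℝ) / 1000000) (((3893639 : ℤ) : ℝ) / 1000000) (((140804 : ℤ) : ℝ) / 1000000) (((25671 : ℤ) : ℝ) / 1000000) (((-46623 : ℤ) : ℝ) / 1000000) (((-295571 : ℤ) : ℝ) / 1000000) (((150182 : ℤ) : ℝ) / 1000000) (((180000 : ℤ) : ℝ) / 1000000)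
        (gc (r ^ 2)) r)
      (fun _ => 0) (fun _ => 0) (fun _ => 0) a ξ η σ α p q :=
  far_kern 6 6 8 (by norm_num) (by norm_num) 100 4485088 7828978 4145505 3893639 140804 25671 (-46623) (-295571) 150182 180000 farII0 farII1
    r hr hr2 a ξ η σ α p q

theorem far_III (r : ℝ) (hr : 0 < r) (hr2 : 13 / 4 ≤ r ^ 2) (a ξ η σ : ℝ) (α p q : ℂ) :
    0 ≤ floc (Tf (((100 : ℤ) : ℝ) / 1000000) (((4864478 : ℤ) : ℝ) / 1000000) (((6141834 : ℤ) : ℝ) / 1000000) (((3320291 : ℤ) : ℝ) / 1000000) (((2304688 : ℤ) : ℝ) / 1000000) (((288556 : ℤ) : ℝ) / 1000000) (((111611 : ℤ) : ℝ) / 1000000) (((-159138 : ℤ) : ℝ) / 1000000) (((749372 : ℤ) : ℝ) / 1000000) (((-382333 : ℤ) : ℝ) / 1000000) (((180000 : ℤ) : ℝ) / 1000000)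
        (gc (r ^ 2)) r)
      (fun _ => 0) (fun _ => 0) (fun _ => 0) a ξ η σ α p q :=
  far_kern 6 6 8 (by norm_num) (by norm_num) 100 4864478 6141834 3320291 2304688 288556 111611 (-159138) 749372 (-382333) 180000 farIII0 farIII1
    r hr hr2 a ξ η σ α p q

end Pool.Agent.H23.GP
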