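import Pool.Agent.H23.GP.RegO
import Pool.Agent.H94.GP.ZoC

/-!
# FxE: the two notations for the outside functions
-/

set_option autoImplicit false

open Pool.Agent.H94.ER Pool.Agent.H94.SP Pool.Agent.H94.GP

namespace Pool.Agent.H23.GP

theorem fX_eq (x u : ℝ) (l : List ℤ) : fX x u l = gX x u l := by
  funext s
  unfold fX gX tt
  ring

theorem fXd_eq (x u : ℝ) (l : List ℤ) : fXd x u l = gXd x u l := by
  funext s
  unfold fXd gXd tt
  ring

theorem fA_eq (a : ℝ) (l : List ℤ) : fA a l = oA a l := by
  funext s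
  unfold fA oA tt
  ring

theorem fAd_eq (a : ℝ) (l : List ℤ) : fAd a l = oAd a l := by
  funext s
  unfold fAd oAd tt
  ring

end Pool.Agent.H23.GP
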