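import Pool.Agent.H23.GP.PhA
import Pool.Agent.H23.GP.FarA
import Pool.Agent.H94.GP.LpA

/-!
# GlueA: the pointwise inequality almost everywhere from the three zones

`gT`, `gR`, `gS`: the coefficients of the local form.
-/

set_option autoImplicit false

open MeasureTheory Pool.Agent.H94.ER Pool.Agent.H94.SP Pool.Agent.H94.GP

namespace Pool.Agent.H23.GP

/-- coefficients `T` -/
noncomputable def gT (Q E X A' D D' : Fin 16 → ℝ) (r : ℝ) (j : Fin 16) : ℝ :=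
  (Q j + E j - bz 2 * X j - (2 * kj j * A' j + 2 * r ^ 2 * D' j + (kj j + 2) * D j)) * r ^ kj j

/-- coefficients `R` -/
noncomputable def gR (X X' A D : Fin 16 → ℝ) (r : ℝ) (j : Fin 16) : ℝ :=
  (kj j * A j + r ^ 2 * D j - r ^ 2 * X' j - 1 / 2 * kj j * X j) * r ^ kj j / r

/-- coefficients `S` -/
noncomputable def gS (X A : Fin 16 → ℝ) (r : ℝ) (j : Fin 16) : ℝ :=
  kj j * (A j - 1 / 2 * X j) * r ^ kj j / r

/-- the functions `Q_j` outside -/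
noncomputable def fQo (j : Fin 16) (r : ℝ) : ℝ :=
  Qj gam (r ^ 2) (1 / r ^ 2) (-(1 / (r ^ 2) ^ 2)) (9 / 50 / r) (-(9 / 50 / (2 * r ^ 3))) j

theorem floc_sp (Q E X A' D D' R S X0 : Fin 16 → ℝ) (r w0 w1 a ξ η σ : ℝ) (α p q : ℂ) :
    floc (gT Q (fun j => E j + (if j = 0 then w0 else if j = 14 then w1 else 0)) X A' D D' r) R S X0 a ξ η σ α p q
      = floc (gT Q E X A' D D' r) R S X0 a ξ η σ α p q + a ^ 2 * (w0 * σ ^ 2 + w1 * ‖q‖ ^ 2) := by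
  have e0 : (Cj σ α p q 0).re = σ ^ 2 := by
    have : Cj σ α p q 0 = ((σ ^ 2 : ℝ) : ℂ) := by simp [Cj]
    rw [this, Complex.ofReal_re]
  have e14 : (Cj σ α p q 14).re = ‖q‖ ^ 2 := by
    have : Cj σ α p q 14 = q * (starRingEnd ℂ) q := by simp [Cj]
    rw [this, Complex.mul_conj, Complex.normSq_eq_norm_sq, Complex.ofReal_re]
  have h : ∀ j, gT Q (fun j => E j + (if j = 0 then w0 else if j = 14 then w1 else 0)) X A' D D' r j
      = gT Q E X A' D D' r j + (if j = 0 then w0 else if j = 14 then w1 else 0) := by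
    intro j
    simp only [gT]
    by_cases h0 : j = 0
    · subst h0
      simp [kj]
      ring
    · by_cases h1 : j = 14
      · subst h1
        simp [kj]
        ring
      · rw [if_neg h0, if_neg h1]
        ring
  have h2 : floc (gT Q (fun j => E j + (if j = 0 then w0 else if j = 14 then w1 else 0)) X A' D D' r) R S X0 a ξ η σ α p q
      = floc (gT Q E X A' D D' r) R S X0 a ξ η σ α p q
        + ∑ j : Fin 16, a ^ 2 * ((if j = 0 then w0 else if j = 14 then w1 else 0) * (Cj σ α p q j).re) := by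
    unfold floc
    rw [← Finset.sum_add_distrib]
    refine Finset.sum_congr rfl fun j _ => ?_
    rw [h j]
    ring
  rw [h2]
  congr 1
  rw [← Finset.mul_sum]
  congr 1
  have h3 : ∀ j : Fin 16, (if j = 0 then w0 else if j = 14 then w1 else 0) * (Cj σ α p q j).re
      = (if j = 0 then w0 * (Cj σ α p q 0).re else 0) + (if j = 14 then w1 * (Cj σ α p q 14).re else 0) := by
    intro j
    by_cases h0 : j = 0
    · subst h0
      rw [if_pos rfl, if_pos rfl, if_neg (by decide), add_zero]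
    · by_cases h1 : j = 14
      · subst h1
        rw [if_neg (by decide), if_pos rfl, if_neg (by decide), if_pos rfl, zero_add]
      · rw [if_neg h0, if_neg h1, if_neg h0, if_neg h1]
        ring
  rw [Finset.sum_congr rfl fun j _ => h3 j, Finset.sum_add_distrib, Finset.sum_ite_eq' Finset.univ (0 : Fin 16),
    Finset.sum_ite_eq' Finset.univ (14 : Fin 16), if_pos (Finset.mem_univ _), if_pos (Finset.mem_univ _), e0, e14]

/-- the pointwise form of the certificate -/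
noncomputable def ptf (m c2 c6 c8 μ0 μ1 μ2 μ3 : ℝ) (X A D : Fin 16 → ℝ → ℝ) (σ : ℝ) (α p q : ℂ) (x : E 2) (a : ℝ)
    (b : Fin 2 → ℝ) : ℝ :=
  a ^ 2 * (qfun phi0 m c2 c6 c8 μ0 μ1 μ2 μ3 σ α p q x
            - bz 2 * (∑ j, X j (‖x‖ ^ 2) * hM (Cj σ α p q j) (kj j) x)
            - ∑ i, pd i (fun y => (∑ j, fld (A j) (D j) (Cj σ α p q j) (kj j) y : E 2) i) x)
          - 2 * a * (∑ i, b i * ((∑ j, fld (A j) (D j) (Cj σ α p q j) (kj j) x : E 2) i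
            - 1 / 2 * pd i (fun y : E 2 => ∑ j, X j (‖y‖ ^ 2) * hM (Cj σ α p q j) (kj j) y) x))
          + (∑ i, b i ^ 2) * (∑ j, X j (‖x‖ ^ 2) * hM (Cj σ α p q j) (kj j) x)

theorem GlueA_aux {Y z : ℝ} (h : 0 ≤ Y + z) (hz : z ≤ 0) : 0 ≤ Y := by linarith

theorem glue_zone (x : E 2) (hx : x ≠ 0) (m c2 c6 c8 μ0 μ1 μ2 μ3 w0 w1 : ℤ) (X A D : Fin 16 → ℝ → ℝ)
    (Xv X' A0 A' D0 D' : Fin 16 → ℝ) (hXv : ∀ j, X j (‖x‖ ^ 2) = Xv j) (hAv : ∀ j, A j (‖x‖ ^ 2) = A0 j)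
    (hDv : ∀ j, D j (‖x‖ ^ 2) = D0 j) (hX : ∀ j, HasDerivAt (X j) (X' j) (‖x‖ ^ 2))
    (hA : ∀ j, HasDerivAt (A j) (A' j) (‖x‖ ^ 2)) (hD : ∀ j, HasDerivAt (D j) (D' j) (‖x‖ ^ 2))
    (F F' φ φ' : ℝ) (hF0 : nFp (‖x‖ ^ 2) = F) (hφ0 : phi0 (‖x‖ ^ 2) = φ)
    (hF : HasDerivAt nFp F' (‖x‖ ^ 2)) (hφ : HasDerivAt phi0 φ' (‖x‖ ^ 2)) (σ : ℝ) (α p q : ℂ)
    (P : ∀ (a ξ η : ℝ) (α' p' q' : ℂ), 0 ≤ floc (gT (fun j => Qj gam (‖x‖ ^ 2) F F' φ φ' j)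
        (fun j => fE m c2 c6 c8 μ0 μ1 μ2 μ3 w0 w1 j (‖x‖ ^ 2)) Xv A' D0 D' ‖x‖) (gR Xv X' A0 D0 ‖x‖) (gS Xv A0 ‖x‖)
        (fun j => Xv j * ‖x‖ ^ kj j) a ξ η σ α' p' q')
    (hw : (w0 : ℝ) / 1000000 * σ ^ 2 + (w1 : ℝ) / 1000000 * ‖q‖ ^ 2 ≤ 0) (a : ℝ) (b : Fin 2 → ℝ) :
    0 ≤ ptf (m / 1000000) (c2 / 1000000) (c6 / 1000000) (c8 / 1000000) (μ0 / 1000000) (μ1 / 1000000) (μ2 / 1000000)
      (μ3 / 1000000) X A D σ α p q x a b := by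
  obtain ⟨ξ, η, α', p', q', n1, n2, n3, h⟩ := pt_gen phi0 (m / 1000000) (c2 / 1000000) (c6 / 1000000)
    (c8 / 1000000) (μ0 / 1000000) (μ1 / 1000000) (μ2 / 1000000) (μ3 / 1000000) X A D x hx X' A' D' hX hA hD F' φ'
    hF hφ σ α p q a b
  unfold ptf
  rw [h]
  have h1 := P a ξ η α' p' q'
  have e := floc_sp (fun j => Qj gam (‖x‖ ^ 2) F F' φ φ' j)
    (fun j => Ec (m / 1000000) (c2 / 1000000) (c6 / 1000000) (c8 / 1000000) (μ0 / 1000000) (μ1 / 1000000)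
      (μ2 / 1000000) (μ3 / 1000000) (gc (‖x‖ ^ 2)) (‖x‖ ^ 2) j) Xv A' D0 D' (gR Xv X' A0 D0 ‖x‖) (gS Xv A0 ‖x‖)
    (fun j => Xv j * ‖x‖ ^ kj j) ‖x‖ (w0 / 1000000) (w1 / 1000000) a ξ η σ α' p' q'
  have h2 : 0 ≤ floc (gT (fun j => Qj gam (‖x‖ ^ 2) F F' φ φ' j)
    (fun j => Ec (m / 1000000) (c2 / 1000000) (c6 / 1000000) (c8 / 1000000) (μ0 / 1000000) (μ1 / 1000000)
      (μ2 / 1000000) (μ3 / 1000000) (gc (‖x‖ ^ 2)) (‖x‖ ^ 2) j) Xv A' D0 D' ‖x‖) (gR Xv X' A0 D0 ‖x‖)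
      (gS Xv A0 ‖x‖) (fun j => Xv j * ‖x‖ ^ kj j) a ξ η σ α' p' q'
      + a ^ 2 * ((w0 : ℝ) / 1000000 * σ ^ 2 + (w1 : ℝ) / 1000000 * ‖q'‖ ^ 2) := by
    rw [← e]
    exact h1
  rw [n3] at h2
  have h3 : a ^ 2 * ((w0 : ℝ) / 1000000 * σ ^ 2 + (w1 : ℝ) / 1000000 * ‖q‖ ^ 2) ≤ 0 :=
    mul_nonpos_of_nonneg_of_nonpos (sq_nonneg a) hw
  refine (GlueA_aux h2 h3).trans_eq (floc_congr _ _ _ _ _ _ _ _ _ _ _ _ _ _ _
    (fun j => ?_) (fun j => ?_) (fun j => ?_) (fun j => ?_))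
  · simp only [gT, hXv, hDv, hF0, hφ0]
  · simp only [gR, hXv, hAv, hDv]
  · simp only [gS, hXv, hAv]
  · simp only [hXv]

end Pool.Agent.H23.GP
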