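import Pool.Agent.H23.GP.GlueA

/-!
# GlueB: the pointwise inequality almost everywhere from the three zones
-/

set_option autoImplicit false

open MeasureTheory Pool.Agent.H94.ER Pool.Agent.H94.SP Pool.Agent.H94.GP

namespace Pool.Agent.H23.GP

theorem pw_in (f g : ℝ → ℝ) (S s : ℝ) (hs : s < 1) (f' : ℝ) (h : HasDerivAt f f' s) :
    pw f g S s = f s ∧ HasDerivAt (pw f g S) f' s := by
  refine ⟨if_pos hs.le, h.congr_of_eventuallyEq ?_⟩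
  filter_upwards [gt_mem_nhds hs] with t ht
  exact if_pos ht.le

theorem pw_mid (f g : ℝ → ℝ) (S s : ℝ) (hs : 1 < s) (hs2 : s < S) (g' : ℝ) (h : HasDerivAt g g' s) :
    pw f g S s = g s ∧ HasDerivAt (pw f g S) g' s := by
  refine ⟨?_, h.congr_of_eventuallyEq ?_⟩
  · rw [pw, if_neg (not_le.2 hs), if_pos hs2.le]
  · filter_upwards [lt_mem_nhds hs, gt_mem_nhds hs2] with t ht ht2
    rw [pw, if_neg (not_le.2 ht), if_pos ht2.le]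

theorem pw_far (f g : ℝ → ℝ) (S s : ℝ) (hS : 1 < S) (hs2 : S < s) :
    pw f g S s = 0 ∧ HasDerivAt (pw f g S) 0 s := by
  refine ⟨?_, (hasDerivAt_const s (0 : ℝ)).congr_of_eventuallyEq ?_⟩
  · rw [pw, if_neg (not_le.2 (hS.trans hs2)), if_neg (not_le.2 hs2)]
  · filter_upwards [lt_mem_nhds hs2] with t ht
    rw [pw, if_neg (not_le.2 (hS.trans ht)), if_neg (not_le.2 ht)]

theorem Spz_Sp (w0 w1 : ℤ) (j : Fin 16) : Spz w0 w1 j = Sp (w0 / 1000000) (w1 / 1000000) j := by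
  fin_cases j <;> simp [Spz, Sp]

theorem glue_ae (m c2 c6 c8 μ0 μ1 μ2 μ3 wi0 wi1 wo0 wo1 wf0 wf1 : ℤ)
    (Xi Xid Ai Aid Di Did Xo Xod Ao Aod Do Dod : Fin 16 → ℝ → ℝ)
    (dXi : ∀ j s, 0 < s → s < 1 → HasDerivAt (Xi j) (Xid j s) s)
    (dAi : ∀ j s, 0 < s → s < 1 → HasDerivAt (Ai j) (Aid j s) s)
    (dDi : ∀ j s, 0 < s → s < 1 → HasDerivAt (Di j) (Did j s) s)
    (dXo : ∀ j s, 1 < s → s < 13 / 4 → HasDerivAt (Xo j) (Xod j s) s)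
    (dAo : ∀ j s, 1 < s → s < 13 / 4 → HasDerivAt (Ao j) (Aod j s) s)
    (dDo : ∀ j s, 1 < s → s < 13 / 4 → HasDerivAt (Do j) (Dod j s) s)
    (Pin : ∀ r, 0 < r → r < 1 → ∀ (a ξ η σ : ℝ) (α p q : ℂ), 0 ≤ floc (gT (fun j => fQj j (r ^ 2))
        (fun j => fE m c2 c6 c8 μ0 μ1 μ2 μ3 wi0 wi1 j (r ^ 2)) (fun j => Xi j (r ^ 2)) (fun j => Aid j (r ^ 2))
        (fun j => Di j (r ^ 2)) (fun j => Did j (r ^ 2)) r)
      (gR (fun j => Xi j (r ^ 2)) (fun j => Xid j (r ^ 2)) (fun j => Ai j (r ^ 2)) (fun j => Di j (r ^ 2)) r)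
      (gS (fun j => Xi j (r ^ 2)) (fun j => Ai j (r ^ 2)) r) (fun j => Xi j (r ^ 2) * r ^ kj j) a ξ η σ α p q)
    (Pout : ∀ r, 1 < r → r ^ 2 < 13 / 4 → ∀ (a ξ η σ : ℝ) (α p q : ℂ), 0 ≤ floc (gT (fun j => fQo j r)
        (fun j => fE m c2 c6 c8 μ0 μ1 μ2 μ3 wo0 wo1 j (r ^ 2)) (fun j => Xo j (r ^ 2)) (fun j => Aod j (r ^ 2))
        (fun j => Do j (r ^ 2)) (fun j => Dod j (r ^ 2)) r)
      (gR (fun j => Xo j (r ^ 2)) (fun j => Xod j (r ^ 2)) (fun j => Ao j (r ^ 2)) (fun j => Do j (r ^ 2)) r)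
      (gS (fun j => Xo j (r ^ 2)) (fun j => Ao j (r ^ 2)) r) (fun j => Xo j (r ^ 2) * r ^ kj j) a ξ η σ α p q)
    (Pfar : ∀ r, 0 < r → 13 / 4 ≤ r ^ 2 → ∀ (a ξ η σ : ℝ) (α p q : ℂ), 0 ≤ floc (Tf (m / 1000000) (c2 / 1000000)
        (c6 / 1000000) (c8 / 1000000) (μ0 / 1000000) (μ1 / 1000000) (μ2 / 1000000) (μ3 / 1000000) (wf0 / 1000000)
        (wf1 / 1000000) (((180000 : ℤ) : ℝ) / 1000000) (gc (r ^ 2)) r) (fun _ => 0) (fun _ => 0) (fun _ => 0)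
        a ξ η σ α p q)
    (σ : ℝ) (α p q : ℂ) (hwi : (wi0 : ℝ) / 1000000 * σ ^ 2 + (wi1 : ℝ) / 1000000 * ‖q‖ ^ 2 ≤ 0)
    (hwo : (wo0 : ℝ) / 1000000 * σ ^ 2 + (wo1 : ℝ) / 1000000 * ‖q‖ ^ 2 ≤ 0)
    (hwf : (wf0 : ℝ) / 1000000 * σ ^ 2 + (wf1 : ℝ) / 1000000 * ‖q‖ ^ 2 ≤ 0) :
    ∀ᵐ x : E 2, ∀ (a : ℝ) (b : Fin 2 → ℝ), 0 ≤ ptf (m / 1000000) (c2 / 1000000) (c6 / 1000000) (c8 / 1000000)
      (μ0 / 1000000) (μ1 / 1000000) (μ2 / 1000000) (μ3 / 1000000) (fun j => pw (Xi j) (Xo j) (13 / 4))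
      (fun j => pw (Ai j) (Ao j) (13 / 4)) (fun j => pw (Di j) (Do j) (13 / 4)) σ α p q x a b := by
  have hz : ∀ ρ : ℝ, 0 ≤ ρ → ∀ᵐ x : E 2, ‖x‖ ≠ ρ := by
    intro ρ hρ
    have h := Measure.addHaar_sphere (volume : Measure (E 2)) (0 : E 2) ρ
    rw [measure_eq_zero_iff_ae_notMem] at h
    filter_upwards [h] with x hx hc
    exact hx (by simp [hc])
  filter_upwards [hz 0 le_rfl, hz 1 zero_le_one, hz (√(13 / 4)) (Real.sqrt_nonneg _)] with x h0 h1 h2 a b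
  have hx : x ≠ 0 := fun h => h0 (by rw [h, norm_zero])
  have hr : 0 < ‖x‖ := norm_pos_iff.2 hx
  rcases lt_or_gt_of_ne h1 with h3 | h3
  · have hs0 : 0 < ‖x‖ ^ 2 := by positivity
    have hs1 : ‖x‖ ^ 2 < 1 := by nlinarith
    exact glue_zone x hx m c2 c6 c8 μ0 μ1 μ2 μ3 wi0 wi1 _ _ _ _ _ _ _ _ _
      (fun j => (pw_in (Xi j) (Xo j) (13 / 4) _ hs1 _ (dXi j _ hs0 hs1)).1)
      (fun j => (pw_in (Ai j) (Ao j) (13 / 4) _ hs1 _ (dAi j _ hs0 hs1)).1)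
      (fun j => (pw_in (Di j) (Do j) (13 / 4) _ hs1 _ (dDi j _ hs0 hs1)).1)
      (fun j => (pw_in (Xi j) (Xo j) (13 / 4) _ hs1 _ (dXi j _ hs0 hs1)).2)
      (fun j => (pw_in (Ai j) (Ao j) (13 / 4) _ hs1 _ (dAi j _ hs0 hs1)).2)
      (fun j => (pw_in (Di j) (Do j) (13 / 4) _ hs1 _ (dDi j _ hs0 hs1)).2)
      (nF (‖x‖ ^ 2)) (deriv nF (‖x‖ ^ 2)) (pf lphi (‖x‖ ^ 2)) (pf (pder lphi) (‖x‖ ^ 2))
      (nFp_in _ hs1.le) (phi0_in _ hs1) (nFp_in_deriv _ hs1) (phi0_in_deriv _ hs1) σ α p q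
      (fun a ξ η α' p' q' => Pin ‖x‖ hr h3 a ξ η σ α' p' q') hwi a b
  · have hs1 : 1 < ‖x‖ ^ 2 := by nlinarith
    have h4 : ‖x‖ ^ 2 ≠ 13 / 4 := by
      intro h
      apply h2
      rw [← h, Real.sqrt_sq hr.le]
    rcases lt_or_gt_of_ne h4 with h5 | h5
    · exact glue_zone x hx m c2 c6 c8 μ0 μ1 μ2 μ3 wo0 wo1 _ _ _ _ _ _ _ _ _
        (fun j => (pw_mid (Xi j) (Xo j) (13 / 4) _ hs1 h5 _ (dXo j _ hs1 h5)).1)
        (fun j => (pw_mid (Ai j) (Ao j) (13 / 4) _ hs1 h5 _ (dAo j _ hs1 h5)).1)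
        (fun j => (pw_mid (Di j) (Do j) (13 / 4) _ hs1 h5 _ (dDo j _ hs1 h5)).1)
        (fun j => (pw_mid (Xi j) (Xo j) (13 / 4) _ hs1 h5 _ (dXo j _ hs1 h5)).2)
        (fun j => (pw_mid (Ai j) (Ao j) (13 / 4) _ hs1 h5 _ (dAo j _ hs1 h5)).2)
        (fun j => (pw_mid (Di j) (Do j) (13 / 4) _ hs1 h5 _ (dDo j _ hs1 h5)).2)
        (1 / ‖x‖ ^ 2) (-(1 / (‖x‖ ^ 2) ^ 2)) (9 / 50 / ‖x‖) (-(9 / 50 / (2 * ‖x‖ ^ 3)))
        (nFp_out _ hs1.le) (phi0_out _ h3) (nFp_out_deriv _ hs1) (phi0_out_deriv _ h3) σ α p q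
        (fun a ξ η α' p' q' => Pout ‖x‖ h3 h5 a ξ η σ α' p' q') hwo a b
    · refine glue_zone x hx m c2 c6 c8 μ0 μ1 μ2 μ3 wf0 wf1 _ _ _ _ _ _ _ _ _
        (fun j => (pw_far (Xi j) (Xo j) (13 / 4) _ (by norm_num) h5).1)
        (fun j => (pw_far (Ai j) (Ao j) (13 / 4) _ (by norm_num) h5).1)
        (fun j => (pw_far (Di j) (Do j) (13 / 4) _ (by norm_num) h5).1)
        (fun j => (pw_far (Xi j) (Xo j) (13 / 4) _ (by norm_num) h5).2)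
        (fun j => (pw_far (Ai j) (Ao j) (13 / 4) _ (by norm_num) h5).2)
        (fun j => (pw_far (Di j) (Do j) (13 / 4) _ (by norm_num) h5).2)
        (1 / ‖x‖ ^ 2) (-(1 / (‖x‖ ^ 2) ^ 2)) (9 / 50 / ‖x‖) (-(9 / 50 / (2 * ‖x‖ ^ 3)))
        (nFp_out _ hs1.le) (phi0_out _ h3) (nFp_out_deriv _ hs1) (phi0_out_deriv _ h3) σ α p q
        (fun a ξ η α' p' q' => ?_) hwf a b
      refine (Pfar ‖x‖ hr h5.le a ξ η σ α' p' q').trans_eq (floc_congr _ _ _ _ _ _ _ _ _ _ _ _ _ _ _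
        (fun j => ?_) (fun j => ?_) (fun j => ?_) (fun j => ?_))
      · simp only [gT, Tf, fE, Spz_Sp]
        have e : (((180000 : ℤ) : ℝ) / 1000000) = 9 / 50 := by norm_num
        rw [e]
        ring
      · simp [gR]
      · simp [gS]
      · simp

end Pool.Agent.H23.GP
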