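import Pool.Agent.H23.GP.GlueB
import Pool.Agent.H94.GP.CtA
import Pool.Agent.H94.GP.AsD

/-!
# GlueC: the certificate of one region, and the assembly of three regions
-/

set_option autoImplicit false

open MeasureTheory Pool.Agent.H94.ER Pool.Agent.H94.SP Pool.Agent.H94.GP

namespace Pool.Agent.H23.GP

/-- lower bound of the form for the parameters satisfying `R`, with margin `m` -/
def Cert (m : ℝ) (R : ℝ → ℂ → Prop) : Prop :=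
  ∃ K : ℝ, 0 ≤ K ∧ ∀ (ε : ℝ) (u : E 2 → ℝ), 0 ≤ ε → Adm ε u → ∀ (σ : ℝ) (α p q : ℂ), R σ q →
    m * (‖α‖ ^ 2 + ‖p‖ ^ 2 + ‖q‖ ^ 2) - ε * (K * nB σ α p q)
      ≤ QQ u gam (Wre nFp phi0 σ α p q) + QQ u gam (Wim nFp phi0 σ α p q)

theorem region_cert (m c2 c6 c8 μ0 μ1 μ2 μ3 wi0 wi1 wo0 wo1 wf0 wf1 : ℤ) (h0 : 0 ≤ μ0) (h1 : 0 ≤ μ1) (h2 : 0 ≤ μ2)
    (h3 : μ3 ^ 2 ≤ μ1 * μ2)
    (Xi Xid Ai Aid Di Did Xo Xod Ao Aod Do Dod : Fin 16 → ℝ → ℝ)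
    (hX : ∀ j, ContDiff ℝ 1 (pw (Xi j) (Xo j) (13 / 4))) (hA : ∀ j, LipR (pw (Ai j) (Ao j) (13 / 4)))
    (hD : ∀ j, LipR (pw (Di j) (Do j) (13 / 4)))
    (hX0 : ∀ j, Xo j (13 / 4) = 0) (hA0 : ∀ j, Ao j (13 / 4) = 0) (hD0 : ∀ j, Do j (13 / 4) = 0)
    (dXi : ∀ j s, 0 < s → s < 1 → HasDerivAt (Xi j) (Xid j s) s)
    (dAi : ∀ j s, 0 < s → s < 1 → HasDerivAt (Ai j) (Aid j s) s)
    (dDi : ∀ j s, 0 < s → s < 1 → HasDerivAt (Di j) (Did j s) s)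
    (dXo : ∀ j s, 1 < s → s < 13 / 4 → HasDerivAt (Xo j) (Xod j s) s)
    (dAo : ∀ j s, 1 < s → s < 13 / 4 → HasDerivAt (Ao j) (Aod j s) s)
    (dDo : ∀ j s, 1 < s → s < 13 / 4 → HasDerivAt (Do j) (Dod j s) s)
    (Pin : ∀ r, 0 < r → r < 1 → ∀ (a ξ η σ : ℝ) (α p q : ℂ), 0 ≤ floc (gT (fun j => fQj j (r ^ 2))
        (fun j => fE m c2 c6 c8 μ0 μ1 μ2 μ3 wi0 wi1 j (r ^ 2)) (fun j => Xi j (r ^ 2)) (fun j => Aid j (r ^ 2))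
        (fun j => Di j (r ^ 2)) (fun j => Did j (r ^ 2)) r)
      (gR (fun j => Xi j (r ^ 2)) (fun j => Xid j (r ^ 2)) (fun j => Ai j (r ^ 2)) (fun j => Di j (r ^ 2)) r)
      (gS (fun j => Xi j (r ^ 2)) (fun j => Ai j (r ^ 2)) r) (fun j => Xi j (r ^ 2) * r ^ kj j) a ξ η σ α p q)
    (Pout : ∀ r, 1 < r → r ^ 2 < 13 / 4 → ∀ (a ξ η σ : ℝ) (α p q : ℂ), 0 ≤ floc (gT (fun j => fQo j r)
        (fun j => fE m c2 c6 c8 μ0 μ1 μ2 μ3 wo0 wo1 j (r ^ 2)) (fun j => Xo j (r ^ 2)) (fun j => Aod j (r ^ 2))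
        (fun j => Do j (r ^ 2)) (fun j => Dod j (r ^ 2)) r)
      (gR (fun j => Xo j (r ^ 2)) (fun j => Xod j (r ^ 2)) (fun j => Ao j (r ^ 2)) (fun j => Do j (r ^ 2)) r)
      (gS (fun j => Xo j (r ^ 2)) (fun j => Ao j (r ^ 2)) r) (fun j => Xo j (r ^ 2) * r ^ kj j) a ξ η σ α p q)
    (Pfar : ∀ r, 0 < r → 13 / 4 ≤ r ^ 2 → ∀ (a ξ η σ : ℝ) (α p q : ℂ), 0 ≤ floc (Tf (m / 1000000) (c2 / 1000000)
        (c6 / 1000000) (c8 / 1000000) (μ0 / 1000000) (μ1 / 1000000) (μ2 / 1000000) (μ3 / 1000000) (wf0 / 1000000)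
        (wf1 / 1000000) (((180000 : ℤ) : ℝ) / 1000000) (gc (r ^ 2)) r) (fun _ => 0) (fun _ => 0) (fun _ => 0)
        a ξ η σ α p q)
    (R : ℝ → ℂ → Prop) (hR : ∀ σ q, R σ q → (wi0 : ℝ) / 1000000 * σ ^ 2 + (wi1 : ℝ) / 1000000 * ‖q‖ ^ 2 ≤ 0 ∧
      (wo0 : ℝ) / 1000000 * σ ^ 2 + (wo1 : ℝ) / 1000000 * ‖q‖ ^ 2 ≤ 0 ∧
      (wf0 : ℝ) / 1000000 * σ ^ 2 + (wf1 : ℝ) / 1000000 * ‖q‖ ^ 2 ≤ 0) :
    Cert (m / 1000000) R := by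
  have hS : (1 : ℝ) < 13 / 4 := by norm_num
  have z : ∀ (f g : Fin 16 → ℝ → ℝ), (∀ j, g j (13 / 4) = 0) → ∀ j s, (13 : ℝ) / 4 ≤ s → pw (f j) (g j) (13 / 4) s = 0 := by
    intro f g hg j s hs
    rw [pw, if_neg (not_le.2 (hS.trans_le hs))]
    rcases eq_or_lt_of_le hs with h | h
    · rw [← h, if_pos le_rfl, hg]
    · rw [if_neg (not_le.2 h)]
  have g0 : (0 : ℝ) ≤ (μ0 : ℝ) / 1000000 := by
    have : (0 : ℝ) ≤ μ0 := by exact_mod_cast h0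
    positivity
  have g1 : (0 : ℝ) ≤ (μ1 : ℝ) / 1000000 := by
    have : (0 : ℝ) ≤ μ1 := by exact_mod_cast h1
    positivity
  have g2 : (0 : ℝ) ≤ (μ2 : ℝ) / 1000000 := by
    have : (0 : ℝ) ≤ μ2 := by exact_mod_cast h2
    positivity
  have g3 : ((μ3 : ℝ) / 1000000) ^ 2 ≤ (μ1 : ℝ) / 1000000 * ((μ2 : ℝ) / 1000000) := by
    have : (μ3 : ℝ) ^ 2 ≤ μ1 * μ2 := by exact_mod_cast h3
    rw [div_pow, div_mul_div_comm, show (1000000 : ℝ) * 1000000 = 1000000 ^ 2 by norm_num]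
    exact div_le_div_of_nonneg_right this (by positivity)
  obtain ⟨K, hK0, hK⟩ := cert_int phi0 contDiff_phi0 (m / 1000000) (c2 / 1000000) (c6 / 1000000) (c8 / 1000000)
    (μ0 / 1000000) (μ1 / 1000000) (μ2 / 1000000) (μ3 / 1000000) g0 g1 g2 g3 (fun j => pw (Xi j) (Xo j) (13 / 4))
    (fun j => pw (Ai j) (Ao j) (13 / 4)) (fun j => pw (Di j) (Do j) (13 / 4)) (13 / 4) (by norm_num) hX
    (z Xi Xo hX0) hA hD (z Ai Ao hA0) (z Di Do hD0)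
  refine ⟨K, hK0, fun ε u hε hu σ α p q hRq => ?_⟩
  obtain ⟨w1, w2, w3⟩ := hR σ q hRq
  exact hK ε u hε hu σ α p q (glue_ae m c2 c6 c8 μ0 μ1 μ2 μ3 wi0 wi1 wo0 wo1 wf0 wf1 Xi Xid Ai Aid Di Did Xo Xod Ao
    Aod Do Dod dXi dAi dDi dXo dAo dDo Pin Pout Pfar σ α p q w1 w2 w3)

theorem assemble (m : ℝ) (hm : 0 < m) (R1 R2 R3 : ℝ → ℂ → Prop) (hR : ∀ σ q, R1 σ q ∨ R2 σ q ∨ R3 σ q)
    (h1 : Cert m R1) (h2 : Cert m R2) (h3 : Cert m R3) (Ω : Set (E 2)) (hΩ : IsOpen Ω) (hne : Ω.Nonempty) :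
    0 < dirEig (uball 2) 1 ∧
      dirEig Ω 4 * dirEig (uball 2) 1 ≤ dirEig (uball 2) 4 * dirEig Ω 1 := by
  refine main_all ?_ Ω hΩ hne
  clear hne hΩ Ω
  intro Ω hΩ hne hb
  obtain ⟨b, hb0, hb1⟩ := phi0_bound
  obtain ⟨K1, k1, c1⟩ := h1
  obtain ⟨K2, k2, c2⟩ := h2
  obtain ⟨K3, k3, c3⟩ := h3
  have HC : ∀ θ : ℝ, 0 < θ → ∃ ε0 : ℝ, 0 < ε0 ∧ ∀ u, Adm ε0 u → ∀ (σ : ℝ) (α p q : ℂ),
      m * (‖α‖ ^ 2 + ‖p‖ ^ 2 + ‖q‖ ^ 2) - θ * (σ ^ 2 + ‖α‖ ^ 2 + ‖p‖ ^ 2 + ‖q‖ ^ 2)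
        ≤ QQ u gam (Wre nFp phi0 σ α p q) + QQ u gam (Wim nFp phi0 σ α p q) := by
    intro θ hθ
    refine ⟨θ / (K1 + K2 + K3 + 1), by positivity, fun u hu σ α p q => ?_⟩
    have hn : 0 ≤ nB σ α p q := by unfold nB; positivity
    have e0 : 0 ≤ θ / (K1 + K2 + K3 + 1) := by positivity
    have e1 : ∀ K, 0 ≤ K → K ≤ K1 + K2 + K3 + 1 → θ / (K1 + K2 + K3 + 1) * (K * nB σ α p q)
        ≤ θ * (σ ^ 2 + ‖α‖ ^ 2 + ‖p‖ ^ 2 + ‖q‖ ^ 2) := by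
      intro K _ hK2
      have e2 : θ / (K1 + K2 + K3 + 1) * ((K1 + K2 + K3 + 1) * nB σ α p q) = θ * nB σ α p q := by
        field_simp
      calc θ / (K1 + K2 + K3 + 1) * (K * nB σ α p q)
          ≤ θ / (K1 + K2 + K3 + 1) * ((K1 + K2 + K3 + 1) * nB σ α p q) :=
            mul_le_mul_of_nonneg_left (mul_le_mul_of_nonneg_right hK2 hn) e0
        _ = θ * nB σ α p q := e2
        _ = _ := rfl
    rcases hR σ q with h | h | h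
    · have := c1 _ u e0 hu σ α p q h
      have := e1 K1 k1 (by linarith)
      linarith
    · have := c2 _ u e0 hu σ α p q h
      have := e1 K2 k2 (by linarith)
      linarith
    · have := c3 _ u e0 hu σ α p q h
      have := e1 K3 k3 (by linarith)
      linarith
  by_contra hcon
  push Not at hcon
  obtain ⟨δ, hδ⟩ : ∃ δ : ℝ, δ = min (m / (12 * (1 + b ^ 2))) ((dirEig Ω 4 - bz 6) / 2) := ⟨_, rfl⟩
  have d1 : 0 < δ := by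
    rw [hδ]
    exact lt_min (by positivity) (by linarith)
  have d2 : 12 * δ * (1 + b ^ 2) ≤ m := by
    have : δ ≤ m / (12 * (1 + b ^ 2)) := by rw [hδ]; exact min_le_left _ _
    rw [le_div_iff₀ (by positivity)] at this
    linarith
  have d3 : δ ≤ (dirEig Ω 4 - bz 6) / 2 := by rw [hδ]; exact min_le_right _ _
  have h := general_small phi0 contDiff_phi0 b hb0 hb1 m hm HC δ d1 d2 Ω hΩ hne hb
  linarith

/-- the three regions -/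
def RI (σ : ℝ) (q : ℂ) : Prop := ‖q‖ ^ 2 ≤ σ ^ 2
/-- the three regions -/
def RII (σ : ℝ) (q : ℂ) : Prop := σ ^ 2 ≤ ‖q‖ ^ 2 ∧ ‖q‖ ^ 2 ≤ 49 / 25 * σ ^ 2
/-- the three regions -/
def RIII (σ : ℝ) (q : ℂ) : Prop := 49 / 25 * σ ^ 2 ≤ ‖q‖ ^ 2

theorem R_all (σ : ℝ) (q : ℂ) : RI σ q ∨ RII σ q ∨ RIII σ q := by
  unfold RI RII RIII
  rcases le_total (‖q‖ ^ 2) (σ ^ 2) with h | h
  · exact Or.inl h
  · rcases le_total (‖q‖ ^ 2) (49 / 25 * σ ^ 2) with h2 | h2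
    · exact Or.inr (Or.inl ⟨h, h2⟩)
    · exact Or.inr (Or.inr h2)

end Pool.Agent.H23.GP
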