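import Pool.Agent.H94.GP.HpF

/-!
# HpN: Taylor models of `(nF + s nF')/(1 - s)`, `(1 - nh)/(1 - s)^2`, `2 u'/u`

`h = nh = s nF`, `h' = nhs`, `U = (1 - s) u`. By the equation of the profile `U (4 h'' + 4 F' + gam F) + 8 U' h' = 0`; for
`δ = U^2 h' - (1 - s) U^2 P` this gives `δ' = (1 - s)^2 u^2 E`, `4 E = - 4 F' - gam F + 12 P - 4 (1 - s)(G1 P + P')`, and `δ 1 = 0`.
-/

set_option autoImplicit false

open Pool.Agent.H94.ER Pool.Agent.H94.SP Pool.Agent.H94.GP

namespace Pool.Agent.H23.GP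

/-- `gam` -/
def tmgam : TM := ⟨[20591430464216606], 1000⟩

/-- `2 u'/u` -/
def tmG : TM :=
  ⟨[-891592981473392, -90327492626545, -14792102219931, -2673303780591, -498278518649, -93909139972, -17773754323,
  -3369552737, -639224885, -121297331, -23019497, -4368773, -829146, -157364, -29866, -5668, -1076, -204, -39, -7,
  -1], 10000000⟩

/-- `(nF + s nF')/(1 - s)` -/
def tmN : TM :=
  ⟨[2359510144526601, -1189609384826670, 237160916103706, -26180645011336, 1828057065153, -92408870566, 2750738591,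
  -197799749, -20606603, -4744071, -972686, -199816, -40788, -8285, -1676, -338, -68, -14, -3, -1], 200000000⟩

/-- `(1 - nh)/(1 - s)^2` -/
def tmK : TM :=
  ⟨[1000000000000000, -359510144526601, 55539475623433, -5001004536657, 293905582012, -12924714616, 322644709,
  -24225845, -2529107, -520497, -98139, -18635, -3537, -671, -127, -24, -5, -1], 200000000⟩

theorem ok_gam : tmgam.ok DD (fun _ => gam) := by
  intro s _ _
  have a1 := bz2_lo'
  have a2 := bz2_hi'
  have a3 := bz6_lo'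
  have a4 := bz6_hi'
  simp only [tmgam, pev, gam, DD]
  push_cast
  rw [abs_le]
  constructor <;> linarith

theorem ok_G : tmG.ok DD (fun s => 2 * deriv (uh 2) s / uh 2 s) := by
  have h2 := TM.ok_smul DD 2 _ _ ok_du
  have h := TM.ok_div DD (624 * 10 ^ 12) (by decide +kernel) (by norm_num) _
    tmu tmG _ (uh 2) h2 ok_u ok_u_low (by decide +kernel)
  refine TM.ok_congr DD _ _ _ h fun s _ _ => ?_
  push_cast
  rfl

/-- `u` decreases -/
theorem du_nonpos (s : ℝ) (h0 : 0 ≤ s) (h1 : s ≤ 1) : deriv (uh 2) s ≤ 0 := by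
  have h := TM.lower DD 0 (tmdu.smul (-1)) _ (TM.ok_smul DD (-1) _ _ ok_du) (by decide +kernel) s h0 h1
  have hD : (0 : ℝ) < DD := by norm_num [DD]
  push_cast at h
  nlinarith

/-- comparison -/
theorem cmp (d d' B B' : ℝ → ℝ) (hd : ∀ s ∈ Set.Icc (0 : ℝ) 1, HasDerivAt d (d' s) s)
    (hB : ∀ s ∈ Set.Icc (0 : ℝ) 1, HasDerivAt B (B' s) s) (h : ∀ s ∈ Set.Icc (0 : ℝ) 1, |d' s| ≤ -B' s)
    (hd1 : d 1 = 0) (hB1 : B 1 = 0) (s : ℝ) (h0 : 0 ≤ s) (h1 : s ≤ 1) : |d s| ≤ B s := by
  have key : ∀ e e' : ℝ → ℝ, (∀ s ∈ Set.Icc (0 : ℝ) 1, HasDerivAt e (e' s) s) →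
      (∀ s ∈ Set.Icc (0 : ℝ) 1, e' s ≤ -B' s) → (∀ s ∈ Set.Icc (0 : ℝ) 1, -e' s ≤ -B' s) → e 1 = 0 → e s ≤ B s := by
    intro e e' he h3 h4 h5
    have hm : MonotoneOn (fun t => e t - B t) (Set.Icc 0 1) := by
      refine monotoneOn_of_deriv_nonneg (convex_Icc 0 1)
        (fun t ht => ((he t ht).sub (hB t ht)).continuousAt.continuousWithinAt)
        (fun t ht => ((he t (interior_subset ht)).sub (hB t (interior_subset ht))).differentiableAt.differentiableWithinAt) ?_
      intro t ht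
      have ht' := interior_subset ht
      have := ((he t ht').sub (hB t ht')).deriv
      have e2 : deriv (fun t => e t - B t) t = e' t - B' t := this
      rw [e2]
      linarith [h4 t ht']
    have := hm ⟨h0, h1⟩ (⟨zero_le_one, le_rfl⟩ : (1 : ℝ) ∈ Set.Icc (0 : ℝ) 1) h1
    simp only [h5, hB1] at this
    linarith
  rw [abs_le]
  constructor
  · have := key (fun t => -d t) (fun t => -d' t) (fun t ht => (hd t ht).neg)
      (fun t ht => (neg_le_abs _).trans (h t ht)) (fun t ht => by simpa using (le_abs_self _).trans (h t ht)) (by simp [hd1])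
    linarith
  · exact key d d' hd (fun t ht => (le_abs_self _).trans (h t ht)) (fun t ht => (neg_le_abs _).trans (h t ht)) hd1

theorem HpN_nhs (s : ℝ) (h1 : s ≤ 1) : ∃ h2 : ℝ, HasDerivAt nhs h2 s ∧
    bj 2 (bz 2 * s) * (4 * h2 + 4 * deriv nF s + gam * nF s) + 8 * (uder 2 s * nhs s) = 0 := by
  have hr := NF_rho_pos
  have e1 : deriv nF = fun t => deriv (F0 2 2) t / F0 2 2 1 := by
    funext t
    have h5 : nF = fun t => F0 2 2 t / F0 2 2 1 := rfl
    rw [h5, deriv_div_const]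
  have hc : ContDiffAt ℝ (2 : ℕ) (F0 2 2) s := F0_smooth 2 2 le_rfl s h1 2
  have hdd : HasDerivAt (deriv (F0 2 2)) (deriv (deriv (F0 2 2)) s) s :=
    ((PrC_contDiffAt_deriv hc).differentiableAt (by norm_num)).hasDerivAt
  have hd : HasDerivAt nF (deriv nF s) s := (NF_nF_diff s h1).hasDerivAt
  have hdd2 : HasDerivAt (deriv nF) (deriv (deriv (F0 2 2)) s / F0 2 2 1) s := by
    rw [e1]
    exact hdd.div_const _
  have hode := profile_ode 2 2 le_rfl s h1
  refine ⟨deriv nF s + (1 * deriv nF s + s * (deriv (deriv (F0 2 2)) s / F0 2 2 1)), ?_, ?_⟩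
  · exact hd.add ((hasDerivAt_id' s).mul hdd2)
  · have e2 : nF s = F0 2 2 s / F0 2 2 1 := rfl
    have e3 : deriv nF s = deriv (F0 2 2) s / F0 2 2 1 := congrFun e1 s
    unfold nhs
    rw [e3, e2]
    norm_num at hode
    unfold gam
    field_simp
    linear_combination hode

/-- atoms of the defect -/
noncomputable def fN : ℕ → ℝ → ℝ
  | 0 => nF
  | 1 => deriv nF
  | 2 => fun s => 2 * deriv (uh 2) s / uh 2 s
  | 3 => fun s => pev tmN.p s / DD
  | 4 => fun s => pev (HpU_der tmN.p) s / DD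
  | _ => fun _ => gam

/-- their models -/
def envN : ℕ → TM
  | 0 => tmF
  | 1 => tmdF
  | 2 => tmG
  | 3 => ⟨tmN.p, 0⟩
  | 4 => ⟨HpU_der tmN.p, 0⟩
  | _ => tmgam

theorem ok_pol (l : List ℤ) : (⟨l, 0⟩ : TM).ok DD (fun s => pev l s / DD) := by
  intro s _ _
  have hD : (DD : ℝ) ≠ 0 := by norm_num [DD]
  have : (DD : ℝ) * (pev l s / DD) - pev l s = 0 := by
    rw [mul_div_cancel₀ _ hD]; ring
  simp [this]

theorem envN_ok (i : ℕ) : (envN i).ok DD (fN i) := by
  rcases i with _ | _ | _ | _ | _ | i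
  · exact ok_F
  · exact ok_dF
  · exact ok_G
  · exact ok_pol _
  · exact ok_pol _
  · exact ok_gam

/-- `4 E` -/
def exE : Ex :=
  .add (.add (.smul (-4) (.atm 1)) (.smul (-1) (.mul (.atm 5) (.atm 0))))
    (.add (.smul 12 (.atm 3)) (.smul (-4) (.mul (.add (.int 1) (.smul (-1) .var)) (.add (.mul (.atm 2) (.atm 3)) (.atm 4)))))

theorem exE_le (s : ℝ) (h0 : 0 ≤ s) (h1 : s ≤ 1) : |exE.ev DD fN s| ≤ 12 * (200000000 / DD) := by
  have hD : (0 : ℝ) < DD := by norm_num [DD]
  have h := Ex.ok DD 30 (by decide +kernel) envN fN envN_ok exE s h0 h1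
  have h2 := abs_pev_le (exE.tm DD 30 envN).p s h0 h1
  have h3 : ((sabs (exE.tm DD 30 envN).p + (exE.tm DD 30 envN).e : ℕ) : ℝ) ≤ ((12 * 200000000 : ℕ) : ℝ) := by
    exact_mod_cast (by decide +kernel : sabs (exE.tm DD 30 envN).p + (exE.tm DD 30 envN).e ≤ 12 * 200000000)
  have h4 : |(DD : ℝ) * exE.ev DD fN s| ≤ 12 * 200000000 := by
    have e : (DD : ℝ) * exE.ev DD fN s = (DD * exE.ev DD fN s - pev (exE.tm DD 30 envN).p s) + pev (exE.tm DD 30 envN).p s := by
      ring
    rw [e]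
    refine (abs_add_le _ _).trans ((add_le_add h h2).trans ?_)
    push_cast at h3
    linarith
  rw [abs_mul, abs_of_pos hD] at h4
  rw [← mul_div_assoc, le_div_iff₀ hD]
  linarith

theorem uh_deriv (s : ℝ) : HasDerivAt (uh 2) (deriv (uh 2) s) s :=
  ((contDiff_uh 2 le_rfl 1).differentiable (by norm_num) s).hasDerivAt

theorem uder_eq (s : ℝ) : uder 2 s = -uh 2 s + (1 - s) * deriv (uh 2) s := by
  have h1 : HasDerivAt (fun t => bj 2 (bz 2 * t)) (uder 2 s) s := by
    have := hasDerivAt_U 2 le_rfl s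
    simpa using this
  have h2 : HasDerivAt (fun t => (1 - t) * uh 2 t) ((-1) * uh 2 s + (1 - s) * deriv (uh 2) s) s :=
    ((hasDerivAt_id' s).const_sub 1).mul (uh_deriv s)
  have e : (fun t => bj 2 (bz 2 * t)) = fun t => (1 - t) * uh 2 t := by
    funext t
    exact uh_mul 2 le_rfl t
  rw [e] at h1
  rw [h1.unique h2]
  ring

theorem nhs_approx (s : ℝ) (h0 : 0 ≤ s) (h1 : s < 1) :
    |nhs s / (1 - s) - pev tmN.p s / DD| ≤ 200000000 / (DD : ℝ) := by
  have hD : (0 : ℝ) < DD := by norm_num [DD]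
  obtain ⟨c, hc⟩ : ∃ c : ℝ, c = 200000000 / DD := ⟨_, rfl⟩
  obtain ⟨P, hP⟩ : ∃ P : ℝ → ℝ, P = fun s => pev tmN.p s / DD := ⟨_, rfl⟩
  obtain ⟨P', hP'⟩ : ∃ P' : ℝ → ℝ, P' = fun s => pev (HpU_der tmN.p) s / DD := ⟨_, rfl⟩
  have hPd : ∀ s, HasDerivAt P (P' s) s := fun s => by
    rw [hP, hP']
    exact (HpU_hasDerivAt tmN.p s).div_const _
  have hU : ∀ s, HasDerivAt (fun t => bj 2 (bz 2 * t)) (uder 2 s) s := fun s => by
    have := hasDerivAt_U 2 le_rfl s
    simpa using this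
  have hmul : ∀ s, bj 2 (bz 2 * s) = (1 - s) * uh 2 s := fun s => uh_mul 2 le_rfl s
  -- the second derivative
  have hn : ∀ s, ∃ h2 : ℝ, s ≤ 1 → HasDerivAt nhs h2 s ∧
      bj 2 (bz 2 * s) * (4 * h2 + 4 * deriv nF s + gam * nF s) + 8 * (uder 2 s * nhs s) = 0 := fun s => by
    by_cases hs : s ≤ 1
    · obtain ⟨h2, ha, hb⟩ := HpN_nhs s hs
      exact ⟨h2, fun _ => ⟨ha, hb⟩⟩
    · exact ⟨0, fun h => absurd h hs⟩
  choose H2 hH2 using hn
  have hk := cmp (fun s => bj 2 (bz 2 * s) ^ 2 * nhs s - (1 - s) * bj 2 (bz 2 * s) ^ 2 * P s)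
    (fun s => (1 - s) ^ 2 * uh 2 s ^ 2 * (exE.ev DD fN s / 4))
    (fun s => c * ((1 - s) ^ 3 * uh 2 s ^ 2))
    (fun s => c * (-(3 * (1 - s) ^ 2) * uh 2 s ^ 2 + (1 - s) ^ 3 * (2 * uh 2 s * deriv (uh 2) s)))
    (fun s hs => by
      obtain ⟨ha, hb⟩ := hH2 s hs.2
      have d1 := ((hU s).pow 2).mul ha
      have d2 := (((hasDerivAt_id' s).const_sub 1).mul ((hU s).pow 2)).mul (hPd s)
      refine (d1.sub d2).congr_deriv ?_
      have e1 : exE.ev DD fN s = -4 * deriv nF s - gam * nF s + 12 * P s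
          - 4 * (1 - s) * (2 * deriv (uh 2) s / uh 2 s * P s + P' s) := by
        simp only [exE, Ex.ev, fN, hP, hP']
        push_cast
        ring
      rw [e1]
      have hup := NF_u_pos s hs.2
      have hum := hmul s
      have hud := uder_eq s
      have e2 : (1 - s) * uh 2 s * (4 * H2 s + 4 * deriv nF s + gam * nF s) = -(8 * (uder 2 s * nhs s)) := by
        rw [← hum]; linarith
      have e3 : uh 2 s * (2 * deriv (uh 2) s / uh 2 s * P s + P' s) = 2 * deriv (uh 2) s * P s + uh 2 s * P' s := by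
        field_simp
      simp only [Nat.cast_ofNat, Nat.add_one_sub_one, pow_one, Pi.mul_apply, Pi.pow_apply]
      rw [hum]
      have e4 : (1 - s) ^ 2 * uh 2 s ^ 2 * ((-4 * deriv nF s - gam * nF s + 12 * P s
          - 4 * (1 - s) * (2 * deriv (uh 2) s / uh 2 s * P s + P' s)) / 4)
          = (1 - s) ^ 2 * uh 2 s ^ 2 * ((-4 * deriv nF s - gam * nF s + 12 * P s) / 4)
            - (1 - s) ^ 3 * uh 2 s * (uh 2 s * (2 * deriv (uh 2) s / uh 2 s * P s + P' s)) := by ring
      rw [e4, e3]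
      rw [hud] at e2 ⊢
      linear_combination ((1 - s) * uh 2 s / 4) * e2)
    (fun s hs => by
      have d1 := (((hasDerivAt_id' s).const_sub 1).pow 3).mul ((uh_deriv s).pow 2)
      refine (d1.const_mul c).congr_deriv ?_
      simp only [Nat.cast_ofNat, Nat.add_one_sub_one, pow_one, Pi.mul_apply, Pi.pow_apply]
      ring)
    (fun s hs => by
      have h3 := exE_le s hs.1 hs.2
      rw [← hc] at h3
      have hup := NF_u_pos s hs.2
      have hdn := du_nonpos s hs.1 hs.2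
      have hc0 : 0 ≤ c := by rw [hc]; positivity
      have h1s : 0 ≤ 1 - s := by linarith [hs.2]
      rw [abs_mul, abs_div, abs_of_nonneg (by positivity : (0 : ℝ) ≤ (1 - s) ^ 2 * uh 2 s ^ 2), abs_of_pos (by norm_num : (0 : ℝ) < 4)]
      have h5 : (1 - s) ^ 2 * uh 2 s ^ 2 * (|exE.ev DD fN s| / 4) ≤ (1 - s) ^ 2 * uh 2 s ^ 2 * (3 * c) :=
        mul_le_mul_of_nonneg_left (by linarith) (by positivity)
      have h6 : 0 ≤ c * ((1 - s) ^ 3 * (2 * uh 2 s * -deriv (uh 2) s)) := by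
        have : 0 ≤ -deriv (uh 2) s := by linarith
        positivity
      nlinarith)
    (by
      have : bj 2 (bz 2 * 1) = 0 := by rw [hmul]; ring
      simp only [this]
      ring) (by simp) s h0 h1.le
  have hup := NF_u_pos s h1.le
  have ht : 0 < 1 - s := by linarith
  rw [hmul] at hk
  have e5 : ((1 - s) * uh 2 s) ^ 2 * nhs s - (1 - s) * ((1 - s) * uh 2 s) ^ 2 * P s
      = ((1 - s) ^ 3 * uh 2 s ^ 2) * (nhs s / (1 - s) - P s) := by
    field_simp
  rw [e5, abs_mul, abs_of_nonneg (by positivity : (0 : ℝ) ≤ (1 - s) ^ 3 * uh 2 s ^ 2), mul_comm c] at hk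
  have hk2 := le_of_mul_le_mul_left hk (by positivity)
  rw [hP, hc] at hk2
  exact hk2

/-- `(nF + s nF')/(1 - s)` -/
noncomputable def N1f (s : ℝ) : ℝ := if s < 1 then nhs s / (1 - s) else pev tmN.p s / DD

theorem ok_N : tmN.ok DD N1f := by
  intro s h0 h1
  have hD : (0 : ℝ) < DD := by norm_num [DD]
  unfold N1f
  split_ifs with h
  · have h2 := nhs_approx s h0 h
    have e : (DD : ℝ) * (nhs s / (1 - s)) - pev tmN.p s = DD * (nhs s / (1 - s) - pev tmN.p s / DD) := by
      field_simp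
    rw [e, abs_mul, abs_of_pos hD]
    rw [le_div_iff₀ hD] at h2
    have e2 : ((tmN.e : ℕ) : ℝ) = 200000000 := by norm_num [tmN]
    rw [e2]
    linarith
  · have : (DD : ℝ) * (pev tmN.p s / DD) - pev tmN.p s = 0 := by
      rw [mul_div_cancel₀ _ hD.ne']; ring
    rw [this, abs_zero]
    positivity

/-- `2 K - (1 - s) K' - N` -/
def lK : List ℤ := padd (padd (tmK.p.map (2 * ·)) (pmul [-1, 1] (HpU_der tmK.p))) (tmN.p.map ((-1) * ·))

theorem K_approx (s : ℝ) (h0 : 0 ≤ s) (h1 : s < 1) :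
    |(1 - nh s) / (1 - s) ^ 2 - pev tmK.p s / DD| ≤ 200000000 / (DD : ℝ) := by
  have hD : (0 : ℝ) < DD := by norm_num [DD]
  have hKd : ∀ s, HasDerivAt (fun s => pev tmK.p s / DD) (pev (HpU_der tmK.p) s / DD) s := fun s =>
    (HpU_hasDerivAt tmK.p s).div_const _
  have hlK : ∀ s : ℝ, 0 ≤ s → s ≤ 1 → |2 * pev tmK.p s - (1 - s) * pev (HpU_der tmK.p) s - pev tmN.p s| ≤ 100000000 := by
    intro s h0 h1
    have h2 := abs_pev_le lK s h0 h1
    have e : pev lK s = 2 * pev tmK.p s - (1 - s) * pev (HpU_der tmK.p) s - pev tmN.p s := by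
      unfold lK
      rw [pev_padd, pev_padd, pev_map, pev_map, pev_pmul]
      simp only [pev]
      push_cast
      ring
    rw [e] at h2
    refine h2.trans ?_
    exact_mod_cast (by decide +kernel : sabs lK ≤ 100000000)
  have hk := cmp (fun s => 1 - nh s - (1 - s) ^ 2 * (pev tmK.p s / DD))
    (fun s => -(nhs s - (1 - s) * ((2 * pev tmK.p s - (1 - s) * pev (HpU_der tmK.p) s) / DD)))
    (fun s => 300000000 / DD / 2 * (1 - s) ^ 2)
    (fun s => -(300000000 / DD * (1 - s)))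
    (fun s hs => by
      have d1 := (NF_nh_deriv s hs.2).const_sub 1
      have d2 := (((hasDerivAt_id' s).const_sub 1).pow 2).mul (hKd s)
      refine (d1.sub d2).congr_deriv ?_
      simp only [Nat.cast_ofNat, Nat.add_one_sub_one, pow_one, Pi.mul_apply, Pi.pow_apply]
      ring)
    (fun s hs => by
      have d1 := (((hasDerivAt_id' s).const_sub 1).pow 2).const_mul (300000000 / (DD : ℝ) / 2)
      refine d1.congr_deriv ?_
      simp only [Nat.cast_ofNat, Nat.add_one_sub_one, pow_one, Pi.mul_apply, Pi.pow_apply]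
      ring)
    (fun s hs => by
      have h3 := hlK s hs.1 hs.2
      rw [abs_neg, neg_neg]
      rcases hs.2.lt_or_eq with h4 | h4
      · have h5 := nhs_approx s hs.1 h4
        have ht : 0 < 1 - s := by linarith
        have e : nhs s - (1 - s) * ((2 * pev tmK.p s - (1 - s) * pev (HpU_der tmK.p) s) / DD)
            = (1 - s) * ((nhs s / (1 - s) - pev tmN.p s / DD)
              - (2 * pev tmK.p s - (1 - s) * pev (HpU_der tmK.p) s - pev tmN.p s) / DD) := by
          field_simp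
          ring
        rw [e, abs_mul, abs_of_pos ht, mul_comm]
        refine mul_le_mul_of_nonneg_right ?_ ht.le
        refine (abs_sub _ _).trans ?_
        rw [abs_div, abs_of_pos hD]
        have h6 := div_le_div_of_nonneg_right h3 hD.le
        have e7 : (300000000 : ℝ) / DD = 200000000 / DD + 100000000 / DD := by ring
        rw [e7]
        exact add_le_add h5 h6
      · subst h4
        have h3 : deriv nF 1 = -1 := by
          have h4 : deriv nF 1 = deriv (F0 2 2) 1 / F0 2 2 1 := by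
            have h5 : nF = fun t => F0 2 2 t / F0 2 2 1 := rfl
            rw [h5, deriv_div_const]
          rw [h4, F0_deriv_one 2 2 le_rfl]
          have := NF_rho_pos.ne'
          field_simp
          norm_num
        unfold nhs
        rw [NF_nF_one, h3]
        norm_num)
    (by simp [nh, NF_nF_one]) (by simp) s h0 h1.le
  have ht : 0 < 1 - s := by linarith
  have e5 : 1 - nh s - (1 - s) ^ 2 * (pev tmK.p s / DD)
      = (1 - s) ^ 2 * ((1 - nh s) / (1 - s) ^ 2 - pev tmK.p s / DD) := by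
    field_simp
  rw [e5, abs_mul, abs_of_nonneg (by positivity : (0 : ℝ) ≤ (1 - s) ^ 2), mul_comm (300000000 / (DD : ℝ) / 2)] at hk
  have hk2 := le_of_mul_le_mul_left hk (by positivity)
  refine hk2.trans ?_
  rw [div_div, div_le_div_iff₀ (by positivity) hD]
  nlinarith

/-- `(1 - nh)/(1 - s)^2` -/
noncomputable def Kf (s : ℝ) : ℝ := if s < 1 then (1 - nh s) / (1 - s) ^ 2 else pev tmK.p s / DD

theorem ok_K : tmK.ok DD Kf := by
  intro s h0 h1
  have hD : (0 : ℝ) < DD := by norm_num [DD]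
  unfold Kf
  split_ifs with h
  · have h2 := K_approx s h0 h
    have e : (DD : ℝ) * ((1 - nh s) / (1 - s) ^ 2) - pev tmK.p s = DD * ((1 - nh s) / (1 - s) ^ 2 - pev tmK.p s / DD) := by
      field_simp
    rw [e, abs_mul, abs_of_pos hD]
    rw [le_div_iff₀ hD] at h2
    have e2 : ((tmK.e : ℕ) : ℝ) = 200000000 := by norm_num [tmK]
    rw [e2]
    linarith
  · have : (DD : ℝ) * (pev tmK.p s / DD) - pev tmK.p s = 0 := by
      rw [mul_div_cancel₀ _ hD.ne']; ring
    rw [this, abs_zero]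
    positivity

/-- the logarithmic derivative -/
theorem G_g1 (s : ℝ) (h1 : s < 1) : 2 * deriv (uh 2) s / uh 2 s = 2 * (uder 2 s / bj 2 (bz 2 * s)) + 2 / (1 - s) := by
  have hup := NF_u_pos s h1.le
  have ht : 0 < 1 - s := by linarith
  rw [uder_eq, uh_mul 2 le_rfl]
  field_simp
  ring

end Pool.Agent.H23.GP
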