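import Mathlib

/-!
# RegA: exactness of the `σ` components inside the disk, algebra

`g = U'/U = G/2 - 1/(1-s)`, `g' = -(4 g + l)/(4 s) - g^2`, `F2 = F''` from the equation of the profile. `e` = value of the additional term.
`y, y1, y2` = value and derivatives of the polynomial `y`.
-/

set_option autoImplicit false

namespace Pool.Agent.H23.GP

/-- `2 Y' + 4 g Y`, `Y = (1-s) y` -/
def wy (s G y y1 : ℝ) : ℝ := -6 * y + 2 * (1 - s) * y1 + 2 * (1 - s) * G * y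

/-- its derivative -/
def wyd (s G Gd y y1 y2 : ℝ) : ℝ :=
  -6 * y1 + 2 * (-y1 + (1 - s) * y2) + 2 * (-G * y + (1 - s) * Gd * y + (1 - s) * G * y1)

/-- `4 g (1-s) p` -/
def vp (s G p : ℝ) : ℝ := (2 * (1 - s) * G - 4) * p

/-- its derivative -/
def vpd (s G Gd p p1 : ℝ) : ℝ := 2 * (-G + (1 - s) * Gd) * p + (2 * (1 - s) * G - 4) * p1

/-- derivative of `G` -/
noncomputable def gd (s g l : ℝ) : ℝ := -(4 * g + l) / (2 * s) - 2 * g ^ 2 + 2 / (1 - s) ^ 2

theorem ex0 (s l gam g F F1 F2 : ℝ) (hs : s ≠ 0)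
    (ode : 4 * s * F2 + 12 * F1 + gam * F + g * (8 * s * F1 + 8 * F) = 0) :
    (gam * s ^ 2 * F ^ 2 - 4 * s * (F + s * F1) ^ 2 - 4 * s * F ^ 2) - l * (1 - (s * F) ^ 2)
      - (2 * s * (-2 * ((F + s * F1) ^ 2 + s * F * (2 * F1 + s * F2))
          + 2 * ((-(4 * g + l) / (4 * s) - g ^ 2) * (1 - (s * F) ^ 2) + g * (-2 * (s * F) * (F + s * F1))))
        + 2 * (-2 * (s * F) * (F + s * F1) + 2 * g * (1 - (s * F) ^ 2)))
    = 4 * g * (s * (-2 * (s * F) * (F + s * F1) + 2 * g * (1 - (s * F) ^ 2)) - s * (-2 * (s * F) * (F + s * F1)))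
      - 4 * s * g ^ 2 * (1 - (s * F) ^ 2) := by
  field_simp
  linear_combination (4 * s ^ 2 * F) * ode

theorem ex1 (s l gam g G F F1 F2 y y1 y2 p p1 : ℝ) (hs : s ≠ 0) (h1 : 1 - s ≠ 0) (hG : G = 2 * g + 2 / (1 - s))
    (ode : 4 * s * F2 + 12 * F1 + gam * F + g * (8 * s * F1 + 8 * F) = 0) :
    2 * gam * F - l * (2 * (1 - s) * p)
      - (2 * 2 * (-2 * F1 + ((-y + (1 - s) * y1) + 1 / 2 * wy s G y y1 + s / 2 * wyd s G (gd s g l) y y1 y2))
        + 2 * s * (-4 * F2 - wyd s G (gd s g l) y y1 y2 + vpd s G (gd s g l) p p1)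
        + (2 + 2) * (-4 * F1 - wy s G y y1 + vp s G p))
    = 4 * g * (2 * (-2 * F + ((1 - s) * y + s / 2 * wy s G y y1)) + s * (-4 * F1 - wy s G y y1 + vp s G p)
        - s * (2 * (-p + (1 - s) * p1)) - 1 / 2 * 2 * (2 * (1 - s) * p))
      - 4 * s * g ^ 2 * (2 * (1 - s) * p) := by
  subst hG
  unfold wy wyd vp vpd gd
  field_simp
  linear_combination (2 : ℝ) * (1 - s) * ode

theorem ex2 (s l gam g G F F1 F2 f f1 y y1 y2 p p1 c c1 k : ℝ) (hs : s ≠ 0) (h1 : 1 - s ≠ 0)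
    (hG : G = 2 * g + 2 / (1 - s))
    (ode : 4 * s * F2 + 12 * F1 + gam * F + g * (8 * s * F1 + 8 * F) = 0) :
    (2 * gam * s * F * f - 4 * (F + s * F1) * (f + 2 * s * f1) - 4 * F * f) + -(c * k) - l * (2 * (1 - s) * p)
      - (2 * 1 * (-4 * (F * f + s * F1 * f + s * F * f1) + ((-y + (1 - s) * y1) + wy s G y y1
            + s * wyd s G (gd s g l) y y1 y2) + k * (c + s * c1))
        + 2 * s * (-4 * (F1 * f + s * F2 * f + s * F1 * f1) - wyd s G (gd s g l) y y1 y2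
            + vpd s G (gd s g l) p p1 - k * c1)
        + (1 + 2) * (-4 * s * F1 * f - wy s G y y1 + vp s G p - k * c))
    = 4 * g * (1 * (-4 * s * F * f + ((1 - s) * y + s * wy s G y y1) + k * (s * c))
        + s * (-4 * s * F1 * f - wy s G y y1 + vp s G p - k * c)
        - s * (2 * (-p + (1 - s) * p1)) - 1 / 2 * 1 * (2 * (1 - s) * p))
      - 4 * s * g ^ 2 * (2 * (1 - s) * p) := by
  subst hG
  unfold wy wyd vp vpd gd
  field_simp
  linear_combination (2 : ℝ) * s * (1 - s) * f * ode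

theorem ex3 (s l gam g G F F1 F2 f f1 y y1 y2 p p1 : ℝ) (hs : s ≠ 0) (h1 : 1 - s ≠ 0)
    (hG : G = 2 * g + 2 / (1 - s))
    (ode : 4 * s * F2 + 12 * F1 + gam * F + g * (8 * s * F1 + 8 * F) = 0) :
    (2 * gam * F * f - 4 * F1 * f - 8 * (F + s * F1) * f1) - l * (2 * (1 - s) * p)
      - (2 * 3 * (-(4 / 3) * (F1 * f + F * f1) + ((-y + (1 - s) * y1) + 1 / 3 * wy s G y y1
            + s / 3 * wyd s G (gd s g l) y y1 y2))
        + 2 * s * (-4 * (F2 * f + F1 * f1) - wyd s G (gd s g l) y y1 y2 + vpd s G (gd s g l) p p1)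
        + (3 + 2) * (-4 * F1 * f - wy s G y y1 + vp s G p))
    = 4 * g * (3 * (-(4 / 3) * F * f + ((1 - s) * y + s / 3 * wy s G y y1))
        + s * (-4 * F1 * f - wy s G y y1 + vp s G p)
        - s * (2 * (-p + (1 - s) * p1)) - 1 / 2 * 3 * (2 * (1 - s) * p))
      - 4 * s * g ^ 2 * (2 * (1 - s) * p) := by
  subst hG
  unfold wy wyd vp vpd gd
  field_simp
  linear_combination (2 : ℝ) * (1 - s) * f * ode

end Pool.Agent.H23.GP
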