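import Pool.Agent.H94.GP.RgC
import Pool.Agent.H23.GP.HpN
import Pool.Agent.H23.GP.RegA

/-!
# RegI: the `σ` components inside the disk (region I)

`lf` = list of `φ`, `lp k`, `ly k` = lists of the free polynomials, `c2` = centring multiplier. `eX, eA, eD` = radial functions (`j = 0, 1, 2, 3`),
`eXd, eAd, eDd` their derivatives. `eT .. = 0`: relations needed by `blk_red`, with `w = 1/(1-s)`, `g = 2 r g1`.
-/

set_option autoImplicit false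

open Pool.Agent.H94.ER Pool.Agent.H94.SP Pool.Agent.H94.GP

namespace Pool.Agent.H23.GP

/-- `2 u'/u` -/
noncomputable def GG (s : ℝ) : ℝ := 2 * deriv (uh 2) s / uh 2 s

/-- second derivative of the profile -/
noncomputable def nF2 (s : ℝ) : ℝ := deriv (deriv nF) s

theorem GG_eq (s : ℝ) (h1 : s < 1) : GG s = 2 * g1 s + 2 / (1 - s) := G_g1 s h1

theorem nF_hasDerivAt (s : ℝ) (h1 : s ≤ 1) : HasDerivAt nF (deriv nF s) s := (NF_nF_diff s h1).hasDerivAt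

theorem dnF_hasDerivAt (s : ℝ) (h1 : s ≤ 1) : HasDerivAt (deriv nF) (nF2 s) s := by
  have e1 : deriv nF = fun t => deriv (F0 2 2) t / F0 2 2 1 := by
    funext t
    have h5 : nF = fun t => F0 2 2 t / F0 2 2 1 := rfl
    rw [h5, deriv_div_const]
  have hc : ContDiffAt ℝ (2 : ℕ) (F0 2 2) s := F0_smooth 2 2 le_rfl s h1 2
  have hd : DifferentiableAt ℝ (deriv nF) s := by
    rw [e1]
    exact ((PrC_contDiffAt_deriv hc).differentiableAt (by norm_num)).div_const _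
  exact hd.hasDerivAt

theorem nF_ode (s : ℝ) (h1 : s < 1) :
    4 * s * nF2 s + 12 * deriv nF s + gam * nF s + g1 s * (8 * s * deriv nF s + 8 * nF s) = 0 := by
  have e1 : deriv nF = fun t => deriv (F0 2 2) t / F0 2 2 1 := by
    funext t
    have h5 : nF = fun t => F0 2 2 t / F0 2 2 1 := rfl
    rw [h5, deriv_div_const]
  have e2 : nF2 s = deriv (deriv (F0 2 2)) s / F0 2 2 1 := by
    unfold nF2
    rw [e1, deriv_div_const]
  have e3 : deriv nF s = deriv (F0 2 2) s / F0 2 2 1 := congrFun e1 s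
  have hr := NF_rho_pos
  have hode := profile_ode 2 2 le_rfl s h1.le
  have hU : 0 < bj 2 (bz 2 * s) := by
    rw [uh_mul 2 le_rfl]
    exact mul_pos (by linarith) (uh_pos 2 le_rfl s h1.le)
  rw [e2, e3]
  unfold g1 nF gam
  norm_num at hode
  obtain ⟨U, hUd⟩ : ∃ U, U = bj 2 (bz 2 * s) := ⟨_, rfl⟩
  rw [← hUd] at hode hU ⊢
  obtain ⟨R, hRd⟩ : ∃ R, R = F0 2 2 1 := ⟨_, rfl⟩
  rw [← hRd] at hr ⊢
  field_simp
  linear_combination hode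

theorem GG_hasDerivAt (s : ℝ) (h0 : 0 < s) (h1 : s < 1) : HasDerivAt GG (gd s (g1 s) (bz 2)) s := by
  have h2 := ((g1_hasDerivAt s h0 h1).const_mul 2).add
    (((hasDerivAt_const s (2 : ℝ)).div ((hasDerivAt_id' s).const_sub 1) (by linarith : (1 - s : ℝ) ≠ 0)))
  have e : GG =ᶠ[nhds s] fun t => 2 * g1 t + 2 / (1 - t) := by
    filter_upwards [gt_mem_nhds h1] with t ht
    exact GG_eq t ht
  refine (h2.congr_of_eventuallyEq e).congr_deriv ?_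
  unfold gd
  have : (1 - s : ℝ) ≠ 0 := by linarith
  field_simp
  ring

/-- `2 Y' + 4 g Y` -/
noncomputable def wyf (l : List ℤ) (s : ℝ) : ℝ := wy s (GG s) (pf l s) (pf (pder l) s)

/-- derivative -/
noncomputable def wyfd (l : List ℤ) (s : ℝ) : ℝ :=
  wyd s (GG s) (gd s (g1 s) (bz 2)) (pf l s) (pf (pder l) s) (pf (pder (pder l)) s)

/-- `4 g (1-s) p` -/
noncomputable def vpf (l : List ℤ) (s : ℝ) : ℝ := vp s (GG s) (pf l s)

/-- derivative -/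
noncomputable def vpfd (l : List ℤ) (s : ℝ) : ℝ := vpd s (GG s) (gd s (g1 s) (bz 2)) (pf l s) (pf (pder l) s)

theorem wyf_hasDerivAt (l : List ℤ) (s : ℝ) (h0 : 0 < s) (h1 : s < 1) : HasDerivAt (wyf l) (wyfd l s) s := by
  have hG := GG_hasDerivAt s h0 h1
  have hy := pf_hasDerivAt l s
  have hy1 := pf_hasDerivAt (pder l) s
  have h1s := (hasDerivAt_id' s).const_sub 1
  have h := ((hy.const_mul (-6)).add ((h1s.const_mul 2).mul hy1)).add (((h1s.const_mul 2).mul hG).mul hy)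
  refine h.congr_deriv ?_
  simp only [wyfd, wyd, Pi.mul_apply]
  ring

theorem vpf_hasDerivAt (l : List ℤ) (s : ℝ) (h0 : 0 < s) (h1 : s < 1) : HasDerivAt (vpf l) (vpfd l s) s := by
  have hG := GG_hasDerivAt s h0 h1
  have hy := pf_hasDerivAt l s
  have h1s := (hasDerivAt_id' s).const_sub 1
  have h := ((((h1s.const_mul 2).mul hG).sub_const 4).mul hy)
  refine h.congr_deriv ?_
  simp only [vpfd, vpd, Pi.mul_apply]
  ring

/-- radial functions `X` -/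
noncomputable def eX (lp : Fin 4 → List ℤ) (j : Fin 4) (s : ℝ) : ℝ :=
  ![1 - (s * nF s) ^ 2, 2 * (1 - s) * pf (lp 1) s, 2 * (1 - s) * pf (lp 2) s, 2 * (1 - s) * pf (lp 3) s] j

/-- derivatives -/
noncomputable def eXd (lp : Fin 4 → List ℤ) (j : Fin 4) (s : ℝ) : ℝ :=
  ![-2 * (s * nF s) * (nF s + s * deriv nF s), 2 * (-pf (lp 1) s + (1 - s) * pf (pder (lp 1)) s),
    2 * (-pf (lp 2) s + (1 - s) * pf (pder (lp 2)) s), 2 * (-pf (lp 3) s + (1 - s) * pf (pder (lp 3)) s)] j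

/-- radial functions `A` -/
noncomputable def eA (lf : List ℤ) (ly : Fin 4 → List ℤ) (c2 : ℝ) (j : Fin 4) (s : ℝ) : ℝ :=
  ![0, -2 * nF s + ((1 - s) * pf (ly 1) s + s / 2 * wyf (ly 1) s),
    -4 * s * nF s * pf lf s + ((1 - s) * pf (ly 2) s + s * wyf (ly 2) s) + c2 * (s * gc s),
    -(4 / 3) * nF s * pf lf s + ((1 - s) * pf (ly 3) s + s / 3 * wyf (ly 3) s)] j

/-- derivatives -/
noncomputable def eAd (lf : List ℤ) (ly : Fin 4 → List ℤ) (c2 : ℝ) (j : Fin 4) (s : ℝ) : ℝ :=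
  ![0, -2 * deriv nF s + ((-pf (ly 1) s + (1 - s) * pf (pder (ly 1)) s) + 1 / 2 * wyf (ly 1) s
      + s / 2 * wyfd (ly 1) s),
    -4 * (nF s * pf lf s + s * deriv nF s * pf lf s + s * nF s * pf (pder lf) s)
      + ((-pf (ly 2) s + (1 - s) * pf (pder (ly 2)) s) + wyf (ly 2) s + s * wyfd (ly 2) s)
      + c2 * (gc s + s * (-(1 / 200000000) * gc s ^ 3)),
    -(4 / 3) * (deriv nF s * pf lf s + nF s * pf (pder lf) s)
      + ((-pf (ly 3) s + (1 - s) * pf (pder (ly 3)) s) + 1 / 3 * wyf (ly 3) s + s / 3 * wyfd (ly 3) s)] j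

/-- radial functions `D` -/
noncomputable def eD (lf : List ℤ) (lp ly : Fin 4 → List ℤ) (c2 : ℝ) (j : Fin 4) (s : ℝ) : ℝ :=
  ![-2 * (s * nF s) * (nF s + s * deriv nF s) + 2 * g1 s * (1 - (s * nF s) ^ 2),
    -4 * deriv nF s - wyf (ly 1) s + vpf (lp 1) s,
    -4 * s * deriv nF s * pf lf s - wyf (ly 2) s + vpf (lp 2) s - c2 * gc s,
    -4 * deriv nF s * pf lf s - wyf (ly 3) s + vpf (lp 3) s] j

/-- derivatives -/
noncomputable def eDd (lf : List ℤ) (lp ly : Fin 4 → List ℤ) (c2 : ℝ) (j : Fin 4) (s : ℝ) : ℝ :=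
  ![-2 * ((nF s + s * deriv nF s) ^ 2 + s * nF s * (2 * deriv nF s + s * nF2 s))
      + 2 * ((-(4 * g1 s + bz 2) / (4 * s) - g1 s ^ 2) * (1 - (s * nF s) ^ 2)
        + g1 s * (-2 * (s * nF s) * (nF s + s * deriv nF s))),
    -4 * nF2 s - wyfd (ly 1) s + vpfd (lp 1) s,
    -4 * (deriv nF s * pf lf s + s * nF2 s * pf lf s + s * deriv nF s * pf (pder lf) s) - wyfd (ly 2) s
      + vpfd (lp 2) s - c2 * (-(1 / 200000000) * gc s ^ 3),
    -4 * (nF2 s * pf lf s + deriv nF s * pf (pder lf) s) - wyfd (ly 3) s + vpfd (lp 3) s] j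

theorem eX_hasDerivAt (lp : Fin 4 → List ℤ) (j : Fin 4) (s : ℝ) (h1 : s ≤ 1) :
    HasDerivAt (eX lp j) (eXd lp j s) s := by
  have hF := nF_hasDerivAt s h1
  have hid := hasDerivAt_id' s
  have h1s := hid.const_sub 1
  fin_cases j
  · have h := ((hid.mul hF).pow 2).const_sub 1
    refine h.congr_deriv ?_
    simp [eXd]
  · have h := (h1s.const_mul 2).mul (pf_hasDerivAt (lp 1) s)
    refine h.congr_deriv ?_
    simp [eXd]
    ring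
  · have h := (h1s.const_mul 2).mul (pf_hasDerivAt (lp 2) s)
    refine h.congr_deriv ?_
    simp [eXd]
    ring
  · have h := (h1s.const_mul 2).mul (pf_hasDerivAt (lp 3) s)
    refine h.congr_deriv ?_
    simp [eXd]
    ring

theorem eA_hasDerivAt (lf : List ℤ) (ly : Fin 4 → List ℤ) (c2 : ℝ) (j : Fin 4) (s : ℝ) (h0 : 0 < s)
    (h1 : s < 1) : HasDerivAt (eA lf ly c2 j) (eAd lf ly c2 j s) s := by
  have hF := nF_hasDerivAt s h1.le
  have hid := hasDerivAt_id' s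
  have h1s := hid.const_sub 1
  have hf := pf_hasDerivAt lf s
  have hg := gc_hasDerivAt s h0.le
  fin_cases j
  · exact hasDerivAt_const s 0
  · have h := (hF.const_mul (-2)).add ((h1s.mul (pf_hasDerivAt (ly 1) s)).add
      ((hid.div_const 2).mul (wyf_hasDerivAt (ly 1) s h0 h1)))
    refine h.congr_deriv ?_
    simp only [eAd]
    simp
    ring
  · have h := ((((hid.const_mul (-4)).mul hF).mul hf).add ((h1s.mul (pf_hasDerivAt (ly 2) s)).add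
      (hid.mul (wyf_hasDerivAt (ly 2) s h0 h1)))).add ((hid.mul hg).const_mul c2)
    refine h.congr_deriv ?_
    simp only [eAd]
    simp
    ring
  · have h := ((hF.const_mul (-(4 / 3))).mul hf).add ((h1s.mul (pf_hasDerivAt (ly 3) s)).add
      ((hid.div_const 3).mul (wyf_hasDerivAt (ly 3) s h0 h1)))
    refine h.congr_deriv ?_
    simp only [eAd]
    simp
    ring

theorem eD_hasDerivAt (lf : List ℤ) (lp ly : Fin 4 → List ℤ) (c2 : ℝ) (j : Fin 4) (s : ℝ) (h0 : 0 < s)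
    (h1 : s < 1) : HasDerivAt (eD lf lp ly c2 j) (eDd lf lp ly c2 j s) s := by
  have hF := nF_hasDerivAt s h1.le
  have hF1 := dnF_hasDerivAt s h1.le
  have hid := hasDerivAt_id' s
  have hf := pf_hasDerivAt lf s
  have hg := gc_hasDerivAt s h0.le
  have hg1 := g1_hasDerivAt s h0 h1
  fin_cases j
  · have h := (((hid.mul hF).const_mul (-2)).mul (hF.add (hid.mul hF1))).add
      ((hg1.const_mul 2).mul (((hid.mul hF).pow 2).const_sub 1))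
    refine h.congr_deriv ?_
    simp only [eDd, Pi.mul_apply, Pi.pow_apply]
    simp
    ring
  · have h := ((hF1.const_mul (-4)).sub (wyf_hasDerivAt (ly 1) s h0 h1)).add (vpf_hasDerivAt (lp 1) s h0 h1)
    refine h.congr_deriv ?_
    simp [eDd]
  · have h := ((((((hid.const_mul (-4)).mul hF1).mul hf).sub (wyf_hasDerivAt (ly 2) s h0 h1)).add
      (vpf_hasDerivAt (lp 2) s h0 h1))).sub (hg.const_mul c2)
    refine h.congr_deriv ?_
    simp only [eDd]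
    simp
    ring
  · have h := ((((hF1.const_mul (-4)).mul hf).sub (wyf_hasDerivAt (ly 3) s h0 h1)).add
      (vpf_hasDerivAt (lp 3) s h0 h1))
    refine h.congr_deriv ?_
    simp only [eDd]
    simp
    ring

/-- weights -/
def kk : Fin 4 → ℕ := ![0, 2, 1, 3]

/-- the relation `T = 2 g R - g^2 X` -/
theorem eT_rel (lf : List ℤ) (lp ly : Fin 4 → List ℤ) (c2 : ℝ) (j : Fin 4) (r : ℝ) (h0 : 0 < r) (h1 : r < 1) :
    (Qj gam (r ^ 2) (nF (r ^ 2)) (deriv nF (r ^ 2)) (pf lf (r ^ 2)) (pf (pder lf) (r ^ 2)) (Fin.castLE (by norm_num) j)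
        + ![0, 0, -(gc (r ^ 2) * c2), 0] j - bz 2 * eX lp j (r ^ 2)
        - (2 * kk j * eAd lf ly c2 j (r ^ 2) + 2 * r ^ 2 * eDd lf lp ly c2 j (r ^ 2)
          + (kk j + 2) * eD lf lp ly c2 j (r ^ 2))) * r ^ kk j
      = 2 * (2 * r * g1 (r ^ 2)) * ((kk j * eA lf ly c2 j (r ^ 2) + r ^ 2 * eD lf lp ly c2 j (r ^ 2)
          - r ^ 2 * eXd lp j (r ^ 2) - 1 / 2 * kk j * eX lp j (r ^ 2)) * r ^ kk j / r)
        - (2 * r * g1 (r ^ 2)) ^ 2 * (eX lp j (r ^ 2) * r ^ kk j) := by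
  have hs0 : 0 < r ^ 2 := by positivity
  have hs1 : r ^ 2 < 1 := by nlinarith
  have hode := nF_ode (r ^ 2) hs1
  have hG := GG_eq (r ^ 2) hs1
  have hn : (1 - r ^ 2 : ℝ) ≠ 0 := by linarith
  have hr : r ≠ 0 := h0.ne'
  have key : ∀ L Z X : ℝ, L = 4 * g1 (r ^ 2) * Z - 4 * r ^ 2 * g1 (r ^ 2) ^ 2 * X →
      L * r ^ kk j = 2 * (2 * r * g1 (r ^ 2)) * (Z * r ^ kk j / r) - (2 * r * g1 (r ^ 2)) ^ 2 * (X * r ^ kk j) := by
    intro L Z X h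
    rw [h]
    field_simp
    ring
  refine key _ _ _ ?_
  fin_cases j
  · have h := ex0 (r ^ 2) (bz 2) gam (g1 (r ^ 2)) (nF (r ^ 2)) (deriv nF (r ^ 2)) (nF2 (r ^ 2)) hs0.ne' hode
    simp [Qj, eX, eXd, eA, eAd, eD, eDd, kk, Fin.castLE] at h ⊢
    linear_combination h
  · have h := ex1 (r ^ 2) (bz 2) gam (g1 (r ^ 2)) (GG (r ^ 2)) (nF (r ^ 2)) (deriv nF (r ^ 2)) (nF2 (r ^ 2))
      (pf (ly 1) (r ^ 2)) (pf (pder (ly 1)) (r ^ 2)) (pf (pder (pder (ly 1))) (r ^ 2))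
      (pf (lp 1) (r ^ 2)) (pf (pder (lp 1)) (r ^ 2)) hs0.ne' hn hG hode
    simp [Qj, eX, eXd, eA, eAd, eD, eDd, kk, Fin.castLE, wyf, wyfd, vpf, vpfd] at h ⊢
    linear_combination h
  · have h := ex2 (r ^ 2) (bz 2) gam (g1 (r ^ 2)) (GG (r ^ 2)) (nF (r ^ 2)) (deriv nF (r ^ 2)) (nF2 (r ^ 2))
      (pf lf (r ^ 2)) (pf (pder lf) (r ^ 2))
      (pf (ly 2) (r ^ 2)) (pf (pder (ly 2)) (r ^ 2)) (pf (pder (pder (ly 2))) (r ^ 2))
      (pf (lp 2) (r ^ 2)) (pf (pder (lp 2)) (r ^ 2)) (gc (r ^ 2)) (-(1 / 200000000) * gc (r ^ 2) ^ 3) c2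
      hs0.ne' hn hG hode
    simp [Qj, eX, eXd, eA, eAd, eD, eDd, kk, Fin.castLE, wyf, wyfd, vpf, vpfd] at h ⊢
    linear_combination h
  · have h := ex3 (r ^ 2) (bz 2) gam (g1 (r ^ 2)) (GG (r ^ 2)) (nF (r ^ 2)) (deriv nF (r ^ 2)) (nF2 (r ^ 2))
      (pf lf (r ^ 2)) (pf (pder lf) (r ^ 2))
      (pf (ly 3) (r ^ 2)) (pf (pder (ly 3)) (r ^ 2)) (pf (pder (pder (ly 3))) (r ^ 2))
      (pf (lp 3) (r ^ 2)) (pf (pder (lp 3)) (r ^ 2)) hs0.ne' hn hG hode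
    simp [Qj, eX, eXd, eA, eAd, eD, eDd, kk, Fin.castLE, wyf, wyfd, vpf, vpfd] at h ⊢
    linear_combination h

/-- `k (A - X/2)` -/
noncomputable def cH (lf : List ℤ) (lp ly : Fin 4 → List ℤ) (c2 : ℝ) (j : Fin 4) (s : ℝ) : ℝ :=
  ![0, -4 * nF s + 2 * (1 - s) * pf (ly 1) s + s * wyf (ly 1) s - 2 * (1 - s) * pf (lp 1) s,
    -4 * s * nF s * pf lf s + (1 - s) * pf (ly 2) s + s * wyf (ly 2) s + c2 * (s * gc s) - (1 - s) * pf (lp 2) s,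
    -4 * nF s * pf lf s + 3 * (1 - s) * pf (ly 3) s + s * wyf (ly 3) s - 3 * (1 - s) * pf (lp 3) s] j

/-- reduced `X` -/
noncomputable def cX (lp : Fin 4 → List ℤ) (j : Fin 4) (r : ℝ) : ℝ :=
  ![(1 + r ^ 2 * nF (r ^ 2)) * Kf (r ^ 2), 2 * pf (lp 1) (r ^ 2) * r ^ 2, 2 * pf (lp 2) (r ^ 2) * r,
    2 * pf (lp 3) (r ^ 2) * r ^ 3] j

/-- reduced `R` -/
noncomputable def cR (lf : List ℤ) (lp ly : Fin 4 → List ℤ) (j : Fin 4) (r : ℝ) : ℝ :=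
  ![0, 2 * r * (-4 * N1f (r ^ 2) + 2 * pf (ly 1) (r ^ 2) - 2 * r ^ 2 * pf (pder (lp 1)) (r ^ 2)
      - 2 * pf (lp 1) (r ^ 2) + r ^ 2 * GG (r ^ 2) * pf (lp 1) (r ^ 2)),
    2 * (-4 * N1f (r ^ 2) * (r ^ 2 * pf lf (r ^ 2)) + pf (ly 2) (r ^ 2) - 2 * r ^ 2 * pf (pder (lp 2)) (r ^ 2)
      - pf (lp 2) (r ^ 2) + r ^ 2 * GG (r ^ 2) * pf (lp 2) (r ^ 2)),
    2 * r ^ 2 * (-4 * N1f (r ^ 2) * pf lf (r ^ 2) + 3 * pf (ly 3) (r ^ 2) - 2 * r ^ 2 * pf (pder (lp 3)) (r ^ 2)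
      - 3 * pf (lp 3) (r ^ 2) + r ^ 2 * GG (r ^ 2) * pf (lp 3) (r ^ 2))] j

/-- skew part of the `ξ σ` row -/
noncomputable def cK (lf : List ℤ) (lp ly lh : Fin 4 → List ℤ) (c2 : ℝ) (j : Fin 4) (r : ℝ) : ℝ :=
  ![0, -(r ^ 2 * cH lf lp ly c2 1 (r ^ 2)) + 2 * (1 - r ^ 2) * pf (lh 1) (r ^ 2),
    -(r * cH lf lp ly c2 2 (r ^ 2)) + 2 * (1 - r ^ 2) * (r * pf (lh 2) (r ^ 2)),
    -(r ^ 3 * cH lf lp ly c2 3 (r ^ 2)) + 2 * (1 - r ^ 2) * (r * pf (lh 3) (r ^ 2))] j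

/-- reduced `S` -/
noncomputable def cS (lf : List ℤ) (lp ly lh : Fin 4 → List ℤ) (c2 : ℝ) (j : Fin 4) (r : ℝ) : ℝ :=
  ![0, r * cH lf lp ly c2 1 (r ^ 2) * (2 + r ^ 2 * GG (r ^ 2))
      - 2 * r * ((1 - r ^ 2) * GG (r ^ 2) - 2) * pf (lh 1) (r ^ 2),
    cH lf lp ly c2 2 (r ^ 2) * (2 + r ^ 2 * GG (r ^ 2))
      - 2 * r ^ 2 * ((1 - r ^ 2) * GG (r ^ 2) - 2) * pf (lh 2) (r ^ 2),
    r ^ 2 * cH lf lp ly c2 3 (r ^ 2) * (2 + r ^ 2 * GG (r ^ 2))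
      - 2 * r ^ 2 * ((1 - r ^ 2) * GG (r ^ 2) - 2) * pf (lh 3) (r ^ 2)] j

theorem cX_rel (lp : Fin 4 → List ℤ) (r : ℝ) (h0 : 0 < r) (h1 : r < 1) :
    cX lp 0 r = (1 / (1 - r ^ 2)) ^ 2 * (eX lp 0 (r ^ 2) * r ^ kk 0) ∧
    cX lp 1 r = 1 / (1 - r ^ 2) * (eX lp 1 (r ^ 2) * r ^ kk 1) ∧
    cX lp 2 r = 1 / (1 - r ^ 2) * (eX lp 2 (r ^ 2) * r ^ kk 2) ∧
    cX lp 3 r = 1 / (1 - r ^ 2) * (eX lp 3 (r ^ 2) * r ^ kk 3) := by
  have hs1 : r ^ 2 < 1 := by nlinarith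
  have hn : (1 - r ^ 2 : ℝ) ≠ 0 := by linarith
  refine ⟨?_, ?_, ?_, ?_⟩
  · simp only [cX, eX, kk, Kf, if_pos hs1, nh]
    simp
    field_simp
    ring
  all_goals
    simp [cX, eX, kk]
    field_simp

theorem cR_rel (lf : List ℤ) (lp ly : Fin 4 → List ℤ) (c2 : ℝ) (r : ℝ) (h0 : 0 < r) (h1 : r < 1) (j : Fin 4)
    (hj : j ≠ 0) :
    cR lf lp ly j r = 1 / (1 - r ^ 2) * (2 * ((kk j * eA lf ly c2 j (r ^ 2) + r ^ 2 * eD lf lp ly c2 j (r ^ 2)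
          - r ^ 2 * eXd lp j (r ^ 2) - 1 / 2 * kk j * eX lp j (r ^ 2)) * r ^ kk j / r)
        - 2 * r * g1 (r ^ 2) * (eX lp j (r ^ 2) * r ^ kk j)) := by
  have hs1 : r ^ 2 < 1 := by nlinarith
  have hn : (1 - r ^ 2 : ℝ) ≠ 0 := by linarith
  have hr : r ≠ 0 := h0.ne'
  have hG := GG_eq (r ^ 2) hs1
  have hg : g1 (r ^ 2) = GG (r ^ 2) / 2 - 1 / (1 - r ^ 2) := by rw [hG]; ring
  have hN : nF (r ^ 2) + r ^ 2 * deriv nF (r ^ 2) = (1 - r ^ 2) * N1f (r ^ 2) := by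
    simp only [N1f, if_pos hs1, nhs]
    field_simp
  fin_cases j
  · exact absurd rfl hj
  · simp [cR, eX, eXd, eA, eD, kk, hg, vpf, vp]
    field_simp
    linear_combination (4 : ℝ) * hN
  · simp [cR, eX, eXd, eA, eD, kk, hg, vpf, vp]
    field_simp
    linear_combination ((4 : ℝ) * r ^ 2 * pf lf (r ^ 2)) * hN
  · simp [cR, eX, eXd, eA, eD, kk, hg, vpf, vp]
    field_simp
    linear_combination ((4 : ℝ) * pf lf (r ^ 2)) * hN

theorem cR0_rel (lf : List ℤ) (lp ly : Fin 4 → List ℤ) (c2 : ℝ) (r : ℝ) (h0 : 0 < r) :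
    (kk 0 * eA lf ly c2 0 (r ^ 2) + r ^ 2 * eD lf lp ly c2 0 (r ^ 2)
          - r ^ 2 * eXd lp 0 (r ^ 2) - 1 / 2 * kk 0 * eX lp 0 (r ^ 2)) * r ^ kk 0 / r
      = 2 * r * g1 (r ^ 2) * (eX lp 0 (r ^ 2) * r ^ kk 0) := by
  have hr : r ≠ 0 := h0.ne'
  simp [eX, eXd, eA, eD, kk]
  field_simp
  ring

theorem cS_rel (lf : List ℤ) (lp ly lh : Fin 4 → List ℤ) (c2 : ℝ) (r : ℝ) (h0 : 0 < r) (h1 : r < 1) (j : Fin 4)
    (hj : j ≠ 0) :
    cS lf lp ly lh c2 j r = 2 * (1 / (1 - r ^ 2)) * (kk j * (eA lf ly c2 j (r ^ 2) - 1 / 2 * eX lp j (r ^ 2))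
        * r ^ kk j / r) - 2 * r * g1 (r ^ 2) * cK lf lp ly lh c2 j r := by
  have hs1 : r ^ 2 < 1 := by nlinarith
  have hn : (1 - r ^ 2 : ℝ) ≠ 0 := by linarith
  have hr : r ≠ 0 := h0.ne'
  have hG := GG_eq (r ^ 2) hs1
  have hg : g1 (r ^ 2) = GG (r ^ 2) / 2 - 1 / (1 - r ^ 2) := by rw [hG]; ring
  fin_cases j
  · exact absurd rfl hj
  · simp [cS, cK, cH, eX, eA, kk, hg]
    field_simp
    ring
  · simp [cS, cK, cH, eX, eA, kk, hg]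
    field_simp
    ring
  · simp [cS, cK, cH, eX, eA, kk, hg]
    field_simp
    ring

end Pool.Agent.H23.GP
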