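import Pool.Agent.H94.GP.LpA
import Pool.Agent.H23.GP.RegI

/-!
# LipI: regularity of the `σ` components inside the disk, region I
-/

set_option autoImplicit false

open Pool.Agent.H94.ER Pool.Agent.H94.SP Pool.Agent.H94.GP

namespace Pool.Agent.H23.GP

theorem nF_ctd (s : ℝ) (h1 : s ≤ 1) (n : ℕ) : ContDiffAt ℝ n nF s := by
  have h5 : nF = fun t => F0 2 2 t / F0 2 2 1 := rfl
  rw [h5]
  exact (F0_smooth 2 2 le_rfl s h1 n).div_const _

theorem dnF_ctd (s : ℝ) (h1 : s ≤ 1) : ContDiffAt ℝ 1 (deriv nF) s :=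
  PrC_contDiffAt_deriv (nF_ctd s h1 2)

theorem duh_ctd (s : ℝ) : ContDiffAt ℝ 1 (deriv (uh 2)) s :=
  PrC_contDiffAt_deriv ((contDiff_uh 2 le_rfl 2).contDiffAt)

theorem GG_ctd (s : ℝ) (h1 : s ≤ 1) : ContDiffAt ℝ 1 GG s := by
  have h := (contDiffAt_const (c := (2 : ℝ))).mul (duh_ctd s)
  exact h.div ((contDiff_uh 2 le_rfl 1).contDiffAt) (NF_u_pos s h1).ne'

theorem pf_ctd (l : List ℤ) (s : ℝ) : ContDiffAt ℝ 1 (pf l) s := (contDiff_pf l 1).contDiffAt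

theorem gc_ctd (s : ℝ) (h0 : 0 ≤ s) : ContDiffAt ℝ 1 gc s := by
  have h1 : ContDiffAt ℝ 1 (fun s : ℝ => 1 + s / 100000000) s :=
    contDiffAt_const.add (contDiffAt_id.div_const _)
  have hp : (0 : ℝ) < 1 + s / 100000000 := by positivity
  exact contDiffAt_const.div (h1.sqrt hp.ne') (Real.sqrt_pos.2 hp).ne'

theorem wyf_ctd (l : List ℤ) (s : ℝ) (h1 : s ≤ 1) : ContDiffAt ℝ 1 (wyf l) s := by
  have hG := GG_ctd s h1
  have hy := pf_ctd l s
  have hy1 := pf_ctd (pder l) s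
  have hs : ContDiffAt ℝ 1 (fun s : ℝ => 2 * (1 - s)) s :=
    contDiffAt_const.mul (contDiffAt_const.sub contDiffAt_id)
  exact ((contDiffAt_const.mul hy).add (hs.mul hy1)).add ((hs.mul hG).mul hy)

theorem vpf_ctd (l : List ℤ) (s : ℝ) (h1 : s ≤ 1) : ContDiffAt ℝ 1 (vpf l) s := by
  have hG := GG_ctd s h1
  have hy := pf_ctd l s
  have hs : ContDiffAt ℝ 1 (fun s : ℝ => 2 * (1 - s)) s :=
    contDiffAt_const.mul (contDiffAt_const.sub contDiffAt_id)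
  exact ((hs.mul hG).sub contDiffAt_const).mul hy

theorem eX_ctd (lp : Fin 4 → List ℤ) (j : Fin 4) (s : ℝ) (h1 : s ≤ 1) : ContDiffAt ℝ 1 (eX lp j) s := by
  have hF : ContDiffAt ℝ 1 nF s := nF_ctd s h1 1
  have hs : ContDiffAt ℝ 1 (fun s : ℝ => 2 * (1 - s)) s :=
    contDiffAt_const.mul (contDiffAt_const.sub contDiffAt_id)
  fin_cases j
  · exact contDiffAt_const.sub ((contDiffAt_id.mul hF).pow 2)
  · exact hs.mul (pf_ctd _ s)
  · exact hs.mul (pf_ctd _ s)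
  · exact hs.mul (pf_ctd _ s)

theorem eA_ctd (lf : List ℤ) (ly : Fin 4 → List ℤ) (c2 : ℝ) (j : Fin 4) (s : ℝ) (h0 : 0 ≤ s) (h1 : s ≤ 1) :
    ContDiffAt ℝ 1 (eA lf ly c2 j) s := by
  have hF : ContDiffAt ℝ 1 nF s := nF_ctd s h1 1
  have hs : ContDiffAt ℝ 1 (fun s : ℝ => 1 - s) s := contDiffAt_const.sub contDiffAt_id
  have hi : ContDiffAt ℝ 1 (fun s : ℝ => s) s := contDiffAt_id
  fin_cases j
  · exact contDiffAt_const
  · exact (contDiffAt_const.mul hF).add ((hs.mul (pf_ctd _ s)).add ((hi.div_const 2).mul (wyf_ctd _ s h1)))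
  · exact ((((contDiffAt_const.mul hi).mul hF).mul (pf_ctd _ s)).add
      ((hs.mul (pf_ctd _ s)).add (hi.mul (wyf_ctd _ s h1)))).add (contDiffAt_const.mul (hi.mul (gc_ctd s h0)))
  · exact ((contDiffAt_const.mul hF).mul (pf_ctd _ s)).add
      ((hs.mul (pf_ctd _ s)).add ((hi.div_const 3).mul (wyf_ctd _ s h1)))

theorem eD_ctd (lf : List ℤ) (lp ly : Fin 4 → List ℤ) (c2 : ℝ) (j : Fin 4) (hj : j ≠ 0) (s : ℝ) (h0 : 0 ≤ s)
    (h1 : s ≤ 1) : ContDiffAt ℝ 1 (eD lf lp ly c2 j) s := by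
  have hF := dnF_ctd s h1
  have hi : ContDiffAt ℝ 1 (fun s : ℝ => s) s := contDiffAt_id
  fin_cases j
  · exact absurd rfl hj
  · exact ((contDiffAt_const.mul hF).sub (wyf_ctd _ s h1)).add (vpf_ctd _ s h1)
  · exact (((((contDiffAt_const.mul hi).mul hF).mul (pf_ctd _ s)).sub (wyf_ctd _ s h1)).add (vpf_ctd _ s h1)).sub
      (contDiffAt_const.mul (gc_ctd s h0))
  · exact (((contDiffAt_const.mul hF).mul (pf_ctd _ s)).sub (wyf_ctd _ s h1)).add (vpf_ctd _ s h1)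

/-! ### the component `j = 0` -/

/-- bounded on `[1/2, 1)` -/
def Bd (f : ℝ → ℝ) : Prop := ∃ C : ℝ, ∀ s, 1 / 2 ≤ s → s < 1 → |f s| ≤ C

theorem Bd.add {f g : ℝ → ℝ} (hf : Bd f) (hg : Bd g) : Bd (fun s => f s + g s) := by
  obtain ⟨C, hC⟩ := hf
  obtain ⟨E, hE⟩ := hg
  exact ⟨C + E, fun s h0 h1 => (abs_add_le _ _).trans (add_le_add (hC s h0 h1) (hE s h0 h1))⟩

theorem Bd.mul {f g : ℝ → ℝ} (hf : Bd f) (hg : Bd g) : Bd (fun s => f s * g s) := by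
  obtain ⟨C, hC⟩ := hf
  obtain ⟨E, hE⟩ := hg
  refine ⟨C * E, fun s h0 h1 => ?_⟩
  rw [abs_mul]
  exact mul_le_mul (hC s h0 h1) (hE s h0 h1) (abs_nonneg _) ((abs_nonneg _).trans (hC s h0 h1))

theorem Bd.cst (c : ℝ) : Bd (fun _ => c) := ⟨|c|, fun _ _ _ => le_rfl⟩

theorem Bd.of_cont {f : ℝ → ℝ} (hf : ∀ s, 0 ≤ s → s ≤ 1 → ContinuousAt f s) : Bd f := by
  obtain ⟨C, hC⟩ := isCompact_Icc.exists_bound_of_continuousOn
    (fun s (hs : s ∈ Set.Icc (0 : ℝ) 1) => (hf s hs.1 hs.2).continuousWithinAt)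
  exact ⟨C, fun s h0 h1 => hC s ⟨by linarith, h1.le⟩⟩

theorem Bd.of_tm {f : ℝ → ℝ} {t : TM} (h : t.ok DD f) : Bd f := by
  have hD : (0 : ℝ) < DD := by norm_num [DD]
  refine ⟨(t.e + sabs t.p) / DD, fun s h0 h1 => ?_⟩
  have h2 := h s (by linarith) h1.le
  have h3 := abs_pev_le t.p s (by linarith) h1.le
  rw [le_div_iff₀ hD]
  have h4 : |(DD : ℝ) * f s| ≤ t.e + sabs t.p := by
    have e : (DD : ℝ) * f s = (DD * f s - pev t.p s) + pev t.p s := by ring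
    rw [e]
    exact (abs_add_le _ _).trans (add_le_add h2 h3)
  rw [abs_mul, abs_of_pos hD] at h4
  linarith

theorem Bd.congr {f g : ℝ → ℝ} (hf : Bd f) (h : ∀ s, 1 / 2 ≤ s → s < 1 → g s = f s) : Bd g := by
  obtain ⟨C, hC⟩ := hf
  exact ⟨C, fun s h0 h1 => by rw [h s h0 h1]; exact hC s h0 h1⟩

/-- the component `j = 0` of `D` -/
noncomputable def D0 (s : ℝ) : ℝ :=
  -2 * (s * nF s) * (nF s + s * deriv nF s) + 2 * g1 s * (1 - (s * nF s) ^ 2)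

/-- its derivative -/
noncomputable def D0d (s : ℝ) : ℝ :=
  -2 * ((nF s + s * deriv nF s) ^ 2 + s * nF s * (2 * deriv nF s + s * nF2 s))
      + 2 * ((-(4 * g1 s + bz 2) / (4 * s) - g1 s ^ 2) * (1 - (s * nF s) ^ 2)
        + g1 s * (-2 * (s * nF s) * (nF s + s * deriv nF s)))

theorem D0_hasDerivAt (s : ℝ) (h0 : 0 < s) (h1 : s < 1) : HasDerivAt D0 (D0d s) s := by
  have h := eD_hasDerivAt [] (fun _ => []) (fun _ => []) 0 0 s h0 h1
  exact h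

theorem bd_h : Bd (fun s => s * nF s) :=
  (Bd.of_cont fun s _ _ => continuousAt_id).mul (Bd.of_cont fun s _ h1 => (nF_ctd s h1 1).continuousAt)

theorem N1f_eq (s : ℝ) (h1 : s < 1) : nF s + s * deriv nF s = (1 - s) * N1f s := by
  have : (1 - s : ℝ) ≠ 0 := by linarith
  simp only [N1f, if_pos h1, nhs]
  field_simp

theorem Kf_eq (s : ℝ) (h1 : s < 1) : 1 - (s * nF s) ^ 2 = (1 - s) ^ 2 * ((1 + s * nF s) * Kf s) := by
  have : (1 - s : ℝ) ≠ 0 := by linarith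
  simp only [Kf, if_pos h1, nh]
  field_simp
  ring

theorem g1_eq (s : ℝ) (h1 : s < 1) : (1 - s) * g1 s = (1 - s) * GG s * (1 / 2) + (-1) := by
  have hn : (1 - s : ℝ) ≠ 0 := by linarith
  have hG := GG_eq s h1
  rw [hG]
  field_simp
  ring

/-- `(1-s) g1` -/
noncomputable def gb (s : ℝ) : ℝ := (1 - s) * GG s * (1 / 2) + (-1)

theorem bd_os : Bd (fun s => 1 - s) := Bd.of_cont fun s _ _ => by fun_prop

theorem bd_gb : Bd gb :=
  (((bd_os.mul (Bd.of_cont fun s _ h1 => (GG_ctd s h1).continuousAt)).mul (Bd.cst (1 / 2)))).add (Bd.cst (-1))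

theorem bd_inv : Bd (fun s => 1 / s) := by
  refine ⟨2, fun s h0 h1 => ?_⟩
  have : 0 < s := by linarith
  rw [abs_of_pos (by positivity), div_le_iff₀ this]
  linarith

theorem bd_N : Bd N1f := Bd.of_tm ok_N

theorem bd_K : Bd Kf := Bd.of_tm ok_K

theorem bd_q : Bd (fun s => (1 + s * nF s) * Kf s) := ((Bd.cst 1).add bd_h).mul bd_K

theorem bd_dF : Bd (deriv nF) := Bd.of_cont fun s _ h1 => (dnF_ctd s h1).continuousAt

theorem bd_F2 : Bd nF2 := by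
  refine Bd.of_cont fun s _ h1 => ?_
  have h2 : ContDiffAt ℝ 0 (fderiv ℝ (deriv nF)) s := (dnF_ctd s h1).fderiv_right (by norm_num)
  have h3 : ContinuousAt (fun t => fderiv ℝ (deriv nF) t 1) s := h2.continuousAt.clm_apply continuousAt_const
  have h4 : nF2 = fun t => fderiv ℝ (deriv nF) t 1 := by
    funext t
    unfold nF2
    rw [fderiv_apply_one_eq_deriv]
  rw [h4]
  exact h3

theorem bd_D0d : Bd D0d := by
  -- -2 (h'^2 + h h'') + 2 (g1' X + g1 X')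
  have b1 : Bd (fun s => (1 - s) * N1f s) := bd_os.mul bd_N
  have bid : Bd (fun s : ℝ => s) := Bd.of_cont fun s _ _ => continuousAt_id
  have b2 : Bd (fun s => s * nF s * (2 * deriv nF s + s * nF2 s)) :=
    bd_h.mul (((Bd.cst 2).mul bd_dF).add (bid.mul bd_F2))
  have b3 : Bd (fun s => ((1 - s) * N1f s) * ((1 - s) * N1f s) + s * nF s * (2 * deriv nF s + s * nF2 s)) :=
    (b1.mul b1).add b2
  have b4 : Bd (fun s => (-1) * ((1 / s) * ((1 - s) * gb s + bz 2 * (1 / 4) * ((1 - s) * (1 - s)))) + (-1) * (gb s * gb s)) :=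
    ((Bd.cst (-1)).mul (bd_inv.mul ((bd_os.mul bd_gb).add ((Bd.cst (bz 2 * (1 / 4))).mul (bd_os.mul bd_os))))).add
      ((Bd.cst (-1)).mul (bd_gb.mul bd_gb))
  have b5 : Bd (fun s => (-2) * ((s * nF s) * (gb s * N1f s))) := (Bd.cst (-2)).mul (bd_h.mul (bd_gb.mul bd_N))
  have b6 := ((Bd.cst (-2)).mul b3).add ((Bd.cst 2).mul ((b4.mul bd_q).add b5))
  refine b6.congr fun s h0 h1 => ?_
  have hs : (0 : ℝ) < s := by linarith
  have hn : (1 - s : ℝ) ≠ 0 := by linarith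
  have e1 := N1f_eq s h1
  have e2 := Kf_eq s h1
  have e3 : g1 s = gb s / (1 - s) := by
    have := g1_eq s h1
    unfold gb
    rw [← this]
    field_simp
  unfold D0d
  rw [e2, e1, e3]
  field_simp
  ring

theorem D0_one : D0 1 = 0 := by
  have h3 : deriv nF 1 = -1 := by
    have h4 : deriv nF 1 = deriv (F0 2 2) 1 / F0 2 2 1 := by
      have h5 : nF = fun t => F0 2 2 t / F0 2 2 1 := rfl
      rw [h5, deriv_div_const]
    rw [h4, F0_deriv_one 2 2 le_rfl]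
    have := NF_rho_pos.ne'
    field_simp
    norm_num
  unfold D0
  rw [NF_nF_one, h3]
  ring

theorem bd_D0q : Bd (fun s => -2 * (s * nF s) * N1f s + 2 * gb s * ((1 + s * nF s) * Kf s)) :=
  (((Bd.cst (-2)).mul bd_h).mul bd_N).add (((Bd.cst 2).mul bd_gb).mul bd_q)

theorem D0_q (s : ℝ) (h1 : s < 1) :
    D0 s = (1 - s) * (-2 * (s * nF s) * N1f s + 2 * gb s * ((1 + s * nF s) * Kf s)) := by
  have e3 : (1 - s) * g1 s = gb s := g1_eq s h1
  unfold D0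
  rw [Kf_eq s h1, N1f_eq s h1, ← e3]
  ring

theorem D0_lip : ∃ K : ℝ, 0 ≤ K ∧ ∀ s t, 0 ≤ s → s ≤ 1 → 0 ≤ t → t ≤ 1 → |D0 s - D0 t| ≤ K * |s - t| := by
  -- on [0, 1/2]
  have hc : ∀ s, 0 ≤ s → s ≤ 1 / 2 → ContDiffAt ℝ 1 D0 s := by
    intro s _ hs
    have h1 : s ≤ 1 := by linarith
    have hF : ContDiffAt ℝ 1 nF s := nF_ctd s h1 1
    have hi : ContDiffAt ℝ 1 (fun s : ℝ => s) s := contDiffAt_id
    have hg : ContDiffAt ℝ 1 g1 s := by
      have e : g1 =ᶠ[nhds s] fun t => GG t * (1 / 2) - 1 / (1 - t) := by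
        filter_upwards [gt_mem_nhds (by linarith : s < 1)] with t ht
        rw [GG_eq t ht]
        ring
      refine ContDiffAt.congr_of_eventuallyEq ?_ e
      exact ((GG_ctd s h1).mul contDiffAt_const).sub
        (contDiffAt_const.div (contDiffAt_const.sub contDiffAt_id) (by show (1 - s : ℝ) ≠ 0; linarith))
    exact ((contDiffAt_const.mul (hi.mul hF)).mul (hF.add (hi.mul (dnF_ctd s h1)))).add
      ((contDiffAt_const.mul hg).mul (contDiffAt_const.sub ((hi.mul hF).pow 2)))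
  obtain ⟨K1, hK1, h1⟩ := LpA_c1 D0 0 (1 / 2) (by norm_num) hc
  obtain ⟨C, hC⟩ := bd_D0d
  obtain ⟨E, hE⟩ := bd_D0q
  have hC0 : 0 ≤ C := (abs_nonneg _).trans (hC (1 / 2) le_rfl (by norm_num))
  have hE0 : 0 ≤ E := (abs_nonneg _).trans (hE (1 / 2) le_rfl (by norm_num))
  have hone : ∀ s, 1 / 2 ≤ s → s ≤ 1 → |D0 s - D0 1| ≤ E * |s - 1| := by
    intro s hs hs1
    rcases hs1.lt_or_eq with h | h
    · rw [D0_one, sub_zero, D0_q s h, abs_mul, mul_comm, abs_sub_comm s 1]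
      exact mul_le_mul_of_nonneg_right (hE s hs h) (abs_nonneg _)
    · rw [h]; simp
  have hmid : ∀ s t, 1 / 2 ≤ s → s < 1 → 1 / 2 ≤ t → t < 1 → |D0 s - D0 t| ≤ C * |s - t| := by
    intro s t hs hs1 ht ht1
    have h5 := (convex_Ico (1 / 2 : ℝ) 1).norm_image_sub_le_of_norm_hasDerivWithin_le
      (f := D0) (f' := D0d) (C := C)
      (fun u hu => (D0_hasDerivAt u (by linarith [hu.1]) hu.2).hasDerivWithinAt)
      (fun u hu => hC u hu.1 hu.2) (x := t) (y := s) ⟨ht, ht1⟩ ⟨hs, hs1⟩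
    rw [Real.norm_eq_abs, Real.norm_eq_abs] at h5
    exact h5
  have h2 : ∀ s t, 1 / 2 ≤ s → s ≤ 1 → 1 / 2 ≤ t → t ≤ 1 → |D0 s - D0 t| ≤ (C + E) * |s - t| := by
    intro s t hs hs1 ht ht1
    rcases hs1.lt_or_eq with h | h
    · rcases ht1.lt_or_eq with h' | h'
      · exact (hmid s t hs h ht h').trans (mul_le_mul_of_nonneg_right (by linarith) (abs_nonneg _))
      · rw [h']
        exact (hone s hs hs1).trans (mul_le_mul_of_nonneg_right (by linarith) (abs_nonneg _))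
    · rw [h, abs_sub_comm, abs_sub_comm 1 t]
      exact (hone t ht ht1).trans (mul_le_mul_of_nonneg_right (by linarith) (abs_nonneg _))
  refine ⟨K1 + (C + E), by positivity, fun s t hs hs1 ht ht1 => ?_⟩
  refine LpA_glue D0 (K1 + (C + E)) (Set.Icc 0 1) (1 / 2) ⟨by norm_num, by norm_num⟩ ?_ ?_ s t ⟨hs, hs1⟩ ⟨ht, ht1⟩
  · intro s t hs ht hs2 ht2
    exact (h1 s t hs.1 hs2 ht.1 ht2).trans (mul_le_mul_of_nonneg_right (by linarith) (abs_nonneg _))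
  · intro s t hs ht hs2 ht2
    exact (h2 s t hs2 hs.2 ht2 ht.2).trans (mul_le_mul_of_nonneg_right (by linarith) (abs_nonneg _))

theorem dnF_one : deriv nF 1 = -1 := by
  have h4 : deriv nF 1 = deriv (F0 2 2) 1 / F0 2 2 1 := by
    have h5 : nF = fun t => F0 2 2 t / F0 2 2 1 := rfl
    rw [h5, deriv_div_const]
  rw [h4, F0_deriv_one 2 2 le_rfl]
  have := NF_rho_pos.ne'
  field_simp
  norm_num

theorem wyf_one (l : List ℤ) : wyf l 1 = -6 * pf l 1 := by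
  unfold wyf wy
  ring

theorem vpf_one (l : List ℤ) : vpf l 1 = -4 * pf l 1 := by
  unfold vpf vp
  ring

theorem eX_one (lp : Fin 4 → List ℤ) (j : Fin 4) : eX lp j 1 = 0 := by
  fin_cases j <;> simp [eX, NF_nF_one]

theorem eXd_one (lp : Fin 4 → List ℤ) (j : Fin 4) :
    eXd lp j 1 = ![0, -2 * pf (lp 1) 1, -2 * pf (lp 2) 1, -2 * pf (lp 3) 1] j := by
  fin_cases j <;> simp [eXd, NF_nF_one, dnF_one]

theorem eA_one (lf : List ℤ) (ly : Fin 4 → List ℤ) (c2 : ℝ) (j : Fin 4) :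
    eA lf ly c2 j 1 = ![0, -2 - 3 * pf (ly 1) 1, -4 * pf lf 1 - 6 * pf (ly 2) 1 + c2 * gc 1,
      -(4 / 3) * pf lf 1 - 2 * pf (ly 3) 1] j := by
  fin_cases j <;> simp [eA, NF_nF_one, wyf_one] <;> ring

theorem eD_one (lf : List ℤ) (lp ly : Fin 4 → List ℤ) (c2 : ℝ) (j : Fin 4) :
    eD lf lp ly c2 j 1 = ![0, 4 + 6 * pf (ly 1) 1 - 4 * pf (lp 1) 1,
      4 * pf lf 1 + 6 * pf (ly 2) 1 - 4 * pf (lp 2) 1 - c2 * gc 1,
      4 * pf lf 1 + 6 * pf (ly 3) 1 - 4 * pf (lp 3) 1] j := by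
  fin_cases j <;> simp [eD, NF_nF_one, dnF_one, wyf_one, vpf_one] <;> ring

/-- the same as `pw_lip`, `f` only Lipschitz -/
theorem pw_lip2 (f g : ℝ → ℝ) (S : ℝ) (hS : 1 < S)
    (hf : ∃ K : ℝ, 0 ≤ K ∧ ∀ s t, 0 ≤ s → s ≤ 1 → 0 ≤ t → t ≤ 1 → |f s - f t| ≤ K * |s - t|)
    (hg : ∀ s, 1 ≤ s → s ≤ S → ContDiffAt ℝ 1 g s) (h1 : f 1 = g 1) (h2 : g S = 0) :
    LipR (pw f g S) := by
  obtain ⟨K1, hK1, hf1⟩ := hf
  obtain ⟨K2, hK2, hg1⟩ := LpA_c1 g 1 S hS.le hg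
  have e1 : ∀ s, s ≤ 1 → pw f g S s = f s := by
    intro s hs
    unfold pw
    rw [if_pos hs]
  have e2 : ∀ s, 1 ≤ s → s ≤ S → pw f g S s = g s := by
    intro s hs hs2
    unfold pw
    split_ifs with h
    · have : s = 1 := le_antisymm h hs
      rw [this, h1]
    · rfl
  have e3 : ∀ s, S ≤ s → pw f g S s = 0 := by
    intro s hs
    unfold pw
    rw [if_neg (by linarith)]
    split_ifs with h
    · have : s = S := le_antisymm h hs
      rw [this, h2]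
    · rfl
  have g1 : ∀ s t, s ∈ Set.Icc 0 S → t ∈ Set.Icc 0 S → |pw f g S s - pw f g S t| ≤ (K1 + K2) * |s - t| := by
    refine LpA_glue (pw f g S) (K1 + K2) (Set.Icc 0 S) 1 ⟨by norm_num, hS.le⟩ ?_ ?_
    · intro s t hs ht hs1 ht1
      rw [e1 s hs1, e1 t ht1]
      exact (hf1 s t hs.1 hs1 ht.1 ht1).trans (mul_le_mul_of_nonneg_right (by linarith) (abs_nonneg _))
    · intro s t hs ht hs1 ht1
      rw [e2 s hs1 hs.2, e2 t ht1 ht.2]
      exact (hg1 s t hs1 hs.2 ht1 ht.2).trans (mul_le_mul_of_nonneg_right (by linarith) (abs_nonneg _))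
  refine ⟨K1 + K2, by positivity, fun s t hs ht => ?_⟩
  refine LpA_glue (pw f g S) (K1 + K2) (Set.Ici 0) S (by show (0 : ℝ) ≤ S; linarith) ?_ ?_ s t hs ht
  · intro s t hs ht hs1 ht1
    exact g1 s t ⟨hs, hs1⟩ ⟨ht, ht1⟩
  · intro s t hs ht hs1 ht1
    rw [e3 s hs1, e3 t ht1, sub_zero, abs_zero]
    positivity

end Pool.Agent.H23.GP
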