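import Pool.Agent.H94.GP.Kc2a
import Pool.Agent.H94.GP.Kc2b
import Pool.Agent.H94.GP.Kc2c
import Pool.Agent.H94.GP.Kc2d
import Pool.Agent.H94.GP.Kc3a
import Pool.Agent.H94.GP.Kc3b
import Pool.Agent.H94.GP.Kc3c
import Pool.Agent.H94.GP.Kc3d
import Pool.Agent.H94.GP.Ko2a
import Pool.Agent.H94.GP.Ko2b
import Pool.Agent.H94.GP.Ko2c
import Pool.Agent.H94.GP.Ko2d
import Pool.Agent.H94.GP.Ko3a
import Pool.Agent.H94.GP.Ko3b
import Pool.Agent.H94.GP.Ko3c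
import Pool.Agent.H94.GP.Ko3d
import Pool.Agent.H23.GP.RgX
import Pool.Agent.H23.GP.FarB
import Pool.Agent.H23.GP.GlueC
import Pool.Agent.H23.GP.FxE

/-!
# RegG: the certificates of the regions II and III
-/

set_option autoImplicit false

open MeasureTheory Pool.Agent.H94.ER Pool.Agent.H94.SP Pool.Agent.H94.GP

namespace Pool.Agent.H23.GP

/-- the certificate of a region with plain fields -/
theorem plain_cert (m c2 c6 c8 μ0 μ1 μ2 μ3 wi0 wi1 wo0 wo1 wf0 wf1 : ℤ) (h0 : 0 ≤ μ0) (h1 : 0 ≤ μ1) (h2 : 0 ≤ μ2)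
    (h3 : μ3 ^ 2 ≤ μ1 * μ2) (X A Z lX lA lZ : Fin 16 → List ℤ) (K lK : Fin 33 → List ℤ)
    (Hin : ∀ i : ℕ, i < 16 → (zic1 tQ (tE m c2 c6 c8 μ0 μ1 μ2 μ3 wi0 wi1) X A Z K 8 i 1 16
      && zic2 tQ (tE m c2 c6 c8 μ0 μ1 μ2 μ3 wi0 wi1) X A Z K 8 i 1 16) = true)
    (Hout : ∀ i : ℕ, i < 16 → zoc m c2 c6 c8 μ0 μ1 μ2 μ3 wo0 wo1 180000 X A Z lX lA lZ lK 8
      (40000 + 2007 * (i : ℤ)) 2007 80000 = true)
    (Pfar : ∀ r, 0 < r → 13 / 4 ≤ r ^ 2 → ∀ (a ξ η σ : ℝ) (α p q : ℂ), 0 ≤ floc (Tf (m / 1000000) (c2 / 1000000)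
        (c6 / 1000000) (c8 / 1000000) (μ0 / 1000000) (μ1 / 1000000) (μ2 / 1000000) (μ3 / 1000000) (wf0 / 1000000)
        (wf1 / 1000000) (((180000 : ℤ) : ℝ) / 1000000) (gc (r ^ 2)) r) (fun _ => 0) (fun _ => 0) (fun _ => 0)
        a ξ η σ α p q)
    (R : ℝ → ℂ → Prop) (hR : ∀ σ q, R σ q → (wi0 : ℝ) / 1000000 * σ ^ 2 + (wi1 : ℝ) / 1000000 * ‖q‖ ^ 2 ≤ 0 ∧
      (wo0 : ℝ) / 1000000 * σ ^ 2 + (wo1 : ℝ) / 1000000 * ‖q‖ ^ 2 ≤ 0 ∧
      (wf0 : ℝ) / 1000000 * σ ^ 2 + (wf1 : ℝ) / 1000000 * ‖q‖ ^ 2 ≤ 0) :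
    Cert (m / 1000000) R := by
  refine region_cert m c2 c6 c8 μ0 μ1 μ2 μ3 wi0 wi1 wo0 wo1 wf0 wf1 h0 h1 h2 h3
    (fun j => pf (X j)) (fun j => pf (pder (X j))) (fun j => pf (A j)) (fun j => pf (pder (A j)))
    (fun j => pf (Z j)) (fun j => pf (pder (Z j)))
    (fun j => gX (pf (X j) 1) (9 / 4 * pf (pder (X j)) 1 + 2 * pf (X j) 1) (lX j))
    (fun j => gXd (pf (X j) 1) (9 / 4 * pf (pder (X j)) 1 + 2 * pf (X j) 1) (lX j))
    (fun j => oA (pf (A j) 1) (lA j)) (fun j => oAd (pf (A j) 1) (lA j))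
    (fun j => oA (pf (Z j) 1) (lZ j)) (fun j => oAd (pf (Z j) 1) (lZ j))
    (fun j => reg_pX (X j) (lX j)) (fun j => reg_pA (A j) (lA j)) (fun j => reg_pA (Z j) (lZ j))
    (fun j => gX_S _ _ _) (fun j => oA_S _ _) (fun j => oA_S _ _)
    (fun j s _ _ => pf_hasDerivAt _ s) (fun j s _ _ => pf_hasDerivAt _ s) (fun j s _ _ => pf_hasDerivAt _ s)
    (fun j s _ _ => gX_hasDerivAt _ _ _ s) (fun j s _ _ => oA_hasDerivAt _ _ s) (fun j s _ _ => oA_hasDerivAt _ _ s)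
    ?_ ?_ Pfar R hR
  · intro r hr0 hr1 a ξ η σ α p q
    exact zi_all tQ (tE m c2 c6 c8 μ0 μ1 μ2 μ3 wi0 wi1) fQj (fE m c2 c6 c8 μ0 μ1 μ2 μ3 wi0 wi1) ok_tQ
      (ok_tE m c2 c6 c8 μ0 μ1 μ2 μ3 wi0 wi1) X A Z K Hin r hr0 hr1 a ξ η σ α p q
  · intro r hr0 hr1 a ξ η σ α p q
    have h := zo_all m c2 c6 c8 μ0 μ1 μ2 μ3 wo0 wo1 180000 X A Z lX lA lZ lK 8 (by norm_num) Hout r hr0.le
      hr1 a ξ η σ α p q
    unfold H94.GP.gX H94.GP.gXd H94.GP.gA H94.GP.gAd at h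
    simp only [fX_eq, fXd_eq, fA_eq, fAd_eq] at h
    have e : (((180000 : ℤ) : ℝ) / 1000000) = 9 / 50 := by norm_num
    rw [e] at h
    exact h

theorem kc2 : ∀ i : ℕ, i < 16 → (zic1 tQ tE2 dX2 dA2 dZ2 dK2 8 i 1 16 && zic2 tQ tE2 dX2 dA2 dZ2 dK2 8 i 1 16) = true := by
  intro i hi
  interval_cases i
  · exact kc2_0
  · exact kc2_1
  · exact kc2_2
  · exact kc2_3
  · exact kc2_4
  · exact kc2_5
  · exact kc2_6
  · exact kc2_7
  · exact kc2_8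
  · exact kc2_9
  · exact kc2_10
  · exact kc2_11
  · exact kc2_12
  · exact kc2_13
  · exact kc2_14
  · exact kc2_15

theorem kc3 : ∀ i : ℕ, i < 16 → (zic1 tQ tE3 dX3 dA3 dZ3 dK3 8 i 1 16 && zic2 tQ tE3 dX3 dA3 dZ3 dK3 8 i 1 16) = true := by
  intro i hi
  interval_cases i
  · exact kc3_0
  · exact kc3_1
  · exact kc3_2
  · exact kc3_3
  · exact kc3_4
  · exact kc3_5
  · exact kc3_6
  · exact kc3_7
  · exact kc3_8
  · exact kc3_9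
  · exact kc3_10
  · exact kc3_11
  · exact kc3_12
  · exact kc3_13
  · exact kc3_14
  · exact kc3_15

theorem ko2 : ∀ i : ℕ, i < 16 → zo2 i = true := by
  intro i hi
  interval_cases i
  · exact ko2_0
  · exact ko2_1
  · exact ko2_2
  · exact ko2_3
  · exact ko2_4
  · exact ko2_5
  · exact ko2_6
  · exact ko2_7
  · exact ko2_8
  · exact ko2_9
  · exact ko2_10
  · exact ko2_11
  · exact ko2_12
  · exact ko2_13
  · exact ko2_14
  · exact ko2_15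

theorem ko3 : ∀ i : ℕ, i < 16 → zo3 i = true := by
  intro i hi
  interval_cases i
  · exact ko3_0
  · exact ko3_1
  · exact ko3_2
  · exact ko3_3
  · exact ko3_4
  · exact ko3_5
  · exact ko3_6
  · exact ko3_7
  · exact ko3_8
  · exact ko3_9
  · exact ko3_10
  · exact ko3_11
  · exact ko3_12
  · exact ko3_13
  · exact ko3_14
  · exact ko3_15

theorem cert_II : Cert (((100 : ℤ) : ℝ) / 1000000) RII := by
  refine plain_cert 100 4485088 7828978 4145505 3893639 140804 25671 (-46623) 83017 (-83018) (-5843124) 2981168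
    (-295571) 150182 (by norm_num) (by norm_num) (by norm_num) (by norm_num) dX2 dA2 dZ2 oX2 oA2 oZ2 dK2 oK2 kc2 ko2
    (fun r hr0 hr1 a ξ η σ α p q => far_II r hr0 hr1 a ξ η σ α p q) RII ?_
  intro σ q h
  obtain ⟨h1, h2⟩ := h
  refine ⟨?_, ?_, ?_⟩ <;> push_cast <;> nlinarith [sq_nonneg σ]

theorem cert_III : Cert (((100 : ℤ) : ℝ) / 1000000) RIII := by
  refine plain_cert 100 4864478 6141834 3320291 2304688 288556 111611 (-159138) 129289 (-65964) 25 (-13)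
    749372 (-382333) (by norm_num) (by norm_num) (by norm_num) (by norm_num) dX3 dA3 dZ3 oX3 oA3 oZ3 dK3 oK3 kc3 ko3
    (fun r hr0 hr1 a ξ η σ α p q => far_III r hr0 hr1 a ξ η σ α p q) RIII ?_
  intro σ q h
  unfold RIII at h
  refine ⟨?_, ?_, ?_⟩ <;> push_cast <;> nlinarith [sq_nonneg σ]

end Pool.Agent.H23.GP
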