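import Pool.Agent.H23.GP.RegF
import Pool.Agent.H23.GP.RegG

/-!
# Main: the disk maximises `λ_4 / λ_1` among all nonempty open sets of the plane
-/

set_option autoImplicit false

open Pool.Agent.H94.ER Pool.Agent.H94.SP Pool.Agent.H94.GP

namespace Pool.Agent.H23.GP

theorem main_planar (Ω : Set (E 2)) (hΩ : IsOpen Ω) (hne : Ω.Nonempty) :
    0 < dirEig (uball 2) 1 ∧
      dirEig Ω 4 * dirEig (uball 2) 1 ≤ dirEig (uball 2) 4 * dirEig Ω 1 :=
  assemble (((100 : ℤ) : ℝ) / 1000000) (by norm_num) RI RII RIII R_all cert_I cert_II cert_III Ω hΩ hne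

end Pool.Agent.H23.GP
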