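import Pool.Agent.H94.GP.QtA
import Pool.Agent.H94.SP.Ode
import Pool.Agent.H94.ER.PrE
import Pool.Agent.H94.ER.TrD

/-!
# PhA: the profile `phi0` and values of `nFp`, `phi0` inside and outside the unit disk
-/

set_option autoImplicit false

open Pool.Agent.H94.ER Pool.Agent.H94.SP Pool.Agent.H94.GP

namespace Pool.Agent.H23.GP

/-- the profile -/
noncomputable def phi0 (s : ℝ) : ℝ := if s ≤ 1 then pf lphi s else 9 / 50 * s ^ (-(1 : ℝ) / 2)

theorem PhA_one : pf lphi 1 = 9 / 50 * (1 : ℝ) ^ (-(1 : ℝ) / 2) := by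
  rw [Real.one_rpow]
  simp [pf, lphi, pev]
  norm_num

theorem PhA_done : pf (pder lphi) 1 = 9 / 50 * (-(1 : ℝ) / 2 * (1 : ℝ) ^ (-(1 : ℝ) / 2 - 1)) := by
  rw [Real.one_rpow]
  simp [pf, lphi, pder, pdaux, pev]
  norm_num

theorem PhA_out (s : ℝ) (hs : 1 ≤ s) : HasDerivAt (fun s : ℝ => 9 / 50 * s ^ (-(1 : ℝ) / 2))
    (9 / 50 * (-(1 : ℝ) / 2 * s ^ (-(1 : ℝ) / 2 - 1))) s :=
  (Real.hasDerivAt_rpow_const (Or.inl (by positivity))).const_mul _

theorem PhA_deriv (s : ℝ) : HasDerivAt phi0 (if s ≤ 1 then pf (pder lphi) s else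
    9 / 50 * (-(1 : ℝ) / 2 * s ^ (-(1 : ℝ) / 2 - 1))) s :=
  pre_hasDerivAt (pf lphi) (fun s : ℝ => 9 / 50 * s ^ (-(1 : ℝ) / 2)) (pf (pder lphi))
    (fun s => 9 / 50 * (-(1 : ℝ) / 2 * s ^ (-(1 : ℝ) / 2 - 1))) (fun s _ => pf_hasDerivAt lphi s)
    (fun s hs => PhA_out s hs) PhA_one PhA_done s

theorem contDiff_phi0 : ContDiff ℝ 1 phi0 := by
  rw [contDiff_one_iff_deriv]
  refine ⟨fun s => (PhA_deriv s).differentiableAt, ?_⟩
  have h1 : deriv phi0 = fun s => if s ≤ 1 then pf (pder lphi) s else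
      9 / 50 * (-(1 : ℝ) / 2 * s ^ (-(1 : ℝ) / 2 - 1)) := funext fun s => (PhA_deriv s).deriv
  rw [h1]
  refine pre_continuous (pf (pder lphi)) _ (fun s _ => (pf_hasDerivAt _ s).continuousAt) (fun s hs => ?_) PhA_done
  have h0 : (0 : ℝ) < s := by linarith
  exact (continuousAt_const.mul (continuousAt_const.mul (continuousAt_id.rpow_const (Or.inl h0.ne'))))

theorem phi0_bound : ∃ b : ℝ, 0 ≤ b ∧ ∀ (j : Fin 2) (x : E 2), |tf phi0 j x| ≤ b ∧ ∀ i, |pd i (tf phi0 j) x| ≤ b := by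
  refine tf_bound (N := 2) phi0 contDiff_phi0 fun s hs => ?_
  have e1 : phi0 1 = 9 / 50 := by
    rw [phi0, if_pos le_rfl, PhA_one, Real.one_rpow, mul_one]
  rw [e1]
  rcases eq_or_lt_of_le hs with h | h
  · rw [← h, e1, Real.one_rpow, mul_one]
  · rw [phi0, if_neg (not_le.2 h)]

theorem phi0_in (s : ℝ) (hs : s < 1) : phi0 s = pf lphi s := by rw [phi0, if_pos hs.le]

theorem phi0_in_deriv (s : ℝ) (hs : s < 1) : HasDerivAt phi0 (pf (pder lphi) s) s := by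
  have h := PhA_deriv s
  rwa [if_pos hs.le] at h

theorem PhA_rpow (r : ℝ) (hr : 0 < r) : (r ^ 2) ^ (-(1 : ℝ) / 2) = 1 / r := by
  rw [← Real.rpow_natCast, ← Real.rpow_mul hr.le]
  norm_num
  exact Real.rpow_neg_one r

theorem phi0_out (r : ℝ) (hr : 1 < r) : phi0 (r ^ 2) = 9 / 50 / r := by
  have h1 : ¬ r ^ 2 ≤ 1 := by nlinarith
  rw [phi0, if_neg h1, PhA_rpow r (by linarith)]
  ring

theorem phi0_out_deriv (r : ℝ) (hr : 1 < r) : HasDerivAt phi0 (-(9 / 50 / (2 * r ^ 3))) (r ^ 2) := by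
  have h1 : ¬ r ^ 2 ≤ 1 := by nlinarith
  have h := PhA_deriv (r ^ 2)
  rw [if_neg h1] at h
  refine h.congr_deriv ?_
  have h0 : 0 < r := by linarith
  rw [Real.rpow_sub (by positivity), Real.rpow_one, PhA_rpow r h0]
  field_simp

theorem nFp_in_deriv (s : ℝ) (hs : s < 1) : HasDerivAt nFp (deriv nF s) s := by
  refine (nF_hasDerivAt s hs.le).congr_of_eventuallyEq ?_
  filter_upwards [gt_mem_nhds hs] with t ht
  exact nFp_in t ht.le

theorem nFp_out_deriv (s : ℝ) (hs : 1 < s) : HasDerivAt nFp (-(1 / s ^ 2)) s := by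
  have h := (hasDerivAt_inv (show s ≠ 0 by linarith))
  have e : nFp =ᶠ[nhds s] fun t => t⁻¹ := by
    filter_upwards [lt_mem_nhds hs] with t ht
    rw [nFp_out t ht.le, one_div]
  refine (h.congr_of_eventuallyEq e).congr_deriv ?_
  rw [one_div]

end Pool.Agent.H23.GP
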