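import Pool.Agent.H23.GP.ZiI
import Pool.Agent.H23.GP.RunD

/-!
# RunI2a: kernel checks inside the disk, region I, block 2, intervals 0 to 7
-/

set_option autoImplicit false

open Pool.Agent.H94.ER Pool.Agent.H94.SP Pool.Agent.H94.GP

namespace Pool.Agent.H23.GP

theorem kI2_0 : zii2 tEI dlp dly dlh dc2 dIX dIA dIZ dIK 7 0 1 16 = true := by decide +kernel
theorem kI2_1 : zii2 tEI dlp dly dlh dc2 dIX dIA dIZ dIK 7 1 1 16 = true := by decide +kernel
theorem kI2_2 : zii2 tEI dlp dly dlh dc2 dIX dIA dIZ dIK 7 2 1 16 = true := by decide +kernel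
theorem kI2_3 : zii2 tEI dlp dly dlh dc2 dIX dIA dIZ dIK 7 3 1 16 = true := by decide +kernel
theorem kI2_4 : zii2 tEI dlp dly dlh dc2 dIX dIA dIZ dIK 7 4 1 16 = true := by decide +kernel
theorem kI2_5 : zii2 tEI dlp dly dlh dc2 dIX dIA dIZ dIK 7 5 1 16 = true := by decide +kernel
theorem kI2_6 : zii2 tEI dlp dly dlh dc2 dIX dIA dIZ dIK 7 6 1 16 = true := by decide +kernel
theorem kI2_7 : zii2 tEI dlp dly dlh dc2 dIX dIA dIZ dIK 7 7 1 16 = true := by decide +kernel

end Pool.Agent.H23.GP
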