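import Pool.Agent.H23.GP.ZiI
import Pool.Agent.H23.GP.RunD

/-!
# RunI2b: kernel checks inside the disk, region I, block 2, intervals 8 to 15
-/

set_option autoImplicit false

open Pool.Agent.H94.ER Pool.Agent.H94.SP Pool.Agent.H94.GP

namespace Pool.Agent.H23.GP

theorem kI2_8 : zii2 tEI dlp dly dlh dc2 dIX dIA dIZ dIK 7 8 1 16 = true := by decide +kernel
theorem kI2_9 : zii2 tEI dlp dly dlh dc2 dIX dIA dIZ dIK 7 9 1 16 = true := by decide +kernel
theorem kI2_10 : zii2 tEI dlp dly dlh dc2 dIX dIA dIZ dIK 7 10 1 16 = true := by decide +kernel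
theorem kI2_11 : zii2 tEI dlp dly dlh dc2 dIX dIA dIZ dIK 7 11 1 16 = true := by decide +kernel
theorem kI2_12 : zii2 tEI dlp dly dlh dc2 dIX dIA dIZ dIK 7 12 1 16 = true := by decide +kernel
theorem kI2_13 : zii2 tEI dlp dly dlh dc2 dIX dIA dIZ dIK 7 13 1 16 = true := by decide +kernel
theorem kI2_14 : zii2 tEI dlp dly dlh dc2 dIX dIA dIZ dIK 8 14 1 16 = true := by decide +kernel
theorem kI2_15 : zii2 tEI dlp dly dlh dc2 dIX dIA dIZ dIK 7 15 1 16 = true := by decide +kernel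

end Pool.Agent.H23.GP
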