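import Pool.Agent.H23.GP.RunI1a
import Pool.Agent.H23.GP.RunI1b
import Pool.Agent.H23.GP.RunI2a
import Pool.Agent.H23.GP.RunI2b

/-!
# RunI: inside the disk, region I
-/

set_option autoImplicit false

open Pool.Agent.H94.ER Pool.Agent.H94.SP Pool.Agent.H94.GP

namespace Pool.Agent.H23.GP

theorem fEI0 (j : Fin 4) (s : ℝ) :
    fEI (Fin.castLE (by norm_num) j) s = ![0, 0, -(gc s * (dc2 / 1000000)), 0] j := by
  fin_cases j <;> simp [fEI, fE, Ec, Spz, dc2]

/-- positivity of the local form inside the disk, region I -/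
theorem in_I (r : ℝ) (hr0 : 0 < r) (hr3 : r < 1) (a' ξ η σ : ℝ) (α p q : ℂ) :
    0 ≤ floc (fun j => (fQj j (r ^ 2) + fEI j (r ^ 2) - bz 2 * iX dlp dIX j (r ^ 2)
            - (2 * kj j * iAd dly (dc2 / 1000000) dIA j (r ^ 2) + 2 * r ^ 2 * iDd dlp dly (dc2 / 1000000) dIZ j (r ^ 2)
              + (kj j + 2) * iD dlp dly (dc2 / 1000000) dIZ j (r ^ 2))) * r ^ kj j)
          (fun j => (kj j * iA dly (dc2 / 1000000) dIA j (r ^ 2) + r ^ 2 * iD dlp dly (dc2 / 1000000) dIZ j (r ^ 2)
            - r ^ 2 * iXd dlp dIX j (r ^ 2) - 1 / 2 * kj j * iX dlp dIX j (r ^ 2)) * r ^ kj j / r)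
          (fun j => kj j * (iA dly (dc2 / 1000000) dIA j (r ^ 2) - 1 / 2 * iX dlp dIX j (r ^ 2)) * r ^ kj j / r)
          (fun j => iX dlp dIX j (r ^ 2) * r ^ kj j) a' ξ η σ α p q := by
  have key : ∀ (n : ℕ) (a : ℤ), 0 < n → 0 ≤ a → a + 1 ≤ 16 →
      zii1 tEI dlp dly dlh dc2 dIX dIA dIZ dIK n a 1 16 = true →
      zii2 tEI dlp dly dlh dc2 dIX dIA dIZ dIK n a 1 16 = true → (a : ℝ) ≤ 16 * r → 16 * r ≤ a + 1 → _ :=
    fun n a hn ha ha1 h1 h2 hr1 hr2 => zii_pos tEI fEI ok_tEI dlp dly dlh dc2 fEI0 dIX dIA dIZ dIK n hn a 1 16 ha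
      (by norm_num) (by norm_num) ha1 h1 h2 r hr0 hr3 (by push_cast; exact hr1) (by push_cast; exact hr2)
      a' ξ η σ α p q
  rcases le_or_gt (16 * r) 1 with h0 | h0
  · exact key 7 0 (by norm_num) (by norm_num) (by norm_num) kI1_0 kI2_0 (by push_cast; linarith) (by push_cast; linarith)
  rcases le_or_gt (16 * r) 2 with h1 | h1
  · exact key 7 1 (by norm_num) (by norm_num) (by norm_num) kI1_1 kI2_1 (by push_cast; linarith) (by push_cast; linarith)
  rcases le_or_gt (16 * r) 3 with h2 | h2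
  · exact key 7 2 (by norm_num) (by norm_num) (by norm_num) kI1_2 kI2_2 (by push_cast; linarith) (by push_cast; linarith)
  rcases le_or_gt (16 * r) 4 with h3 | h3
  · exact key 7 3 (by norm_num) (by norm_num) (by norm_num) kI1_3 kI2_3 (by push_cast; linarith) (by push_cast; linarith)
  rcases le_or_gt (16 * r) 5 with h4 | h4
  · exact key 7 4 (by norm_num) (by norm_num) (by norm_num) kI1_4 kI2_4 (by push_cast; linarith) (by push_cast; linarith)
  rcases le_or_gt (16 * r) 6 with h5 | h5
  · exact key 7 5 (by norm_num) (by norm_num) (by norm_num) kI1_5 kI2_5 (by push_cast; linarith) (by push_cast; linarith)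
  rcases le_or_gt (16 * r) 7 with h6 | h6
  · exact key 7 6 (by norm_num) (by norm_num) (by norm_num) kI1_6 kI2_6 (by push_cast; linarith) (by push_cast; linarith)
  rcases le_or_gt (16 * r) 8 with h7 | h7
  · exact key 7 7 (by norm_num) (by norm_num) (by norm_num) kI1_7 kI2_7 (by push_cast; linarith) (by push_cast; linarith)
  rcases le_or_gt (16 * r) 9 with h8 | h8
  · exact key 7 8 (by norm_num) (by norm_num) (by norm_num) kI1_8 kI2_8 (by push_cast; linarith) (by push_cast; linarith)
  rcases le_or_gt (16 * r) 10 with h9 | h9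
  · exact key 7 9 (by norm_num) (by norm_num) (by norm_num) kI1_9 kI2_9 (by push_cast; linarith) (by push_cast; linarith)
  rcases le_or_gt (16 * r) 11 with h10 | h10
  · exact key 7 10 (by norm_num) (by norm_num) (by norm_num) kI1_10 kI2_10 (by push_cast; linarith) (by push_cast; linarith)
  rcases le_or_gt (16 * r) 12 with h11 | h11
  · exact key 7 11 (by norm_num) (by norm_num) (by norm_num) kI1_11 kI2_11 (by push_cast; linarith) (by push_cast; linarith)
  rcases le_or_gt (16 * r) 13 with h12 | h12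
  · exact key 7 12 (by norm_num) (by norm_num) (by norm_num) kI1_12 kI2_12 (by push_cast; linarith) (by push_cast; linarith)
  rcases le_or_gt (16 * r) 14 with h13 | h13
  · exact key 7 13 (by norm_num) (by norm_num) (by norm_num) kI1_13 kI2_13 (by push_cast; linarith) (by push_cast; linarith)
  rcases le_or_gt (16 * r) 15 with h14 | h14
  · exact key 8 14 (by norm_num) (by norm_num) (by norm_num) kI1_14 kI2_14 (by push_cast; linarith) (by push_cast; linarith)
  exact key 7 15 (by norm_num) (by norm_num) (by norm_num) kI1_15 kI2_15 (by push_cast; linarith) (by push_cast; linarith)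

end Pool.Agent.H23.GP
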