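import Pool.Agent.H23.GP.DatO

/-!
# RunOb: kernel checks outside the disk, region I, intervals 4 to 7
-/

set_option autoImplicit false

open Pool.Agent.H94.ER Pool.Agent.H94.SP Pool.Agent.H94.GP

namespace Pool.Agent.H23.GP

theorem kO1_4 : zI1 8 4 = true := by decide +kernel
theorem kO2_4 : zI2 8 4 = true := by decide +kernel
theorem kO1_5 : zI1 8 5 = true := by decide +kernel
theorem kO2_5 : zI2 8 5 = true := by decide +kernel
theorem kO1_6 : zI1 8 6 = true := by decide +kernel
theorem kO2_6 : zI2 8 6 = true := by decide +kernel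
theorem kO1_7 : zI1 8 7 = true := by decide +kernel
theorem kO2_7 : zI2 8 7 = true := by decide +kernel

end Pool.Agent.H23.GP
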