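import Pool.Agent.H23.GP.DatO

/-!
# RunOc: kernel checks outside the disk, region I, intervals 8 to 11
-/

set_option autoImplicit false

open Pool.Agent.H94.ER Pool.Agent.H94.SP Pool.Agent.H94.GP

namespace Pool.Agent.H23.GP

theorem kO1_8 : zI1 8 8 = true := by decide +kernel
theorem kO2_8 : zI2 8 8 = true := by decide +kernel
theorem kO1_9 : zI1 8 9 = true := by decide +kernel
theorem kO2_9 : zI2 8 9 = true := by decide +kernel
theorem kO1_10 : zI1 8 10 = true := by decide +kernel
theorem kO2_10 : zI2 8 10 = true := by decide +kernel
theorem kO1_11 : zI1 8 11 = true := by decide +kernel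
theorem kO2_11 : zI2 8 11 = true := by decide +kernel

end Pool.Agent.H23.GP
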