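import Pool.Agent.H23.GP.DatO

/-!
# RunOd: kernel checks outside the disk, region I, intervals 12 to 15
-/

set_option autoImplicit false

open Pool.Agent.H94.ER Pool.Agent.H94.SP Pool.Agent.H94.GP

namespace Pool.Agent.H23.GP

theorem kO1_12 : zI1 8 12 = true := by decide +kernel
theorem kO2_12 : zI2 8 12 = true := by decide +kernel
theorem kO1_13 : zI1 8 13 = true := by decide +kernel
theorem kO2_13 : zI2 8 13 = true := by decide +kernel
theorem kO1_14 : zI1 8 14 = true := by decide +kernel
theorem kO2_14 : zI2 8 14 = true := by decide +kernel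
theorem kO1_15 : zI1 8 15 = true := by decide +kernel
theorem kO2_15 : zI2 8 15 = true := by decide +kernel

end Pool.Agent.H23.GP
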