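import Pool.Agent.H23.GP.RunOa
import Pool.Agent.H23.GP.RunOb
import Pool.Agent.H23.GP.RunOc
import Pool.Agent.H23.GP.RunOd
import Pool.Agent.H23.GP.RunI
import Pool.Agent.H23.GP.FarB
import Pool.Agent.H23.GP.GlueC
import Pool.Agent.H23.GP.FxE

/-!
# RegF: the certificate of region I
-/

set_option autoImplicit false

open MeasureTheory Pool.Agent.H94.ER Pool.Agent.H94.SP Pool.Agent.H94.GP

namespace Pool.Agent.H23.GP

theorem kO1 (i : ℕ) (hi : i < 16) : zI1 8 (i : ℤ) = true := by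
  interval_cases i
  · exact kO1_0
  · exact kO1_1
  · exact kO1_2
  · exact kO1_3
  · exact kO1_4
  · exact kO1_5
  · exact kO1_6
  · exact kO1_7
  · exact kO1_8
  · exact kO1_9
  · exact kO1_10
  · exact kO1_11
  · exact kO1_12
  · exact kO1_13
  · exact kO1_14
  · exact kO1_15

theorem kO2 (i : ℕ) (hi : i < 16) : zI2 8 (i : ℤ) = true := by
  interval_cases i
  · exact kO2_0
  · exact kO2_1
  · exact kO2_2
  · exact kO2_3
  · exact kO2_4
  · exact kO2_5
  · exact kO2_6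
  · exact kO2_7
  · exact kO2_8
  · exact kO2_9
  · exact kO2_10
  · exact kO2_11
  · exact kO2_12
  · exact kO2_13
  · exact kO2_14
  · exact kO2_15

theorem cert_I : Cert (((100 : ℤ) : ℝ) / 1000000) RI := by
  refine region_cert 100 4705752 7897026 4935704 3846704 67999 1607 (-2442) 0 0 (-5870188) 5870188 (-928009) 928009
    (by norm_num) (by norm_num) (by norm_num) (by norm_num)
    (fun j => iX dlp dIX j) (fun j => iXd dlp dIX j) (fun j => iA dly (dc2 / 1000000) dIA j)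
    (fun j => iAd dly (dc2 / 1000000) dIA j) (fun j => iD dlp dly (dc2 / 1000000) dIZ j)
    (fun j => iDd dlp dly (dc2 / 1000000) dIZ j)
    (fun j => gX (bx j) (bu j) (dOX j)) (fun j => gXd (bx j) (bu j) (dOX j)) (fun j => oA (ba j) (dOA j))
    (fun j => oAd (ba j) (dOA j)) (fun j => oA (bz' j) (dOZ j)) (fun j => oAd (bz' j) (dOZ j))
    (fun j => reg_iX dlp dIX dOX j) (fun j => reg_iA dly (dc2 / 1000000) dIA dOA j)
    (fun j => reg_iD dlp dly (dc2 / 1000000) dIZ dOZ j)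
    (fun j => gX_S _ _ _) (fun j => oA_S _ _) (fun j => oA_S _ _)
    (fun j s h0 h1 => der_iX dlp dIX j s h1) (fun j s h0 h1 => der_iA dly (dc2 / 1000000) dIA j s h0 h1)
    (fun j s h0 h1 => der_iD dlp dly (dc2 / 1000000) dIZ j s h0 h1)
    (fun j s _ _ => gX_hasDerivAt _ _ _ s) (fun j s _ _ => oA_hasDerivAt _ _ s) (fun j s _ _ => oA_hasDerivAt _ _ s)
    ?_ ?_ ?_ RI ?_
  · exact fun r hr0 hr1 a ξ η σ α p q => in_I r hr0 hr1 a ξ η σ α p q
  · intro r hr0 hr1 a ξ η σ α p q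
    have h := zoi_all 100 4705752 7897026 4935704 3846704 67999 1607 (-2442) (-5870188) 5870188 180000 mbx mbu mba mbz
      bx bu ba bz' ok_mbx ok_mbu ok_mba ok_mbz bx_zero bu_zero bz_zero dOX dOA dOZ dOK (fun _ => 8) (fun _ => by norm_num)
      kO1 kO2 r hr0.le hr1 a ξ η σ α p q
    simp only [fX_eq, fXd_eq, fA_eq, fAd_eq] at h
    have e : (((180000 : ℤ) : ℝ) / 1000000) = 9 / 50 := by norm_num
    rw [e] at h
    exact h
  · exact fun r hr0 hr1 a ξ η σ α p q => far_I r hr0 hr1 a ξ η σ α p q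
  · intro σ q h
    unfold RI at h
    refine ⟨?_, ?_, ?_⟩ <;> push_cast <;> nlinarith [sq_nonneg σ]

end Pool.Agent.H23.GP
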