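import Pool.Agent.H23.GP.DatO

/-!
# RunOa: kernel checks outside the disk, region I, intervals 0 to 3
-/

set_option autoImplicit false

open Pool.Agent.H94.ER Pool.Agent.H94.SP Pool.Agent.H94.GP

namespace Pool.Agent.H23.GP

theorem kO1_0 : zI1 8 0 = true := by decide +kernel
theorem kO2_0 : zI2 8 0 = true := by decide +kernel
theorem kO1_1 : zI1 8 1 = true := by decide +kernel
theorem kO2_1 : zI2 8 1 = true := by decide +kernel
theorem kO1_2 : zI1 8 2 = true := by decide +kernel
theorem kO2_2 : zI2 8 2 = true := by decide +kernel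
theorem kO1_3 : zI1 8 3 = true := by decide +kernel
theorem kO2_3 : zI2 8 3 = true := by decide +kernel

end Pool.Agent.H23.GP
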