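import Pool.Agent.H94.GP.ZoC
import Pool.Agent.H23.GP.BlkO

/-!
# ZoI: the zone `1 < r^2 < 13/4`, region I

The rows `ξ σ`, `η σ` are multiplied by `1/t`; the skew entries of the row `a σ` are `K' = -R' - κ`, `R' = R - (1-t)/2 κ`.
-/

set_option autoImplicit false

open Pool.Agent.H94.ER Pool.Agent.H94.SP Pool.Agent.H94.GP

namespace Pool.Agent.H23.GP

/-- index of the skew entry of the row `a σ` -/
def iR (j : Fin 16) : Fin 33 := if j = 1 then 0 else if j = 2 then 1 else 2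
/-- index of the skew entry of the row `a σ` -/
def iS (j : Fin 16) : Fin 33 := if j = 1 then 9 else if j = 2 then 10 else 11
/-- component of the skew entry -/
def jR' (i : Fin 33) : Fin 16 := if i = 0 then 1 else if i = 1 then 2 else 3
/-- component of the skew entry -/
def jS' (i : Fin 33) : Fin 16 := if i = 9 then 1 else if i = 10 then 2 else 3

/-- reduced `X` -/
noncomputable def wX (x0 u : Fin 16 → ℝ) (oX : Fin 16 → List ℤ) (j : Fin 16) (x : ℝ) : ℝ :=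
  if j = 0 then pf (oX j) (H94.GP.tt x)
  else if j.val < 4 then (2 * x) ^ kj j * (u j + H94.GP.tt x * pf (oX j) (H94.GP.tt x))
  else (2 * x) ^ kj j * oQX (x0 j) (u j) (oX j) x

/-- model -/
def mwX (tx tu : Fin 16 → TM) (oX : Fin 16 → List ℤ) (j : Fin 16) : TM :=
  if j = 0 then ptm (oX j)
  else if j.val < 4 then rpw (kj j) ((tu j).add (tmt.mul DD (ptm (oX j))))
  else rpw (kj j) (mQX (tx j) (tu j) (oX j))

theorem ok_mwX (tx tu : Fin 16 → TM) (x0 u : Fin 16 → ℝ) (hx : ∀ j, (tx j).ok DD (fun _ => x0 j))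
    (hu : ∀ j, (tu j).ok DD (fun _ => u j)) (oX : Fin 16 → List ℤ) (j : Fin 16) :
    (mwX tx tu oX j).ok DD (wX x0 u oX j) := by
  unfold mwX wX
  by_cases h0 : j = 0
  · simp only [if_pos h0]
    exact ok_ptm _
  · simp only [if_neg h0]
    by_cases h : j.val < 4
    · simp only [if_pos h]
      exact ok_rpw DD _ _ _ (TM.ok_add _ _ _ _ _ (hu j) (TM.ok_mul DD DD_pos _ _ _ _ ok_tt (ok_ptm _)))
    · simp only [if_neg h]
      exact ok_rpw DD _ _ _ (ok_mQX _ _ _ _ (hx j) (hu j) _)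

/-- the model of `R` for the weight `k` -/
noncomputable def vR (x0 u a0 z0 : Fin 16 → ℝ) (oX oA oZ : Fin 16 → List ℤ) (j : Fin 16) (x : ℝ) : ℝ :=
  oR (kj j) (oQX (x0 j) (u j) (oX j)) (oQXd (u j) (oX j)) (oQA (a0 j) (oA j)) (oQA (z0 j) (oZ j)) x

/-- model -/
def mvR (tx tu ta tz : Fin 16 → TM) (oX oA oZ : Fin 16 → List ℤ) (j : Fin 16) : TM :=
  mR (kj j) (mQX (tx j) (tu j) (oX j)) (mQXd (tu j) (oX j)) (mQA (ta j) (oA j)) (mQA (tz j) (oZ j))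

/-- the model of `S` -/
noncomputable def vS (x0 u a0 : Fin 16 → ℝ) (oX oA : Fin 16 → List ℤ) (j : Fin 16) (x : ℝ) : ℝ :=
  oS (kj j) (oQX (x0 j) (u j) (oX j)) (oQA (a0 j) (oA j)) x

/-- model -/
def mvS (tx tu ta : Fin 16 → TM) (oX oA : Fin 16 → List ℤ) (j : Fin 16) : TM :=
  mS (kj j) (mQX (tx j) (tu j) (oX j)) (mQA (ta j) (oA j))

/-- `R 0` divided by `t` -/
noncomputable def w0R (lX lZ : List ℤ) (x : ℝ) : ℝ :=
  4 * x ^ 2 * (pf lZ (H94.GP.tt x) + ((-1 : ℤ) : ℝ) * (4 / 9 * (((-2 : ℤ) : ℝ) * (H94.GP.tt x * pf lX (H94.GP.tt x))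
    + ee x * (((2 : ℤ) : ℝ) * pf lX (H94.GP.tt x) + H94.GP.tt x * pf (pder lX) (H94.GP.tt x)))))

/-- model -/
def mw0R (lX lZ : List ℤ) : TM :=
  tms.mul DD ((ptm lZ).add ((c49.mul DD (((tmt.mul DD (ptm lX)).smul (-2)).add
    (tme.mul DD (((ptm lX).smul 2).add (tmt.mul DD (ptm (pder lX))))))).smul (-1)))

theorem ok_mw0R (lX lZ : List ℤ) : (mw0R lX lZ).ok DD (w0R lX lZ) :=
  TM.ok_mul DD DD_pos _ _ _ _ ok_ss (TM.ok_add _ _ _ _ _ (ok_ptm lZ) (TM.ok_smul _ (-1) _ _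
    (TM.ok_mul DD DD_pos _ _ _ _ ok_c49 (TM.ok_add _ _ _ _ _
      (TM.ok_smul _ (-2) _ _ (TM.ok_mul DD DD_pos _ _ _ _ ok_tt (ok_ptm lX)))
      (TM.ok_mul DD DD_pos _ _ _ _ ok_ee (TM.ok_add _ _ _ _ _ (TM.ok_smul _ 2 _ _ (ok_ptm lX))
        (TM.ok_mul DD DD_pos _ _ _ _ ok_tt (ok_ptm _))))))))

/-- `- (1-t)/2 κ` -/
noncomputable def hk (K : ℝ → ℝ) (x : ℝ) : ℝ := ((-1 : ℤ) : ℝ) * (((500000 : ℤ) : ℝ) / 1000000 * (ee x * K x))

/-- model -/
def mhk (t : TM) : TM := ((cc 500000).mul DD (tme.mul DD t)).smul (-1)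

theorem ok_mhk (t : TM) (K : ℝ → ℝ) (h : t.ok DD K) : (mhk t).ok DD (hk K) :=
  TM.ok_smul _ (-1) _ _ (TM.ok_mul DD DD_pos _ _ _ _ (ok_cc 500000) (TM.ok_mul DD DD_pos _ _ _ _ ok_ee h))

/-- reduced `R` -/
noncomputable def wR (x0 u a0 z0 : Fin 16 → ℝ) (oX oA oZ : Fin 16 → List ℤ) (oK : Fin 33 → List ℤ) (j : Fin 16)
    (x : ℝ) : ℝ :=
  if j = 0 then w0R (oX j) (oZ j) x
  else if j.val < 4 then vR x0 u a0 z0 oX oA oZ j x + hk (zoK oK (iR j)) x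
  else vR x0 u a0 z0 oX oA oZ j x

/-- model -/
def mwR (tx tu ta tz : Fin 16 → TM) (oX oA oZ : Fin 16 → List ℤ) (oK : Fin 33 → List ℤ) (j : Fin 16) : TM :=
  if j = 0 then mw0R (oX j) (oZ j)
  else if j.val < 4 then (mvR tx tu ta tz oX oA oZ j).add (mhk (mK oK (iR j)))
  else mvR tx tu ta tz oX oA oZ j

/-- reduced `S` -/
noncomputable def wS (x0 u a0 : Fin 16 → ℝ) (oX oA : Fin 16 → List ℤ) (oK : Fin 33 → List ℤ) (j : Fin 16)
    (x : ℝ) : ℝ :=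
  if j = 0 then vS x0 u a0 oX oA j x
  else if j.val < 4 then vS x0 u a0 oX oA j x + hk (zoK oK (iS j)) x
  else vS x0 u a0 oX oA j x

/-- model -/
def mwS (tx tu ta : Fin 16 → TM) (oX oA : Fin 16 → List ℤ) (oK : Fin 33 → List ℤ) (j : Fin 16) : TM :=
  if j = 0 then mvS tx tu ta oX oA j
  else if j.val < 4 then (mvS tx tu ta oX oA j).add (mhk (mK oK (iS j)))
  else mvS tx tu ta oX oA j

/-- reduced `K` -/
noncomputable def wK (x0 u a0 z0 : Fin 16 → ℝ) (oX oA oZ : Fin 16 → List ℤ) (oK : Fin 33 → List ℤ) (i : Fin 33)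
    (x : ℝ) : ℝ :=
  if i.val < 3 then ((-1 : ℤ) : ℝ) * (wR x0 u a0 z0 oX oA oZ oK (jR' i) x + zoK oK i x)
  else if i.val < 9 then zoK oK i x
  else if i.val < 12 then ((-1 : ℤ) : ℝ) * (wS x0 u a0 oX oA oK (jS' i) x + zoK oK i x)
  else zoK oK i x

/-- model -/
def mwK (tx tu ta tz : Fin 16 → TM) (oX oA oZ : Fin 16 → List ℤ) (oK : Fin 33 → List ℤ) (i : Fin 33) : TM :=
  if i.val < 3 then ((mwR tx tu ta tz oX oA oZ oK (jR' i)).add (mK oK i)).smul (-1)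
  else if i.val < 9 then mK oK i
  else if i.val < 12 then ((mwS tx tu ta oX oA oK (jS' i)).add (mK oK i)).smul (-1)
  else mK oK i

section
variable (tx tu ta tz : Fin 16 → TM) (x0 u a0 z0 : Fin 16 → ℝ) (hx : ∀ j, (tx j).ok DD (fun _ => x0 j))
    (hu : ∀ j, (tu j).ok DD (fun _ => u j)) (ha : ∀ j, (ta j).ok DD (fun _ => a0 j))
    (hz : ∀ j, (tz j).ok DD (fun _ => z0 j)) (oX oA oZ : Fin 16 → List ℤ) (oK : Fin 33 → List ℤ)

include hx hu ha hz in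
theorem ok_mvR (j : Fin 16) : (mvR tx tu ta tz oX oA oZ j).ok DD (vR x0 u a0 z0 oX oA oZ j) :=
  ok_mR (kj j) _ _ _ _ _ _ _ _ (ok_mQX _ _ _ _ (hx j) (hu j) _) (ok_mQXd _ _ (hu j) _) (ok_mQA _ _ (ha j) _)
    (ok_mQA _ _ (hz j) _)

include hx hu ha in
theorem ok_mvS (j : Fin 16) : (mvS tx tu ta oX oA j).ok DD (vS x0 u a0 oX oA j) :=
  ok_mS (kj j) _ _ _ _ (ok_mQX _ _ _ _ (hx j) (hu j) _) (ok_mQA _ _ (ha j) _)

include hx hu ha hz in
theorem ok_mwR (j : Fin 16) : (mwR tx tu ta tz oX oA oZ oK j).ok DD (wR x0 u a0 z0 oX oA oZ oK j) := by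
  unfold mwR wR
  by_cases h0 : j = 0
  · simp only [if_pos h0]
    exact ok_mw0R _ _
  · simp only [if_neg h0]
    by_cases h : j.val < 4
    · simp only [if_pos h]
      exact TM.ok_add _ _ _ _ _ (ok_mvR tx tu ta tz x0 u a0 z0 hx hu ha hz oX oA oZ j) (ok_mhk _ _ (ok_mK oK _))
    · simp only [if_neg h]
      exact ok_mvR tx tu ta tz x0 u a0 z0 hx hu ha hz oX oA oZ j

include hx hu ha in
theorem ok_mwS (j : Fin 16) : (mwS tx tu ta oX oA oK j).ok DD (wS x0 u a0 oX oA oK j) := by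
  unfold mwS wS
  by_cases h0 : j = 0
  · simp only [if_pos h0]
    exact ok_mvS tx tu ta x0 u a0 hx hu ha oX oA j
  · simp only [if_neg h0]
    by_cases h : j.val < 4
    · simp only [if_pos h]
      exact TM.ok_add _ _ _ _ _ (ok_mvS tx tu ta x0 u a0 hx hu ha oX oA j) (ok_mhk _ _ (ok_mK oK _))
    · simp only [if_neg h]
      exact ok_mvS tx tu ta x0 u a0 hx hu ha oX oA j

include hx hu ha hz in
theorem ok_mwK (i : Fin 33) : (mwK tx tu ta tz oX oA oZ oK i).ok DD (wK x0 u a0 z0 oX oA oZ oK i) := by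
  unfold mwK wK
  by_cases h3 : i.val < 3
  · simp only [if_pos h3]
    exact TM.ok_smul _ (-1) _ _ (TM.ok_add _ _ _ _ _ (ok_mwR tx tu ta tz x0 u a0 z0 hx hu ha hz oX oA oZ oK _)
      (ok_mK oK i))
  · simp only [if_neg h3]
    by_cases h9 : i.val < 9
    · simp only [if_pos h9]
      exact ok_mK oK i
    · simp only [if_neg h9]
      by_cases h12 : i.val < 12
      · simp only [if_pos h12]
        exact TM.ok_smul _ (-1) _ _ (TM.ok_add _ _ _ _ _ (ok_mwS tx tu ta x0 u a0 hx hu ha oX oA oK _)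
          (ok_mK oK i))
      · simp only [if_neg h12]
        exact ok_mK oK i

end

/-- check on one subinterval, even block -/
def zoi1 (m c2 c6 c8 μ0 μ1 μ2 μ3 w0 w1 f : ℤ) (tx tu ta tz : Fin 16 → TM) (oX oA oZ : Fin 16 → List ℤ)
    (oK : Fin 33 → List ℤ) (n : ℕ) (a b c : ℤ) : Bool :=
  gc1 (fun j => mT m c2 c6 c8 μ0 μ1 μ2 μ3 w0 w1 f (tx j) (tu j) (ta j) (tz j) (oX j) (oA j) (oZ j) j)
    (mwR tx tu ta tz oX oA oZ oK) (mwS tx tu ta oX oA oK) (mwX tx tu oX) (mwK tx tu ta tz oX oA oZ oK) n a b c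

/-- check on one subinterval, odd block -/
def zoi2 (m c2 c6 c8 μ0 μ1 μ2 μ3 w0 w1 f : ℤ) (tx tu ta tz : Fin 16 → TM) (oX oA oZ : Fin 16 → List ℤ)
    (oK : Fin 33 → List ℤ) (n : ℕ) (a b c : ℤ) : Bool :=
  gc2 (fun j => mT m c2 c6 c8 μ0 μ1 μ2 μ3 w0 w1 f (tx j) (tu j) (ta j) (tz j) (oX j) (oA j) (oZ j) j)
    (mwR tx tu ta tz oX oA oZ oK) (mwS tx tu ta oX oA oK) (mwX tx tu oX) (mwK tx tu ta tz oX oA oZ oK) n a b c

end Pool.Agent.H23.GP
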