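import Pool.Agent.H23.GP.ZoI

/-!
# ZoJ: positivity in the zone `1 < r^2 < 13/4`, region I, from the checks on sixteen subintervals
-/

set_option autoImplicit false

open Pool.Agent.H94.ER Pool.Agent.H94.SP Pool.Agent.H94.GP

namespace Pool.Agent.H23.GP

theorem ZoJ_hk (K : ℝ → ℝ) (x : ℝ) : hk K x = -(1 - H94.GP.tt x) / 2 * K x := by
  unfold hk ee
  push_cast
  ring

theorem zoi_all (m c2 c6 c8 μ0 μ1 μ2 μ3 w0 w1 f : ℤ) (tx tu ta tz : Fin 16 → TM) (x0 u a0 z0 : Fin 16 → ℝ)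
    (hx : ∀ j, (tx j).ok DD (fun _ => x0 j)) (hu : ∀ j, (tu j).ok DD (fun _ => u j))
    (ha : ∀ j, (ta j).ok DD (fun _ => a0 j)) (hz : ∀ j, (tz j).ok DD (fun _ => z0 j))
    (vx : ∀ j : Fin 16, j.val < 4 → x0 j = 0) (vu : u 0 = 0) (vz : z0 0 = 0)
    (oX oA oZ : Fin 16 → List ℤ) (oK : Fin 33 → List ℤ) (n : ℕ → ℕ) (hn : ∀ i, 0 < n i)
    (h1 : ∀ i : ℕ, i < 16 → zoi1 m c2 c6 c8 μ0 μ1 μ2 μ3 w0 w1 f tx tu ta tz oX oA oZ oK (n i)
      (40000 + 2007 * (i : ℤ)) 2007 80000 = true)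
    (h2 : ∀ i : ℕ, i < 16 → zoi2 m c2 c6 c8 μ0 μ1 μ2 μ3 w0 w1 f tx tu ta tz oX oA oZ oK (n i)
      (40000 + 2007 * (i : ℤ)) 2007 80000 = true)
    (r : ℝ) (hr1 : 1 ≤ r) (hr2 : r ^ 2 < 13 / 4) (a ξ η σ : ℝ) (α p q : ℂ) :
    0 ≤ floc (fun j => ((Qj gam (r ^ 2) (1 / r ^ 2) (-(1 / (r ^ 2) ^ 2)) ((f / 1000000) / r)
            (-((f / 1000000) / (2 * r ^ 3))) j
          + (Ec (m / 1000000) (c2 / 1000000) (c6 / 1000000) (c8 / 1000000) (μ0 / 1000000) (μ1 / 1000000)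
              (μ2 / 1000000) (μ3 / 1000000) (gc (r ^ 2)) (r ^ 2) j + Spz w0 w1 j))
            - bz 2 * fX (x0 j) (u j) (oX j) (r ^ 2)
            - (2 * kj j * fAd (a0 j) (oA j) (r ^ 2) + 2 * r ^ 2 * fAd (z0 j) (oZ j) (r ^ 2)
              + (kj j + 2) * fA (z0 j) (oZ j) (r ^ 2))) * r ^ kj j)
          (fun j => (kj j * fA (a0 j) (oA j) (r ^ 2) + r ^ 2 * fA (z0 j) (oZ j) (r ^ 2)
            - r ^ 2 * fXd (x0 j) (u j) (oX j) (r ^ 2)
            - 1 / 2 * kj j * fX (x0 j) (u j) (oX j) (r ^ 2)) * r ^ kj j / r)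
          (fun j => kj j * (fA (a0 j) (oA j) (r ^ 2) - 1 / 2 * fX (x0 j) (u j) (oX j) (r ^ 2)) * r ^ kj j / r)
          (fun j => fX (x0 j) (u j) (oX j) (r ^ 2) * r ^ kj j) a ξ η σ α p q := by
  obtain ⟨i, hi, hi1, hi2⟩ := ZoC_var r hr1 hr2
  obtain ⟨x, rfl⟩ : ∃ x, r = 2 * x := ⟨r / 2, by ring⟩
  have e2x : 2 * x / 2 = x := by ring
  rw [e2x] at hi1 hi2
  have hx' : 0 < x := by linarith
  have he : 0 < ee x := by
    unfold ee H94.GP.tt
    nlinarith
  have hh1 := h1 i hi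
  have hh2 := h2 i hi
  unfold zoi1 at hh1
  unfold zoi2 at hh2
  have hi16 : (i : ℤ) < 16 := by exact_mod_cast hi
  have okT : ∀ j, (mT m c2 c6 c8 μ0 μ1 μ2 μ3 w0 w1 f (tx j) (tu j) (ta j) (tz j) (oX j) (oA j) (oZ j) j).ok DD
      (zoT m c2 c6 c8 μ0 μ1 μ2 μ3 w0 w1 f (x0 j) (u j) (a0 j) (z0 j) (oX j) (oA j) (oZ j) j) :=
    fun j => ok_mT _ _ _ _ _ _ _ _ _ _ _ _ _ _ _ _ _ _ _ _ _ _ (hx j) (hu j) (ha j) (hz j) j
  have okR := ok_mwR tx tu ta tz x0 u a0 z0 hx hu ha hz oX oA oZ oK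
  have okS := ok_mwS tx tu ta x0 u a0 hx hu ha oX oA oK
  have okX := ok_mwX tx tu x0 u hx hu oX
  have okK := ok_mwK tx tu ta tz x0 u a0 z0 hx hu ha hz oX oA oZ oK
  have k1 := gk1 _ _ _ _ _ _ _ _ _ _ okT okR okS okX okK (n i) (hn i) _ _ _ (by positivity) (by norm_num)
    (by norm_num) (by omega) hh1 x hi1 hi2
    (o1 (H94.GP.tt x) (a / (2 * x)) (ee x * ξ) (ee x * η) σ α p q) rfl
  have k2 := gk2 _ _ _ _ _ _ _ _ _ _ okT okR okS okX okK (n i) (hn i) _ _ _ (by positivity) (by norm_num)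
    (by norm_num) (by omega) hh2 x hi1 hi2
    (o2 (H94.GP.tt x) (a / (2 * x)) (ee x * ξ) (ee x * η) σ α p q) rfl
  rw [floc_scale3 _ _ _ _ a ξ η σ α p q (2 * x) (ee x) (by positivity) he.ne']
  have xv : ∀ j : Fin 16, j.val < 4 → oQX (x0 j) (u j) (oX j) x
      = H94.GP.tt x * (u j + H94.GP.tt x * pf (oX j) (H94.GP.tt x)) := by
    intro j hj
    unfold oQX
    rw [vx j hj]
    ring
  have e := blkO_id (fun j => zoT m c2 c6 c8 μ0 μ1 μ2 μ3 w0 w1 f (x0 j) (u j) (a0 j) (z0 j) (oX j) (oA j) (oZ j) j x)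
    (fun j => vR x0 u a0 z0 oX oA oZ j x) (fun j => vS x0 u a0 oX oA j x)
    (fun j => (2 * x) ^ kj j * oQX (x0 j) (u j) (oX j) x)
    (fun j => wR x0 u a0 z0 oX oA oZ oK j x) (fun j => wS x0 u a0 oX oA oK j x) (fun j => wX x0 u oX j x)
    (fun i => wK x0 u a0 z0 oX oA oZ oK i x) (H94.GP.tt x)
    (fun j hj => by
      have h0 : j ≠ 0 := by rintro rfl; exact absurd hj (by decide)
      simp only [wR, if_neg h0, if_neg (not_lt.2 hj)])
    (fun j hj => by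
      have h0 : j ≠ 0 := by rintro rfl; exact absurd hj (by decide)
      simp only [wS, if_neg h0, if_neg (not_lt.2 hj)])
    (fun j hj => by
      have h0 : j ≠ 0 := by rintro rfl; exact absurd hj (by decide)
      simp only [wX, if_neg h0, if_neg (not_lt.2 hj)])
    (by
      have hk0 : kj 0 = 0 := rfl
      simp only [wX, if_pos]
      rw [xv 0 (by decide), vu, hk0]
      ring)
    (by
      have hk0 : kj 0 = 0 := rfl
      have hxv := xv 0 (by decide)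
      rw [vu] at hxv
      simp only [wR, if_pos, vR, w0R, oR, hk0, vu, hxv, oQXd, oQA, vz]
      push_cast
      ring)
    (by
      simp only [wX, if_neg (show ¬ (1 : Fin 16) = 0 by decide), if_pos (show (1 : Fin 16).val < 4 by decide)]
      rw [xv 1 (by decide)]
      ring)
    (by
      simp only [wX, if_neg (show ¬ (2 : Fin 16) = 0 by decide), if_pos (show (2 : Fin 16).val < 4 by decide)]
      rw [xv 2 (by decide)]
      ring)
    (by
      simp only [wX, if_neg (show ¬ (3 : Fin 16) = 0 by decide), if_pos (show (3 : Fin 16).val < 4 by decide)]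
      rw [xv 3 (by decide)]
      ring)
    (by
      have e1 : wK x0 u a0 z0 oX oA oZ oK 0 x = ((-1 : ℤ) : ℝ) * (wR x0 u a0 z0 oX oA oZ oK 1 x + zoK oK 0 x) := by
        simp only [wK, if_pos (show (0 : Fin 33).val < 3 by decide)]
        rfl
      have e2 : wR x0 u a0 z0 oX oA oZ oK 1 x = vR x0 u a0 z0 oX oA oZ 1 x + hk (zoK oK 0) x := by
        simp only [wR, if_neg (show ¬ (1 : Fin 16) = 0 by decide), if_pos (show (1 : Fin 16).val < 4 by decide)]
        rfl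
      rw [e1, e2, ZoJ_hk]
      push_cast
      ring)
    (by
      have e1 : wK x0 u a0 z0 oX oA oZ oK 1 x = ((-1 : ℤ) : ℝ) * (wR x0 u a0 z0 oX oA oZ oK 2 x + zoK oK 1 x) := by
        simp only [wK, if_pos (show (1 : Fin 33).val < 3 by decide)]
        rfl
      have e2 : wR x0 u a0 z0 oX oA oZ oK 2 x = vR x0 u a0 z0 oX oA oZ 2 x + hk (zoK oK 1) x := by
        simp only [wR, if_neg (show ¬ (2 : Fin 16) = 0 by decide), if_pos (show (2 : Fin 16).val < 4 by decide)]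
        rfl
      rw [e1, e2, ZoJ_hk]
      push_cast
      ring)
    (by
      have e1 : wK x0 u a0 z0 oX oA oZ oK 2 x = ((-1 : ℤ) : ℝ) * (wR x0 u a0 z0 oX oA oZ oK 3 x + zoK oK 2 x) := by
        simp only [wK, if_pos (show (2 : Fin 33).val < 3 by decide)]
        rfl
      have e2 : wR x0 u a0 z0 oX oA oZ oK 3 x = vR x0 u a0 z0 oX oA oZ 3 x + hk (zoK oK 2) x := by
        simp only [wR, if_neg (show ¬ (3 : Fin 16) = 0 by decide), if_pos (show (3 : Fin 16).val < 4 by decide)]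
        rfl
      rw [e1, e2, ZoJ_hk]
      push_cast
      ring)
    (by
      have e1 : wK x0 u a0 z0 oX oA oZ oK 9 x = ((-1 : ℤ) : ℝ) * (wS x0 u a0 oX oA oK 1 x + zoK oK 9 x) := by
        simp only [wK, if_neg (show ¬ (9 : Fin 33).val < 3 by decide), if_neg (show ¬ (9 : Fin 33).val < 9 by decide),
          if_pos (show (9 : Fin 33).val < 12 by decide)]
        rfl
      have e2 : wS x0 u a0 oX oA oK 1 x = vS x0 u a0 oX oA 1 x + hk (zoK oK 9) x := by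
        simp only [wS, if_neg (show ¬ (1 : Fin 16) = 0 by decide), if_pos (show (1 : Fin 16).val < 4 by decide)]
        rfl
      rw [e1, e2, ZoJ_hk]
      push_cast
      ring)
    (by
      have e1 : wK x0 u a0 z0 oX oA oZ oK 10 x = ((-1 : ℤ) : ℝ) * (wS x0 u a0 oX oA oK 2 x + zoK oK 10 x) := by
        simp only [wK, if_neg (show ¬ (10 : Fin 33).val < 3 by decide),
          if_neg (show ¬ (10 : Fin 33).val < 9 by decide), if_pos (show (10 : Fin 33).val < 12 by decide)]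
        rfl
      have e2 : wS x0 u a0 oX oA oK 2 x = vS x0 u a0 oX oA 2 x + hk (zoK oK 10) x := by
        simp only [wS, if_neg (show ¬ (2 : Fin 16) = 0 by decide), if_pos (show (2 : Fin 16).val < 4 by decide)]
        rfl
      rw [e1, e2, ZoJ_hk]
      push_cast
      ring)
    (by
      have e1 : wK x0 u a0 z0 oX oA oZ oK 11 x = ((-1 : ℤ) : ℝ) * (wS x0 u a0 oX oA oK 3 x + zoK oK 11 x) := by
        simp only [wK, if_neg (show ¬ (11 : Fin 33).val < 3 by decide),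
          if_neg (show ¬ (11 : Fin 33).val < 9 by decide), if_pos (show (11 : Fin 33).val < 12 by decide)]
        rfl
      have e2 : wS x0 u a0 oX oA oK 3 x = vS x0 u a0 oX oA 3 x + hk (zoK oK 11) x := by
        simp only [wS, if_neg (show ¬ (3 : Fin 16) = 0 by decide), if_pos (show (3 : Fin 16).val < 4 by decide)]
        rfl
      rw [e1, e2, ZoJ_hk]
      push_cast
      ring)
    (a / (2 * x)) (ee x * ξ) (ee x * η) σ α p q
  have hpos : 0 ≤ floc (fun j => zoT m c2 c6 c8 μ0 μ1 μ2 μ3 w0 w1 f (x0 j) (u j) (a0 j) (z0 j) (oX j) (oA j)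
      (oZ j) j x) (fun j => vR x0 u a0 z0 oX oA oZ j x) (fun j => vS x0 u a0 oX oA j x)
    (fun j => (2 * x) ^ kj j * oQX (x0 j) (u j) (oX j) x) (a / (2 * x)) (ee x * ξ) (ee x * η) σ α p q := by
    linarith
  refine hpos.trans_eq (floc_congr _ _ _ _ _ _ _ _ _ _ _ _ _ _ _ (fun j => ?_) (fun j => ?_)
    (fun j => ?_) (fun j => ?_))
  · exact (zoT_eq m c2 c6 c8 μ0 μ1 μ2 μ3 w0 w1 f _ _ _ _ _ _ _ j x hx').symm
  · exact (zoR_eq _ _ _ _ _ _ _ _ x hx' he.ne').symm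
  · exact (zoS_eq _ _ _ _ _ _ x hx' he.ne').symm
  · exact (zoX_eq _ _ _ _ x he.ne').symm

end Pool.Agent.H23.GP
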